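import Mathlib

/-!
# Dirichlet densities of bounded functions on the primes

`DD u l` says that `(∑_p u(p) p^{-s}) / (-log (s-1)) → l` as `s → 1+`.
-/

open Filter Topology

namespace Pool.Agent.H9.Dyn

/-- the weighted sum `∑_p u(p) p^{-s}` over the primes -/
noncomputable def pSum (u : Nat.Primes → ℝ) (s : ℝ) : ℝ := ∑' p : Nat.Primes, u p * ((p : ℕ) : ℝ) ^ (-s)

/-- `u` has Dirichlet mean value `l` on the primes -/
def DD (u : Nat.Primes → ℝ) (l : ℝ) : Prop :=
  Tendsto (fun s : ℝ => pSum u s / (-Real.log (s - 1))) (𝓝[>] 1) (𝓝 l)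

/-- boundedness of a function on the primes -/
def Bdd (u : Nat.Primes → ℝ) : Prop := ∃ B : ℝ, ∀ p, |u p| ≤ B

theorem Bdd.add {u v : Nat.Primes → ℝ} (hu : Bdd u) (hv : Bdd v) : Bdd (fun p => u p + v p) := by
  obtain ⟨B, hB⟩ := hu
  obtain ⟨C, hC⟩ := hv
  exact ⟨B + C, fun p => (abs_add_le _ _).trans (add_le_add (hB p) (hC p))⟩

theorem Bdd.sub {u v : Nat.Primes → ℝ} (hu : Bdd u) (hv : Bdd v) : Bdd (fun p => u p - v p) := by
  obtain ⟨B, hB⟩ := hu
  obtain ⟨C, hC⟩ := hv
  exact ⟨B + C, fun p => (abs_sub _ _).trans (add_le_add (hB p) (hC p))⟩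

theorem Bdd.const_mul {u : Nat.Primes → ℝ} (hu : Bdd u) (c : ℝ) : Bdd (fun p => c * u p) := by
  obtain ⟨B, hB⟩ := hu
  exact ⟨|c| * B, fun p => by rw [abs_mul]; exact mul_le_mul_of_nonneg_left (hB p) (abs_nonneg _)⟩

theorem Bdd.sum {ι : Type*} (t : Finset ι) {u : ι → Nat.Primes → ℝ} (hu : ∀ i ∈ t, Bdd (u i)) :
    Bdd (fun p => ∑ i ∈ t, u i p) := by
  classical
  induction t using Finset.induction_on with
  | empty => exact ⟨0, fun p => by simp⟩
  | insert a t ha ih =>
    have h1 := hu a (Finset.mem_insert_self a t)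
    have h2 := ih (fun i hi => hu i (Finset.mem_insert_of_mem hi))
    obtain ⟨B, hB⟩ := h1.add h2
    exact ⟨B, fun p => by simpa only [Finset.sum_insert ha] using hB p⟩

theorem summable_primes {s : ℝ} (hs : 1 < s) :
    Summable (fun p : Nat.Primes => ((p : ℕ) : ℝ) ^ (-s)) :=
  Nat.Primes.summable_rpow.mpr (by linarith)

theorem Bdd.summable {u : Nat.Primes → ℝ} (hu : Bdd u) {s : ℝ} (hs : 1 < s) :
    Summable (fun p : Nat.Primes => u p * ((p : ℕ) : ℝ) ^ (-s)) := by
  obtain ⟨B, hB⟩ := hu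
  refine Summable.of_norm_bounded ((summable_primes hs).mul_left B) fun p => ?_
  rw [norm_mul, Real.norm_eq_abs, Real.norm_eq_abs,
    abs_of_nonneg (Real.rpow_nonneg (Nat.cast_nonneg _) _)]
  exact mul_le_mul_of_nonneg_right (hB p) (Real.rpow_nonneg (Nat.cast_nonneg _) _)

theorem tendsto_neg_log : Tendsto (fun s : ℝ => -Real.log (s - 1)) (𝓝[>] 1) atTop := by
  have h1 : Tendsto (fun s : ℝ => s - 1) (𝓝[>] 1) (𝓝[>] 0) := by
    refine tendsto_nhdsWithin_iff.mpr ⟨?_, ?_⟩
    · have : Tendsto (fun s : ℝ => s - 1) (𝓝 1) (𝓝 (1 - 1)) :=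
        (continuous_id.sub continuous_const).tendsto 1
      rw [sub_self] at this
      exact this.mono_left nhdsWithin_le_nhds
    · filter_upwards [self_mem_nhdsWithin] with s hs
      exact sub_pos.mpr (Set.mem_Ioi.mp hs)
  exact tendsto_neg_atBot_atTop.comp (Real.tendsto_log_nhdsGT_zero.comp h1)

theorem DD.add {u v : Nat.Primes → ℝ} {a b : ℝ} (hu : DD u a) (hv : DD v b) (bu : Bdd u)
    (bv : Bdd v) : DD (fun p => u p + v p) (a + b) := by
  refine (Tendsto.add hu hv).congr' ?_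
  filter_upwards [self_mem_nhdsWithin] with s hs
  rw [← add_div]
  congr 1
  unfold pSum
  rw [← (bu.summable hs).tsum_add (bv.summable hs)]
  exact tsum_congr fun p => by ring

theorem DD.const_mul {u : Nat.Primes → ℝ} {a : ℝ} (hu : DD u a) (c : ℝ) :
    DD (fun p => c * u p) (c * a) := by
  refine (Tendsto.const_mul c hu).congr' ?_
  filter_upwards [self_mem_nhdsWithin] with s hs
  rw [← mul_div_assoc]
  congr 1
  unfold pSum
  rw [← tsum_mul_left]
  exact tsum_congr fun p => by ring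

theorem DD.sub {u v : Nat.Primes → ℝ} {a b : ℝ} (hu : DD u a) (hv : DD v b) (bu : Bdd u)
    (bv : Bdd v) : DD (fun p => u p - v p) (a - b) := by
  have := hu.add (hv.const_mul (-1)) bu (bv.const_mul (-1))
  convert this using 1
  · funext p; ring
  · ring

theorem DD.zero : DD (fun _ => 0) 0 := by
  unfold DD pSum
  simp

theorem DD.sum {ι : Type*} (t : Finset ι) {u : ι → Nat.Primes → ℝ} {a : ι → ℝ}
    (hu : ∀ i ∈ t, DD (u i) (a i)) (bu : ∀ i ∈ t, Bdd (u i)) :
    DD (fun p => ∑ i ∈ t, u i p) (∑ i ∈ t, a i) := by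
  classical
  induction t using Finset.induction_on with
  | empty => simpa using DD.zero
  | insert i t ha ih =>
    simp_rw [Finset.sum_insert ha]
    exact (hu i (Finset.mem_insert_self i t)).add
      (ih (fun j hj => hu j (Finset.mem_insert_of_mem hj))
        (fun j hj => bu j (Finset.mem_insert_of_mem hj)))
      (bu i (Finset.mem_insert_self i t))
      (Bdd.sum t (fun j hj => bu j (Finset.mem_insert_of_mem hj)))

/-- changing finitely many values does not matter -/
theorem DD.of_finite {u : Nat.Primes → ℝ} (hu : {p | u p ≠ 0}.Finite) : DD u 0 := by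
  classical
  have h1 : ∀ s : ℝ, pSum u s = ∑ p ∈ hu.toFinset, u p * ((p : ℕ) : ℝ) ^ (-s) := by
    intro s
    unfold pSum
    refine tsum_eq_sum fun p hp => ?_
    rw [Set.Finite.mem_toFinset, Set.mem_ofPred_eq, not_not] at hp
    rw [hp, zero_mul]
  have h2 : ∀ s : ℝ, 0 ≤ s → |pSum u s| ≤ ∑ p ∈ hu.toFinset, |u p| := by
    intro s hs
    rw [h1]
    refine (Finset.abs_sum_le_sum_abs _ _).trans (Finset.sum_le_sum fun p _ => ?_)
    rw [abs_mul, abs_of_nonneg (Real.rpow_nonneg (Nat.cast_nonneg _) _)]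
    have h3 : ((p : ℕ) : ℝ) ^ (-s) ≤ 1 := by
      refine Real.rpow_le_one_of_one_le_of_nonpos ?_ (by linarith)
      exact_mod_cast p.2.one_lt.le
    nlinarith [abs_nonneg (u p)]
  have h3 : Tendsto (fun s : ℝ => (∑ p ∈ hu.toFinset, |u p|) / (-Real.log (s - 1))) (𝓝[>] 1)
      (𝓝 0) := tendsto_neg_log.const_div_atTop _
  refine squeeze_zero_norm' ?_ h3
  filter_upwards [self_mem_nhdsWithin, tendsto_neg_log.eventually_gt_atTop 0] with s hs hl
  rw [norm_div, Real.norm_eq_abs, Real.norm_eq_abs, abs_of_pos hl]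
  exact div_le_div_of_nonneg_right (h2 s (le_trans zero_le_one (le_of_lt hs))) hl.le

theorem Bdd.of_finite {u : Nat.Primes → ℝ} (hu : {p | u p ≠ 0}.Finite) : Bdd u := by
  classical
  refine ⟨∑ p ∈ hu.toFinset, |u p|, fun p => ?_⟩
  by_cases hp : u p = 0
  · rw [hp, abs_zero]
    exact Finset.sum_nonneg fun _ _ => abs_nonneg _
  · exact Finset.single_le_sum (f := fun p => |u p|) (fun _ _ => abs_nonneg _)
      ((Set.Finite.mem_toFinset _).mpr hp)

theorem DD.congr {u v : Nat.Primes → ℝ} {a : ℝ} (hu : DD u a) (bu : Bdd u)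
    (h : {p | u p ≠ v p}.Finite) : DD v a := by
  have h1 : {p | (fun p => v p - u p) p ≠ 0}.Finite := by
    refine h.subset fun p hp => ?_
    simp only [Set.mem_ofPred_eq] at hp ⊢
    intro h2
    exact hp (by rw [h2]; ring)
  have := hu.add (DD.of_finite h1) bu (Bdd.of_finite h1)
  convert this using 1
  · funext p; ring
  · ring

end Pool.Agent.H9.Dyn
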