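import Mathlib
import Pool.Agent.H9.Dyn.DD

/-!
# Frobenius elements of a finite Galois extension of the rationals
-/

open Polynomial NumberField

namespace Pool.Agent.H9.Dyn

section frob

variable (M : Type*) [Field M] [NumberField M] [IsGalois ℚ M]

theorem exists_frob (p : ℕ) [hp : Fact p.Prime] :
    ∃ (Q : Ideal (𝓞 M)) (σ : Gal(M/ℚ)), Q.IsMaximal ∧ (∀ m : ℤ, (m : 𝓞 M) ∈ Q ↔ (p : ℤ) ∣ m) ∧
      ∀ x : 𝓞 M, σ • x - x ^ p ∈ Q := by
  have h1 : Ideal.span {(p : 𝓞 M)} ≠ ⊤ := by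
    rw [Ne, Ideal.span_singleton_eq_top]
    intro h
    have h2 : IsUnit (Algebra.norm ℤ (p : 𝓞 M)) := h.map (Algebra.norm ℤ)
    have h3 : (p : 𝓞 M) = algebraMap ℤ (𝓞 M) (p : ℤ) := by simp
    rw [h3, Algebra.norm_algebraMap, Int.isUnit_iff_natAbs_eq, Int.natAbs_pow,
      Int.natAbs_natCast] at h2
    have h4 := Module.finrank_pos (R := ℤ) (M := 𝓞 M)
    have h5 := Nat.one_lt_pow h4.ne' hp.out.one_lt
    omega
  obtain ⟨Q, hQm, hQ⟩ := Ideal.exists_le_maximal _ h1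
  have hpQ : (p : 𝓞 M) ∈ Q := hQ (Ideal.mem_span_singleton_self _)
  have hQ0 : Q ≠ ⊥ := by
    rintro rfl
    rw [Ideal.mem_bot] at hpQ
    exact hp.out.ne_zero (by exact_mod_cast hpQ)
  have hfin : Finite (𝓞 M ⧸ Q) := Ideal.finiteQuotientOfFreeOfNeBot Q hQ0
  have hund : Q.under ℤ = Ideal.span {(p : ℤ)} := by
    have hmax := Int.ideal_span_isMaximal_of_prime p
    refine (hmax.eq_of_le ?_ ?_).symm
    · exact (Ideal.IsPrime.under ℤ Q).ne_top
    · rw [Ideal.span_le, Set.singleton_subset_iff]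
      change algebraMap ℤ (𝓞 M) (p : ℤ) ∈ Q
      simpa using hpQ
  obtain ⟨σ, hσ⟩ := IsArithFrobAt.exists_of_isInvariant ℤ Gal(M/ℚ) Q
  refine ⟨Q, σ, hQm, fun m => ?_, fun x => ?_⟩
  · rw [← Ideal.mem_span_singleton, ← hund]
    change _ ↔ algebraMap ℤ (𝓞 M) m ∈ Q
    simp
  · have h2 := hσ x
    have h3 : Nat.card (ℤ ⧸ Q.under ℤ) = p := by
      rw [hund, Nat.card_congr (Int.quotientSpanNatEquivZMod p).toEquiv, Nat.card_zmod]
    rw [h3] at h2
    exact h2

/-- a prime above `p` -/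
noncomputable def frobIdeal (p : Nat.Primes) : Ideal (𝓞 M) :=
  haveI : Fact (p : ℕ).Prime := ⟨p.2⟩
  (exists_frob M p).choose

/-- a Frobenius element above `p` -/
noncomputable def frob (p : Nat.Primes) : Gal(M/ℚ) :=
  haveI : Fact (p : ℕ).Prime := ⟨p.2⟩
  (exists_frob M p).choose_spec.choose

instance frobIdeal_isMaximal (p : Nat.Primes) : (frobIdeal M p).IsMaximal :=
  haveI : Fact (p : ℕ).Prime := ⟨p.2⟩
  (exists_frob M p).choose_spec.choose_spec.1

variable {M}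

theorem intCast_mem_frobIdeal (p : Nat.Primes) (m : ℤ) :
    (m : 𝓞 M) ∈ frobIdeal M p ↔ ((p : ℕ) : ℤ) ∣ m :=
  haveI : Fact (p : ℕ).Prime := ⟨p.2⟩
  (exists_frob M p).choose_spec.choose_spec.2.1 m

theorem frob_smul_sub (p : Nat.Primes) (x : 𝓞 M) :
    frob M p • x - x ^ (p : ℕ) ∈ frobIdeal M p :=
  haveI : Fact (p : ℕ).Prime := ⟨p.2⟩
  (exists_frob M p).choose_spec.choose_spec.2.2 x

theorem finite_mem_frobIdeal {x : 𝓞 M} (hx : x ≠ 0) :
    {p : Nat.Primes | x ∈ frobIdeal M p}.Finite := by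
  set N : ℕ := Ideal.absNorm (Ideal.span {x}) with hN
  have hN0 : N ≠ 0 := by
    rw [hN, Ne, Ideal.absNorm_eq_zero_iff, Ideal.span_singleton_eq_bot]
    exact hx
  have h1 : {p : Nat.Primes | x ∈ frobIdeal M p} ⊆ Subtype.val ⁻¹' (N.divisors : Set ℕ) := by
    intro p hp
    have h2 : (N : 𝓞 M) ∈ frobIdeal M p := by
      have h3 := Ideal.absNorm_mem (Ideal.span {x})
      have h4 : Ideal.span {x} ≤ frobIdeal M p := by
        rw [Ideal.span_le, Set.singleton_subset_iff]; exact hp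
      exact h4 h3
    have h3 := (intCast_mem_frobIdeal (M := M) p (N : ℤ)).mp (by simpa using h2)
    simp only [Set.mem_preimage, Finset.mem_coe, Nat.mem_divisors]
    exact ⟨Int.natCast_dvd_natCast.mp h3, hN0⟩
  exact (Set.Finite.preimage Subtype.val_injective.injOn (Finset.finite_toSet _)).subset h1

/-- reduction modulo the chosen prime is injective on a given finite set for almost all `p` -/
theorem finite_not_injOn (R : Set (𝓞 M)) (hR : R.Finite) :
    {p : Nat.Primes | ¬ ∀ a ∈ R, ∀ b ∈ R, a - b ∈ frobIdeal M p → a = b}.Finite := by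
  have h1 : {p : Nat.Primes | ¬ ∀ a ∈ R, ∀ b ∈ R, a - b ∈ frobIdeal M p → a = b} ⊆
      ⋃ q ∈ {q : 𝓞 M × 𝓞 M | q.1 ∈ R ∧ q.2 ∈ R ∧ q.1 ≠ q.2},
        {p : Nat.Primes | q.1 - q.2 ∈ frobIdeal M p} := by
    intro p hp
    simp only [Set.mem_ofPred_eq] at hp
    push Not at hp
    obtain ⟨a, ha, b, hb, hab, hne⟩ := hp
    simp only [Set.mem_iUnion]
    exact ⟨(a, b), ⟨ha, hb, hne⟩, hab⟩
  refine Set.Finite.subset (Set.Finite.biUnion ?_ fun q hq => finite_mem_frobIdeal ?_) h1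
  · exact (hR.prod hR).subset fun q hq => ⟨hq.1, hq.2.1⟩
  · exact sub_ne_zero.mpr hq.2.2


/-- the conjugates of an algebraic integer -/
def conjSet (a : 𝓞 M) : Set (𝓞 M) := MulAction.orbit Gal(M/ℚ) a

omit [IsGalois ℚ M] in
theorem finite_conjSet (a : 𝓞 M) : (conjSet a).Finite := Set.finite_range _

theorem aroots_minpoly (a : 𝓞 M) (x : M) :
    x ∈ ((minpoly ℚ (a : M)).map (algebraMap ℚ M)).roots ↔
      ∃ b ∈ conjSet a, (b : M) = x := by
  have h0 : (minpoly ℚ (a : M)).map (algebraMap ℚ M) ≠ 0 :=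
    Polynomial.map_ne_zero (minpoly.ne_zero (Algebra.IsIntegral.isIntegral (a : M)))
  rw [mem_roots h0, IsRoot.def, eval_map_algebraMap]
  constructor
  · intro h
    obtain ⟨σ, hσ⟩ := (isConjRoot_iff_exists_algEquiv (K := ℚ) (x := x) (y := (a : M))).mp
      ((isConjRoot_iff_aeval_eq_zero (Algebra.IsIntegral.isIntegral (a : M))).mpr h).symm
    exact ⟨σ • a, MulAction.mem_orbit _ _, hσ⟩
  · rintro ⟨b, ⟨σ, rfl⟩, rfl⟩
    change aeval (σ (a : M)) (minpoly ℚ (a : M)) = 0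
    have h3 := Polynomial.aeval_algHom_apply (σ : M →ₐ[ℚ] M) (a : M) (minpoly ℚ (a : M))
    rw [minpoly.aeval, map_zero] at h3
    exact h3

theorem map_minpoly (a : 𝓞 M) :
    (minpoly ℤ a).map (algebraMap ℤ (𝓞 M)) = ∏ b ∈ (finite_conjSet a).toFinset, (X - C b) := by
  classical
  have hinj : Function.Injective (algebraMap (𝓞 M) M) := FaithfulSMul.algebraMap_injective _ _
  apply Polynomial.map_injective _ hinj
  have h1 : ((minpoly ℤ a).map (algebraMap ℤ (𝓞 M))).map (algebraMap (𝓞 M) M) =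
      (minpoly ℚ (a : M)).map (algebraMap ℚ M) := by
    have h2 : minpoly ℚ (a : M) = (minpoly ℤ a).map (algebraMap ℤ ℚ) := by
      have := minpoly.isIntegrallyClosed_eq_field_fractions ℚ M (RingOfIntegers.isIntegral a)
      exact this
    rw [h2, Polynomial.map_map, Polynomial.map_map]
    congr 1
    exact RingHom.ext_int _ _
  rw [h1, Polynomial.map_prod]
  have hsep : ((minpoly ℚ (a : M)).map (algebraMap ℚ M)).roots.Nodup :=
    nodup_roots (Polynomial.Separable.map (Algebra.IsSeparable.isSeparable ℚ (a : M)))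
  have hmon : ((minpoly ℚ (a : M)).map (algebraMap ℚ M)).Monic :=
    (minpoly.monic (Algebra.IsIntegral.isIntegral (a : M))).map _
  have hspl := (Normal.splits (inferInstance : Normal ℚ M) (a : M))
  rw [hspl.eq_prod_roots_of_monic hmon]
  have h3 : ((minpoly ℚ (a : M)).map (algebraMap ℚ M)).roots =
      ((finite_conjSet a).toFinset.image (algebraMap (𝓞 M) M)).val := by
    refine (Multiset.Nodup.ext hsep (Finset.nodup _)).mpr fun x => ?_
    rw [aroots_minpoly]
    simp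
  rw [h3]
  change (∏ x ∈ (finite_conjSet a).toFinset.image (algebraMap (𝓞 M) M), (X - C x)) = _
  rw [Finset.prod_image (fun x _ y _ h => hinj h)]
  simp


theorem card_roots_eq (a : 𝓞 M) (p : Nat.Primes)
    (hinj : ∀ b ∈ conjSet a, ∀ b' ∈ conjSet a, b - b' ∈ frobIdeal M p → b = b') :
    Nat.card {y : ZMod p // ((minpoly ℤ a).map (Int.castRingHom (ZMod p))).IsRoot y} =
      Nat.card {b : 𝓞 M // b ∈ conjSet a ∧ frob M p • b = b} := by
  classical
  haveI : Fact (p : ℕ).Prime := ⟨p.2⟩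
  letI : Field (𝓞 M ⧸ frobIdeal M p) := Ideal.Quotient.field (frobIdeal M p)
  haveI : CharP (𝓞 M ⧸ frobIdeal M p) p := ⟨fun x => by
    have h1 := intCast_mem_frobIdeal (M := M) p (x : ℤ)
    rw [Int.natCast_dvd_natCast] at h1
    rw [← h1]
    have h2 : ((x : ℕ) : 𝓞 M ⧸ frobIdeal M p) =
      Ideal.Quotient.mk (frobIdeal M p) ((x : ℤ) : 𝓞 M) := by simp
    rw [h2, Ideal.Quotient.eq_zero_iff_mem]⟩
  set φ : 𝓞 M →+* 𝓞 M ⧸ frobIdeal M p := Ideal.Quotient.mk _ with hφ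
  set j : ZMod p →+* 𝓞 M ⧸ frobIdeal M p := ZMod.castHom (dvd_refl _) _ with hj
  have hjinj : Function.Injective j := j.injective
  have hroot : ∀ y : ZMod p, ((minpoly ℤ a).map (Int.castRingHom (ZMod p))).IsRoot y ↔
      ∃ b ∈ conjSet a, φ b = j y := by
    intro y
    have h1 : j (((minpoly ℤ a).map (Int.castRingHom (ZMod p))).eval y) =
        ∏ b ∈ (finite_conjSet a).toFinset, (j y - φ b) := by
      have h2 : (((minpoly ℤ a).map (Int.castRingHom (ZMod p))).map j) =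
          ((minpoly ℤ a).map (algebraMap ℤ (𝓞 M))).map φ := by
        rw [Polynomial.map_map, Polynomial.map_map]
        congr 1
        exact RingHom.ext_int _ _
      rw [← Polynomial.eval_map_apply, h2, map_minpoly, Polynomial.map_prod,
        Polynomial.eval_prod]
      simp
    rw [IsRoot.def, ← map_eq_zero_iff j hjinj, h1, Finset.prod_eq_zero_iff]
    simp only [Set.Finite.mem_toFinset, sub_eq_zero]
    constructor
    · rintro ⟨b, hb, h⟩; exact ⟨b, hb, h.symm⟩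
    · rintro ⟨b, hb, h⟩; exact ⟨b, hb, h.symm⟩
  have hfix : ∀ b ∈ conjSet a, (frob M p • b = b ↔ ∃ y : ZMod p, j y = φ b) := by
    intro b hb
    have h1 : φ (frob M p • b) = φ b ^ (p : ℕ) := by
      rw [← map_pow, hφ, Ideal.Quotient.eq]
      exact frob_smul_sub p b
    have h2 : (∃ y : ZMod p, j y = φ b) ↔ φ b ^ (p : ℕ) = φ b := by
      rw [← Subfield.mem_bot_iff_pow_eq_self (𝓞 M ⧸ frobIdeal M p) p,
        ← ZMod.fieldRange_castHom_eq_bot p]
      rfl
    rw [h2, ← h1]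
    constructor
    · intro h; rw [h]
    · intro h
      refine hinj _ ?_ _ hb ?_
      · obtain ⟨σ, rfl⟩ := hb
        exact ⟨frob M p * σ, by simp [mul_smul]⟩
      · rwa [hφ, Ideal.Quotient.eq] at h
  refine Nat.card_congr (Equiv.ofBijective
    (fun y => ⟨((hroot y.1).mp y.2).choose, ((hroot y.1).mp y.2).choose_spec.1, ?_⟩) ⟨?_, ?_⟩)
  · have h1 := ((hroot y.1).mp y.2).choose_spec
    exact (hfix _ h1.1).mpr ⟨y.1, h1.2.symm⟩
  · intro y z hyz
    have h1 := ((hroot y.1).mp y.2).choose_spec.2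
    have h2 := ((hroot z.1).mp z.2).choose_spec.2
    have h3 := congrArg Subtype.val hyz
    simp only at h3
    rw [h3, h2] at h1
    exact Subtype.ext (hjinj h1.symm)
  · rintro ⟨b, hb, hσ⟩
    obtain ⟨y, hy⟩ := (hfix b hb).mp hσ
    have hy' : ((minpoly ℤ a).map (Int.castRingHom (ZMod p))).IsRoot y :=
      (hroot y).mpr ⟨b, hb, hy.symm⟩
    refine ⟨⟨y, hy'⟩, Subtype.ext ?_⟩
    have h1 := ((hroot y).mp hy').choose_spec
    refine hinj _ h1.1 _ hb ?_
    rw [← Ideal.Quotient.eq]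
    exact h1.2.trans hy

end frob

end Pool.Agent.H9.Dyn
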