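import Mathlib
import Pool.Agent.H9.Dyn.Galois

/-!
# Frobenius density theorem: group theoretic part
-/

open Polynomial NumberField

namespace Pool.Agent.H9.Dyn

variable {M : Type*} [Field M] [NumberField M] [IsGalois ℚ M]

/-- every subgroup is the stabilizer of an algebraic integer -/
theorem exists_stabilizer (H : Subgroup Gal(M/ℚ)) :
    ∃ a : 𝓞 M, MulAction.stabilizer Gal(M/ℚ) a = H := by
  have hp : ∀ K : IntermediateField ℚ M, ∃ α : K, IntermediateField.adjoin ℚ {(α : M)} = K := by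
    intro K
    have h0 : ∃ α : K, @IntermediateField.adjoin ℚ _ K _ (IntermediateField.algebra' K) {α} = ⊤ :=
      Field.exists_primitive_element ℚ K
    obtain ⟨α, hα⟩ := h0
    refine ⟨α, ?_⟩
    have := congrArg (IntermediateField.lift (F := K)) hα
    rw [IntermediateField.lift_top] at this
    rw [← IntermediateField.lift_adjoin_simple ℚ K α]
    exact this
  obtain ⟨α, hadj⟩ := hp (IntermediateField.fixedField H)
  obtain ⟨m, hm, hx⟩ := ((IsFractionRing.isAlgebraic_iff ℤ ℚ M).mpr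
    (Algebra.IsAlgebraic.isAlgebraic (R := ℚ) (α : M))).exists_integral_multiple
  have hm' : (m : M) ≠ 0 := by exact_mod_cast hm
  obtain ⟨a, ha⟩ : ∃ a : 𝓞 M, (a : M) = m • (α : M) := ⟨⟨_, hx⟩, rfl⟩
  refine ⟨a, Subgroup.ext fun σ => ?_⟩
  rw [MulAction.mem_stabilizer_iff]
  have h1 : σ • a = a ↔ σ (α : M) = α := by
    rw [RingOfIntegers.ext_iff]
    change σ (a : M) = a ↔ _
    rw [ha, zsmul_eq_mul, map_mul, map_intCast, mul_right_inj' hm']
  rw [h1]
  constructor
  · intro h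
    have h2 : IntermediateField.fixedField H ≤
        IntermediateField.fixedField (Subgroup.zpowers σ) := by
      rw [← hadj, IntermediateField.adjoin_simple_le_iff]
      rintro ⟨τ, hτ⟩
      obtain ⟨k, rfl⟩ := Subgroup.mem_zpowers_iff.mp hτ
      change (σ ^ k) (α : M) = α
      have h3 : σ ∈ MulAction.stabilizer Gal(M/ℚ) (α : M) := h
      exact (Subgroup.zpow_mem _ h3 k)
    have h3 := IntermediateField.fixingSubgroup_antitone h2
    rw [IntermediateField.fixingSubgroup_fixedField,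
      IntermediateField.fixingSubgroup_fixedField] at h3
    exact h3 (Subgroup.mem_zpowers σ)
  · intro h
    exact α.2 ⟨σ, h⟩

/-- `T φ p = ∑_g φ(g⁻¹ σ_p g)` -/
noncomputable def T (φ : Gal(M/ℚ) → ℝ) (p : Nat.Primes) : ℝ :=
  ∑ g : Gal(M/ℚ), φ (g⁻¹ * frob M p * g)

theorem bdd_T (φ : Gal(M/ℚ) → ℝ) : Bdd (T φ) := by
  refine ⟨∑ _g : Gal(M/ℚ), ∑ x : Gal(M/ℚ), |φ x|, fun p => ?_⟩
  refine (Finset.abs_sum_le_sum_abs _ _).trans (Finset.sum_le_sum fun g _ => ?_)
  exact Finset.single_le_sum (f := fun x => |φ x|) (fun _ _ => abs_nonneg _) (Finset.mem_univ _)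

/-- the number of fixed points on a conjugacy set -/
theorem card_conj_eq (a : 𝓞 M) (p : Nat.Primes) :
    Nat.card {g : Gal(M/ℚ) // g⁻¹ * frob M p * g ∈ MulAction.stabilizer Gal(M/ℚ) a} =
      Nat.card {b : 𝓞 M // b ∈ conjSet a ∧ frob M p • b = b} *
        Nat.card (MulAction.stabilizer Gal(M/ℚ) a) := by
  classical
  rw [← Nat.card_prod]
  have hc : ∀ b : {b : 𝓞 M // b ∈ conjSet a ∧ frob M p • b = b}, ∃ g : Gal(M/ℚ), g • a = b.1 :=
    fun b => b.2.1
  choose γ hγ using hc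
  have key : ∀ g : Gal(M/ℚ), g⁻¹ * frob M p * g ∈ MulAction.stabilizer Gal(M/ℚ) a ↔
      frob M p • (g • a) = g • a := by
    intro g
    rw [MulAction.mem_stabilizer_iff, mul_smul, mul_smul, inv_smul_eq_iff]
  refine Nat.card_congr
    { toFun := fun g => (⟨g.1 • a, ⟨g.1, rfl⟩, (key g.1).mp g.2⟩,
        ⟨(γ ⟨g.1 • a, ⟨g.1, rfl⟩, (key g.1).mp g.2⟩)⁻¹ * g.1, ?_⟩)
      invFun := fun q => ⟨γ q.1 * q.2.1, ?_⟩
      left_inv := ?_
      right_inv := ?_ }
  · rw [MulAction.mem_stabilizer_iff, mul_smul, inv_smul_eq_iff, hγ]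
  · rw [key, mul_smul, MulAction.mem_stabilizer_iff.mp q.2.2, hγ]
    exact q.1.2.2
  · intro g
    simp
  · rintro ⟨⟨b, hb⟩, ⟨h, hh⟩⟩
    have h1 : (γ ⟨b, hb⟩ * h) • a = b := by
      rw [mul_smul, MulAction.mem_stabilizer_iff.mp hh, hγ]
    ext
    · simp only
      rw [h1]
    · simp only
      congr 1
      simp only [h1, inv_mul_cancel_left]

end Pool.Agent.H9.Dyn
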