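import Mathlib
import Pool.Agent.H9.Dyn.Class
import Pool.Agent.H44.Dyn.NormP
import Pool.Agent.H54.Zeta.Main

/-!
# Frobenius density theorem
-/

open Polynomial NumberField

namespace Pool.Agent.H9.Dyn

variable {M : Type*} [Field M] [NumberField M] [IsGalois ℚ M]

open scoped Classical in
/-- the indicator function of a set -/
noncomputable def ind (S : Set Gal(M/ℚ)) (x : Gal(M/ℚ)) : ℝ := if x ∈ S then 1 else 0

theorem T_ind (S : Set Gal(M/ℚ)) (p : Nat.Primes) :
    T (ind S) p = Nat.card {g : Gal(M/ℚ) // g⁻¹ * frob M p * g ∈ S} := by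
  classical
  unfold T ind
  rw [Finset.sum_boole, Nat.card_eq_fintype_card, Fintype.card_subtype]

theorem dd_stabilizer (a : 𝓞 M) : DD (fun p => (Nat.card {b : 𝓞 M // b ∈ conjSet a ∧ frob M p • b = b} : ℝ)) 1 := by
  classical
  set K : IntermediateField ℚ M := IntermediateField.adjoin ℚ {(a : M)} with hK
  have hgen : IsIntegral ℤ (IntermediateField.AdjoinSimple.gen ℚ (a : M)) := by
    rw [← isIntegral_algebraMap_iff (B := M) (algebraMap K M).injective]
    exact RingOfIntegers.isIntegral_coe a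
  obtain ⟨θ, hθ⟩ : ∃ θ : 𝓞 K, (θ : K) = IntermediateField.AdjoinSimple.gen ℚ (a : M) :=
    ⟨⟨_, hgen⟩, rfl⟩
  have htop : IntermediateField.adjoin ℚ {(θ : K)} = ⊤ := by
    have h0 : @IntermediateField.adjoin ℚ _ K _ (IntermediateField.algebra' K)
        {IntermediateField.AdjoinSimple.gen ℚ (a : M)} = ⊤ := by
      apply IntermediateField.lift_injective K
      rw [IntermediateField.lift_top, IntermediateField.lift_adjoin_simple]
      rfl
    rw [hθ]
    exact h0
  have hmin : minpoly ℤ θ = minpoly ℤ a := by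
    rw [← minpoly.algebraMap_eq (FaithfulSMul.algebraMap_injective (𝓞 K) K) θ,
      ← minpoly.algebraMap_eq (FaithfulSMul.algebraMap_injective (𝓞 M) M) a,
      ← minpoly.algebraMap_eq (algebraMap K M).injective (algebraMap (𝓞 K) K θ)]
    congr 1
    change algebraMap K M (θ : K) = _
    rw [hθ]
    rfl
  have hJ1 := Pool.Agent.H54.Zeta.tendsto_normPrime K
  have hJ1b : Bdd (fun p : Nat.Primes =>
      (Nat.card {I : Ideal (𝓞 K) // Ideal.absNorm I = (p : ℕ)} : ℝ)) := by
    refine ⟨2 ^ Module.finrank ℤ (𝓞 K), fun p => ?_⟩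
    have h1 := Pool.Agent.H54.Zeta.cnt_prime_pow_le (K := K) p.2 1
    rw [pow_one, one_add_one_eq_two] at h1
    simp only [Nat.abs_cast]
    unfold Pool.Agent.H54.Zeta.cnt at h1
    exact_mod_cast h1
  refine DD.congr (u := fun p : Nat.Primes =>
      (Nat.card {I : Ideal (𝓞 K) // Ideal.absNorm I = (p : ℕ)} : ℝ)) hJ1 hJ1b ?_
  have hfin1 : {p : Nat.Primes | (p : ℕ) ∣ RingOfIntegers.exponent θ}.Finite := by
    have h1 : {p : Nat.Primes | (p : ℕ) ∣ RingOfIntegers.exponent θ} ⊆
        Subtype.val ⁻¹' ((RingOfIntegers.exponent θ).divisors : Set ℕ) := by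
      intro p hp
      simp only [Set.mem_preimage, Finset.mem_coe, Nat.mem_divisors]
      exact ⟨hp, exponent_ne_zero θ htop⟩
    exact (Set.Finite.preimage Subtype.val_injective.injOn (Finset.finite_toSet _)).subset h1
  refine (hfin1.union (finite_not_injOn _ (finite_conjSet a))).subset fun p hp => ?_
  by_contra h
  rw [Set.mem_union, not_or] at h
  simp only [Set.mem_ofPred_eq, not_not] at h hp
  apply hp
  haveI : Fact (p : ℕ).Prime := ⟨p.2⟩
  rw [card_norm_eq_card_roots θ p h.1, hmin, card_roots_eq a p h.2]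


theorem dd_T_subgroup (H : Subgroup Gal(M/ℚ)) : DD (T (ind (H : Set Gal(M/ℚ)))) (Nat.card H) := by
  obtain ⟨a, ha⟩ := exists_stabilizer H
  have h1 := (dd_stabilizer a).const_mul (Nat.card H : ℝ)
  rw [mul_one] at h1
  convert h1 using 1
  funext p
  rw [T_ind, ← ha]
  have h2 := card_conj_eq a p
  rw [mul_comm, ← Nat.cast_mul, ← h2]
  rfl

theorem T_sum {ι : Type*} (t : Finset ι) (φ : ι → Gal(M/ℚ) → ℝ) (p : Nat.Primes) :
    T (fun x => ∑ i ∈ t, φ i x) p = ∑ i ∈ t, T (φ i) p := by
  unfold T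
  rw [Finset.sum_comm]

theorem T_sub (φ ψ : Gal(M/ℚ) → ℝ) (p : Nat.Primes) :
    T (fun x => φ x - ψ x) p = T φ p - T ψ p := by
  unfold T
  rw [Finset.sum_sub_distrib]

/-- the set of generators of a subgroup -/
def gens (H : Subgroup Gal(M/ℚ)) : Set Gal(M/ℚ) := {x | Subgroup.zpowers x = H}

open scoped Classical in
theorem ind_eq_sum (H : Subgroup Gal(M/ℚ)) (x : Gal(M/ℚ)) :
    ind (H : Set Gal(M/ℚ)) x = ∑ H' ∈ (Finset.univ : Finset (Subgroup Gal(M/ℚ))) with H' ≤ H,
      ind (gens H') x := by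
  unfold ind gens
  simp only [Set.mem_ofPred_eq]
  rw [Finset.sum_ite_eq]
  simp

theorem sum_ind_subgroup (H : Subgroup Gal(M/ℚ)) :
    ∑ x, ind (H : Set Gal(M/ℚ)) x = Nat.card H := by
  classical
  unfold ind
  rw [Finset.sum_boole, Nat.card_eq_fintype_card, Fintype.card_subtype]
  rfl

theorem dd_gens (H : Subgroup Gal(M/ℚ)) : DD (T (ind (gens H))) (∑ x, ind (gens H) x) := by
  classical
  induction H using WellFoundedLT.induction with
  | ind H ih =>
    have h1 : ∀ x, ind (gens H) x = ind (H : Set Gal(M/ℚ)) x -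
        ∑ H' ∈ (Finset.univ : Finset (Subgroup Gal(M/ℚ))) with H' < H, ind (gens H') x := by
      intro x
      have h0 : ({H' ∈ (Finset.univ : Finset (Subgroup Gal(M/ℚ))) | H' ≤ H}).erase H =
          {H' ∈ (Finset.univ : Finset (Subgroup Gal(M/ℚ))) | H' < H} := by
        ext H'
        simp only [Finset.mem_filter, Finset.mem_univ, true_and, Finset.mem_erase]
        rw [lt_iff_le_and_ne]
        tauto
      have h00 := Finset.sum_erase_add
        ({H' ∈ (Finset.univ : Finset (Subgroup Gal(M/ℚ))) | H' ≤ H})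
        (fun H' => ind (gens H') x) (a := H) (by simp)
      rw [ind_eq_sum H x, ← h00, h0]
      ring
    have h2 : ind (gens H) = fun x => ind (H : Set Gal(M/ℚ)) x -
        ∑ H' ∈ (Finset.univ : Finset (Subgroup Gal(M/ℚ))) with H' < H, ind (gens H') x :=
      funext h1
    have h3 : T (ind (gens H)) = fun p => T (ind (H : Set Gal(M/ℚ))) p -
        ∑ H' ∈ (Finset.univ : Finset (Subgroup Gal(M/ℚ))) with H' < H, T (ind (gens H')) p := by
      funext p
      rw [h2, T_sub, T_sum]
    rw [h3]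
    have h4 : ∑ x, ind (gens H) x = (Nat.card H : ℝ) -
        ∑ H' ∈ (Finset.univ : Finset (Subgroup Gal(M/ℚ))) with H' < H, ∑ x, ind (gens H') x := by
      rw [Finset.sum_comm, ← sum_ind_subgroup, ← Finset.sum_sub_distrib]
      exact Finset.sum_congr rfl fun x _ => h1 x
    rw [h4]
    refine (dd_T_subgroup H).sub (DD.sum _ (fun H' hH' => ih H' ?_) fun H' _ => bdd_T _)
      (bdd_T _) (Bdd.sum _ fun H' _ => bdd_T _)
    simpa using hH'

/-- the statement for sets closed under generating the same cyclic group -/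
theorem dd_closed (D : Set Gal(M/ℚ))
    (hD : ∀ x ∈ D, ∀ y, Subgroup.zpowers y = Subgroup.zpowers x → y ∈ D) :
    DD (T (ind D)) (∑ x, ind D x) := by
  classical
  have h1 : ∀ x, ind D x = ∑ H ∈ (Finset.univ : Finset (Subgroup Gal(M/ℚ))) with gens H ⊆ D,
      ind (gens H) x := by
    intro x
    unfold ind gens
    simp only [Set.mem_ofPred_eq]
    rw [Finset.sum_ite_eq]
    refine if_congr ?_ rfl rfl
    simp only [Finset.mem_filter, Finset.mem_univ, true_and]
    constructor
    · intro hx y hy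
      exact hD x hx y hy
    · intro h
      exact h rfl
  have h2 : T (ind D) = fun p => ∑ H ∈ (Finset.univ : Finset (Subgroup Gal(M/ℚ))) with gens H ⊆ D,
      T (ind (gens H)) p := by
    funext p
    rw [← T_sum]
    congr 1
    exact funext h1
  have h3 : ∑ x, ind D x = ∑ H ∈ (Finset.univ : Finset (Subgroup Gal(M/ℚ))) with gens H ⊆ D,
      ∑ x, ind (gens H) x := by
    rw [Finset.sum_comm]
    exact Finset.sum_congr rfl fun x _ => h1 x
  rw [h2, h3]
  exact DD.sum _ (fun H _ => dd_gens H) fun H _ => bdd_T _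

/-- **Frobenius density theorem**: if `D` is invariant under conjugation and under passing to
another generator of the same cyclic group, then the primes whose Frobenius element lies in `D`
have Dirichlet density `|D| / |G|`. -/
theorem frobenius_density (D : Set Gal(M/ℚ))
    (hD : ∀ x ∈ D, ∀ y, Subgroup.zpowers y = Subgroup.zpowers x → y ∈ D)
    (hc : ∀ x ∈ D, ∀ g : Gal(M/ℚ), g⁻¹ * x * g ∈ D) :
    DD (fun p => ind D (frob M p)) (Nat.card D / Nat.card Gal(M/ℚ)) := by
  classical
  have h1 := (dd_closed D hD).const_mul (1 / (Nat.card Gal(M/ℚ) : ℝ))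
  have hG : (Nat.card Gal(M/ℚ) : ℝ) ≠ 0 := by
    exact_mod_cast Nat.card_pos.ne'
  convert h1 using 1
  · funext p
    have h2 : ∀ g : Gal(M/ℚ), ind D (g⁻¹ * frob M p * g) = ind D (frob M p) := by
      intro g
      unfold ind
      refine if_congr ⟨fun h => ?_, fun h => hc _ h g⟩ rfl rfl
      have := hc _ h g⁻¹
      simpa [mul_assoc] using this
    unfold T
    rw [Finset.sum_congr rfl fun g _ => h2 g, Finset.sum_const, nsmul_eq_mul, Finset.card_univ,
      ← Nat.card_eq_fintype_card]
    field_simp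
  · have h3 : ∑ x, ind D x = (Nat.card D : ℝ) := by
      unfold ind
      rw [Finset.sum_boole, Nat.card_eq_fintype_card, Fintype.card_subtype]
    rw [h3]
    ring

end Pool.Agent.H9.Dyn
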