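import Mathlib

/-!
# Combinatorial lemmas on geometric sums in `ZMod p`
-/

namespace Pool.Agent.H9.Dyn

/-- if all the geometric sums over proper divisors vanish mod `p`, then `N = r p^e` -/
theorem geom_comb (p : ℕ) [hp : Fact p.Prime] (a : ZMod p) (N : ℕ) (hN : 0 < N)
    (h : ∀ M, M ∣ N → M < N → ∑ j ∈ Finset.range (N / M), (a ^ M) ^ j = 0) :
    N = 1 ∨ (a ≠ 0 ∧ ∃ e, N = orderOf a * p ^ e) := by
  by_cases h1 : N = 1
  · exact Or.inl h1
  right
  have hsum := h 1 (one_dvd _) (by omega)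
  rw [Nat.div_one, pow_one] at hsum
  have haN : a ^ N = 1 := by
    have h2 := geom_sum_mul a N
    rw [hsum, zero_mul, eq_comm, sub_eq_zero] at h2
    exact h2
  have ha0 : a ≠ 0 := by
    rintro rfl
    rw [zero_pow hN.ne'] at haN
    exact zero_ne_one haN
  refine ⟨ha0, ?_⟩
  set r := orderOf a with hr
  have hrN : r ∣ N := orderOf_dvd_of_pow_eq_one haN
  have hr0 : 0 < r := Nat.pos_of_dvd_of_pos hrN hN
  obtain ⟨N1, hN1⟩ := hrN
  have hN10 : N1 ≠ 0 := by
    rintro rfl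
    rw [mul_zero] at hN1
    omega
  obtain ⟨e, u, hu, hN1'⟩ := Nat.exists_eq_pow_mul_and_not_dvd hN10 p hp.out.ne_one
  refine ⟨e, ?_⟩
  have hpe : 0 < p ^ e := pow_pos hp.out.pos e
  have hu0 : 0 < u := by
    rcases Nat.eq_zero_or_pos u with h0 | h0
    · exact absurd (h0 ▸ dvd_zero p) hu
    · exact h0
  by_contra hne
  have hu1 : u ≠ 1 := by
    rintro rfl
    apply hne
    rw [hN1, hN1', mul_one]
  have hlt : r * p ^ e < N := by
    rw [hN1, hN1', ← mul_assoc]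
    have : 0 < r * p ^ e := Nat.mul_pos hr0 hpe
    have hu2 : 2 ≤ u := by omega
    nlinarith
  have hdvd : r * p ^ e ∣ N := ⟨u, by rw [hN1, hN1', mul_assoc]⟩
  have h3 := h _ hdvd hlt
  have h4 : a ^ (r * p ^ e) = 1 := by rw [pow_mul, hr, pow_orderOf_eq_one, one_pow]
  have h5 : N / (r * p ^ e) = u := by
    rw [hN1, hN1', ← mul_assoc]
    exact Nat.mul_div_cancel_left _ (Nat.mul_pos hr0 hpe)
  rw [h4, h5] at h3
  simp only [one_pow, Finset.sum_const, Finset.card_range, nsmul_eq_mul, mul_one] at h3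
  rw [ZMod.natCast_eq_zero_iff] at h3
  exact hu h3

/-- combination of two such steps -/
theorem geom_comb_two (p : ℕ) [hp : Fact p.Prime] (a : ZMod p) (N t : ℕ) (hN : 0 < N) (ht : 0 < t)
    (h : ∀ M, M ∣ N → M < N → ∑ j ∈ Finset.range (N / M), (a ^ M) ^ j = 0)
    (h' : ∀ M, M ∣ t → M < t → ∑ j ∈ Finset.range (t / M), ((a ^ N) ^ M) ^ j = 0) :
    N * t = 1 ∨ (a ≠ 0 ∧ ∃ e, N * t = orderOf a * p ^ e) := by
  rcases geom_comb p a N hN h with h1 | ⟨h1, e, h2⟩
  · subst h1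
    rw [pow_one] at h'
    rw [one_mul]
    exact geom_comb p a t ht h'
  · right
    refine ⟨h1, ?_⟩
    have h3 : a ^ N = 1 := by
      rw [h2, pow_mul, pow_orderOf_eq_one, one_pow]
    rw [h3] at h'
    rcases geom_comb p 1 t ht h' with h4 | ⟨-, e', h4⟩
    · exact ⟨e, by rw [h4, mul_one, h2]⟩
    · refine ⟨e + e', ?_⟩
      rw [h4, h2, orderOf_one, one_mul, pow_add, mul_assoc]

end Pool.Agent.H9.Dyn
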