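import Mathlib
import Pool.Agent.H9.Dyn.Chebo

/-!
# Primes for which a polynomial has a `p`-adic root
-/

open Polynomial NumberField Filter Topology

namespace Pool.Agent.H9.Dyn

variable {M : Type*} [Field M] [NumberField M] [IsGalois ℚ M]

theorem separable_mod (a : 𝓞 M) (p : Nat.Primes)
    (hinj : ∀ b ∈ conjSet a, ∀ b' ∈ conjSet a, b - b' ∈ frobIdeal M p → b = b') :
    ((minpoly ℤ a).map (Int.castRingHom (ZMod p))).Separable := by
  classical
  have : Fact (p : ℕ).Prime := ⟨p.2⟩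
  let _ : Field (𝓞 M ⧸ frobIdeal M p) := Ideal.Quotient.field (frobIdeal M p)
  have : CharP (𝓞 M ⧸ frobIdeal M p) p := ⟨fun x => by
    have h1 := intCast_mem_frobIdeal (M := M) p (x : ℤ)
    rw [Int.natCast_dvd_natCast] at h1
    rw [← h1]
    have h2 : ((x : ℕ) : 𝓞 M ⧸ frobIdeal M p) =
      Ideal.Quotient.mk (frobIdeal M p) ((x : ℤ) : 𝓞 M) := by simp
    rw [h2, Ideal.Quotient.eq_zero_iff_mem]⟩
  set φ : 𝓞 M →+* 𝓞 M ⧸ frobIdeal M p := Ideal.Quotient.mk _ with hφ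
  set j : ZMod p →+* 𝓞 M ⧸ frobIdeal M p := ZMod.castHom (dvd_refl _) _ with hj
  have h2 : (((minpoly ℤ a).map (Int.castRingHom (ZMod p))).map j) =
      ∏ b ∈ (finite_conjSet a).toFinset, (X - C (φ b)) := by
    have h3 : (((minpoly ℤ a).map (Int.castRingHom (ZMod p))).map j) =
        ((minpoly ℤ a).map (algebraMap ℤ (𝓞 M))).map φ := by
      rw [Polynomial.map_map, Polynomial.map_map]
      congr 1
      exact RingHom.ext_int _ _
    rw [h3, map_minpoly, Polynomial.map_prod]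
    simp
  rw [← Polynomial.separable_map j, h2]
  rw [Polynomial.separable_prod_X_sub_C_iff']
  intro x hx y hy hxy
  rw [Set.Finite.mem_toFinset] at hx hy
  exact hinj x hx y hy (Ideal.Quotient.eq.mp hxy)

theorem exists_root_iff (a : 𝓞 M) (p : Nat.Primes)
    (hinj : ∀ b ∈ conjSet a, ∀ b' ∈ conjSet a, b - b' ∈ frobIdeal M p → b = b') :
    (∃ y : ZMod p, ((minpoly ℤ a).map (Int.castRingHom (ZMod p))).IsRoot y) ↔
      ∃ b ∈ conjSet a, frob M p • b = b := by
  have : Fact (p : ℕ).Prime := ⟨p.2⟩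
  have h1 := card_roots_eq a p hinj
  have h2 : Finite {b : 𝓞 M // b ∈ conjSet a ∧ frob M p • b = b} :=
    ((finite_conjSet a).subset fun b hb => hb.1 : {b | b ∈ conjSet a ∧ frob M p • b = b}.Finite)
  have h3 : Nonempty {y : ZMod p // ((minpoly ℤ a).map (Int.castRingHom (ZMod p))).IsRoot y} ↔
      Nonempty {b : 𝓞 M // b ∈ conjSet a ∧ frob M p • b = b} := by
    rw [← Finite.card_pos_iff, ← Finite.card_pos_iff, h1]
  constructor
  · rintro ⟨y, hy⟩
    obtain ⟨b, hb⟩ := h3.mp ⟨⟨y, hy⟩⟩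
    exact ⟨b, hb⟩
  · rintro ⟨b, hb⟩
    obtain ⟨y, hy⟩ := h3.mpr ⟨⟨b, hb⟩⟩
    exact ⟨y, hy⟩

theorem toZMod_aeval (p : ℕ) [Fact p.Prime] (h : ℤ[X]) (z : ℤ_[p]) :
    PadicInt.toZMod (aeval z h) = (h.map (Int.castRingHom (ZMod p))).eval (PadicInt.toZMod z) := by
  rw [eval_map, aeval_def, hom_eval₂]
  congr 1
  exact RingHom.ext_int _ _

theorem norm_lt_one_iff_toZMod (p : ℕ) [Fact p.Prime] (z : ℤ_[p]) :
    ‖z‖ < 1 ↔ PadicInt.toZMod z = 0 := by
  rw [← RingHom.mem_ker, PadicInt.ker_toZMod, IsLocalRing.mem_maximalIdeal, PadicInt.mem_nonunits]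

/-- a monic integral polynomial, separable mod `p`, has a root in `ℚ_p` iff it has one mod `p` -/
theorem padic_root_iff (p : ℕ) [hp : Fact p.Prime] (h : ℤ[X]) (hm : h.Monic)
    (hs : (h.map (Int.castRingHom (ZMod p))).Separable) :
    (∃ x : ℚ_[p], aeval x h = 0) ↔ ∃ y : ZMod p, (h.map (Int.castRingHom (ZMod p))).IsRoot y := by
  constructor
  · rintro ⟨x, hx⟩
    have hint : IsIntegral ℤ_[p] x := by
      have h1 : IsIntegral ℤ x := ⟨h, hm, hx⟩
      exact h1.tower_top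
    obtain ⟨z, rfl⟩ := (IsIntegrallyClosed.isIntegral_iff (R := ℤ_[p]) (K := ℚ_[p])).mp hint
    refine ⟨PadicInt.toZMod z, ?_⟩
    have h1 : aeval z h = 0 := by
      apply FaithfulSMul.algebraMap_injective ℤ_[p] ℚ_[p]
      rw [map_zero, ← hx, aeval_algebraMap_apply]
    rw [IsRoot.def, ← toZMod_aeval, h1, map_zero]
  · rintro ⟨y, hy⟩
    obtain ⟨z, rfl⟩ := ZMod.ringHom_surjective (PadicInt.toZMod (p := p)) y
    have h1 : ‖aeval z h‖ < 1 := by
      rw [norm_lt_one_iff_toZMod, toZMod_aeval]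
      exact hy
    have h2 : ‖aeval z (derivative h)‖ = 1 := by
      refine le_antisymm (PadicInt.norm_le_one _) (not_lt.mp fun h3 => ?_)
      rw [norm_lt_one_iff_toZMod, toZMod_aeval, ← derivative_map] at h3
      obtain ⟨u, v, huv⟩ := hs
      have h4 := congrArg (eval (PadicInt.toZMod z)) huv
      rw [eval_add, eval_mul, eval_mul, h3, hy.eq_zero] at h4
      simp at h4
    obtain ⟨w, hw, -⟩ := hensels_lemma (F := h) (a := z) (by rw [h2]; simpa using h1)
    refine ⟨algebraMap ℤ_[p] ℚ_[p] w, ?_⟩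
    rw [aeval_algebraMap_apply, hw, map_zero]

/-- `F` has a root in `ℚ_p` -/
def PadicRoot (F : ℚ[X]) (p : Nat.Primes) : Prop :=
  ∃ x : @Padic (p : ℕ) ⟨p.2⟩, aeval x F = 0

theorem exists_multiple (r : M) : ∃ (a : 𝓞 M) (m : ℚ), m ≠ 0 ∧ (a : M) = (m : M) * r := by
  obtain ⟨m, hm, hx⟩ := ((IsFractionRing.isAlgebraic_iff ℤ ℚ M).mpr
    (Algebra.IsAlgebraic.isAlgebraic (R := ℚ) r)).exists_integral_multiple
  refine ⟨⟨_, hx⟩, m, by exact_mod_cast hm, ?_⟩
  change m • r = _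
  rw [zsmul_eq_mul]
  simp

omit [IsGalois ℚ M] in
theorem map_minpoly_rat (a : 𝓞 M) : minpoly ℚ (a : M) = (minpoly ℤ a).map (algebraMap ℤ ℚ) :=
  minpoly.isIntegrallyClosed_eq_field_fractions ℚ M (RingOfIntegers.isIntegral a)

theorem finite_not_iff (F : ℚ[X]) (hF : F ≠ 0) (hs : (F.map (algebraMap ℚ M)).Splits) :
    {p : Nat.Primes | ¬ (PadicRoot F p ↔ ∃ r : M, aeval r F = 0 ∧ frob M p r = r)}.Finite := by
  classical
  choose a m hm ha using fun r : M => exists_multiple r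
  have hbad : ∀ r : M, {p : Nat.Primes | ¬ ∀ b ∈ conjSet (a r), ∀ b' ∈ conjSet (a r),
      b - b' ∈ frobIdeal M p → b = b'}.Finite :=
    fun r => finite_not_injOn _ (finite_conjSet (a r))
  have hfin : (⋃ r ∈ (F.aroots M).toFinset, {p : Nat.Primes | ¬ ∀ b ∈ conjSet (a r),
      ∀ b' ∈ conjSet (a r), b - b' ∈ frobIdeal M p → b = b'}).Finite :=
    Set.Finite.biUnion (Finset.finite_toSet _) fun r _ => hbad r
  refine hfin.subset fun p hp => ?_
  by_contra hcon
  have hgood : ∀ r : M, aeval r F = 0 → ∀ b ∈ conjSet (a r),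
      ∀ b' ∈ conjSet (a r), b - b' ∈ frobIdeal M p → b = b' := by
    intro r hr
    by_contra h
    apply hcon
    simp only [Set.mem_iUnion]
    exact ⟨r, by simpa [hF] using hr, h⟩
  have : Fact (p : ℕ).Prime := ⟨p.2⟩
  have hiff : ∀ r : M, aeval r F = 0 → ((∃ x : ℚ_[(p : ℕ)], aeval x (minpoly ℤ (a r)) = 0) ↔
      ∃ b ∈ conjSet (a r), frob M p • b = b) := fun r hr =>
    (padic_root_iff p (minpoly ℤ (a r)) (minpoly.monic (RingOfIntegers.isIntegral _))
      (separable_mod (a r) p (hgood r hr))).trans (exists_root_iff (a r) p (hgood r hr))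
  apply hp
  constructor
  · rintro ⟨x, hx⟩

    have hx' : aeval (x : ℚ_[(p : ℕ)]) F = 0 := hx
    have hxint : IsIntegral ℚ (x : ℚ_[(p : ℕ)]) :=
      IsAlgebraic.isIntegral ⟨F, hF, hx'⟩
    have hq : minpoly ℚ (x : ℚ_[(p : ℕ)]) ∣ F := minpoly.dvd ℚ _ hx'
    have hqs : ((minpoly ℚ (x : ℚ_[(p : ℕ)])).map (algebraMap ℚ M)).Splits :=
      hs.of_dvd (Polynomial.map_ne_zero hF) (Polynomial.map_dvd _ hq)
    obtain ⟨r, hr⟩ := hqs.exists_eval_eq_zero (by
      rw [Polynomial.degree_map]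
      exact (minpoly.degree_pos hxint).ne')
    rw [eval_map_algebraMap] at hr
    have hrF : aeval r F = 0 := by
      obtain ⟨G, hG⟩ := hq
      rw [hG, map_mul, hr, zero_mul]
    have hmin : minpoly ℚ r = minpoly ℚ (x : ℚ_[(p : ℕ)]) :=
      (minpoly.eq_of_irreducible_of_monic (minpoly.irreducible hxint) hr
        (minpoly.monic hxint)).symm
    have h1 : aeval ((m r : ℚ_[(p : ℕ)]) * x) (minpoly ℤ (a r)) = 0 := by
      have h2 : aeval r (((minpoly ℤ (a r)).map (algebraMap ℤ ℚ)).comp (C (m r) * X)) = 0 := by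
        rw [aeval_comp, ← map_minpoly_rat]
        simp only [map_mul, aeval_C, aeval_X, eq_ratCast]
        rw [← ha, minpoly.aeval]
      obtain ⟨G, hG⟩ := minpoly.dvd ℚ r h2
      have h3 : aeval (x : ℚ_[(p : ℕ)])
          (((minpoly ℤ (a r)).map (algebraMap ℤ ℚ)).comp (C (m r) * X)) = 0 := by
        rw [hG, hmin, map_mul, minpoly.aeval, zero_mul]
      rw [aeval_comp, aeval_map_algebraMap] at h3
      simpa using h3
    obtain ⟨b, ⟨σ, rfl⟩, hb⟩ := (hiff r hrF).mp ⟨_, h1⟩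
    refine ⟨σ r, ?_, ?_⟩
    · have h2 := Polynomial.aeval_algHom_apply (σ : M →ₐ[ℚ] M) r F
      rw [hrF, map_zero] at h2
      exact h2
    · have h2 := congrArg (fun z : 𝓞 M => (z : M)) hb
      change frob M p (σ (a r : M)) = σ (a r : M) at h2
      rw [ha, map_mul, map_mul, map_ratCast, map_ratCast] at h2
      exact mul_left_cancel₀ (by exact_mod_cast hm r) h2
  · rintro ⟨r, hrF, hr⟩
    have h1 : frob M p • a r = a r := by
      rw [RingOfIntegers.ext_iff]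
      change frob M p (a r : M) = _
      rw [ha, map_mul, hr, map_ratCast]
    obtain ⟨x, hx⟩ := (hiff r hrF).mpr ⟨a r, MulAction.mem_orbit_self _, h1⟩
    refine ⟨((m r)⁻¹ : ℚ) * x, ?_⟩
    have h2 : aeval (a r : M) (F.comp (C (m r)⁻¹ * X)) = 0 := by
      rw [aeval_comp]
      simp only [map_mul, aeval_C, aeval_X, eq_ratCast]
      rw [ha, Rat.cast_inv, inv_mul_cancel_left₀ (by exact_mod_cast hm r), hrF]
    obtain ⟨G, hG⟩ := minpoly.dvd ℚ _ h2
    have h3 : aeval (x : ℚ_[(p : ℕ)]) (F.comp (C (m r)⁻¹ * X)) = 0 := by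
      rw [hG, map_mul, map_minpoly_rat, aeval_map_algebraMap, hx, zero_mul]
    rw [aeval_comp] at h3
    simpa using h3

end Pool.Agent.H9.Dyn
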