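import Mathlib
import Pool.Agent.H9.Dyn.Roots

/-!
# Dirichlet density of the set of primes for which a polynomial has a `p`-adic root
-/

open Polynomial NumberField Filter Topology

namespace Pool.Agent.H9.Dyn

/-- The set `S_F` of the primes `p` such that `F` has a root in the `p`-adic field `ℚ_p`. -/
def rootPrimes (F : ℚ[X]) : Set ℕ :=
  {p : ℕ | ∃ hp : p.Prime, ∃ x : @Padic p ⟨hp⟩, aeval x F = 0}

/-- The set `S` of primes has Dirichlet density `δ`:
`(∑_{p ∈ S} p^{-s}) / (-log (s - 1)) → δ` as `s → 1+`. -/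
def HasDirichletDensity (S : Set ℕ) (δ : ℝ) : Prop :=
  Tendsto (fun s : ℝ => (∑' p : S, ((p : ℕ) : ℝ) ^ (-s)) / (-Real.log (s - 1))) (𝓝[>] 1) (𝓝 δ)

open scoped Classical in
theorem hasDirichletDensity_of_DD (F : ℚ[X]) (δ : ℝ)
    (h : DD (fun p => if PadicRoot F p then 1 else 0) δ) :
    HasDirichletDensity (rootPrimes F) δ := by
  unfold HasDirichletDensity
  unfold DD pSum at h
  convert h using 3 with s
  set f : ℕ → ℝ := fun p => (p : ℝ) ^ (-s) with hf
  have h1 : ∑' p : rootPrimes F, ((p : ℕ) : ℝ) ^ (-s) = ∑' n : ℕ, (rootPrimes F).indicator f n :=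
    tsum_subtype (rootPrimes F) f
  have h2 : ∑' p : Nat.Primes, (if PadicRoot F p then (1 : ℝ) else 0) * ((p : ℕ) : ℝ) ^ (-s) =
      ∑' p : {n : ℕ | n.Prime}, (rootPrimes F).indicator f p := by
    apply tsum_congr
    rintro ⟨p, hp⟩
    have h3 : PadicRoot F ⟨p, hp⟩ ↔ p ∈ rootPrimes F := by
      constructor
      · rintro ⟨x, hx⟩
        exact ⟨hp, x, hx⟩
      · rintro ⟨hp', x, hx⟩
        exact ⟨x, hx⟩
    by_cases h4 : PadicRoot F ⟨p, hp⟩
    · have h5 := h3.mp h4
      simp [h4, h5, hf]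
    · have h5 : p ∉ rootPrimes F := fun h => h4 (h3.mpr h)
      rw [if_neg h4, zero_mul, Set.indicator_of_notMem h5]
  rw [h1, h2, tsum_subtype {n : ℕ | n.Prime} ((rootPrimes F).indicator f)]
  apply tsum_congr
  intro n
  by_cases hn : n.Prime
  · rw [Set.indicator_of_mem (s := {n : ℕ | n.Prime}) hn]
  · rw [Set.indicator_of_notMem (s := {n : ℕ | n.Prime}) hn, Set.indicator_of_notMem]
    rintro ⟨hp, -⟩
    exact hn hp

/-- The Dirichlet density of `S_F` is the proportion of elements of the Galois group of a finite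
Galois extension `M/ℚ` splitting `F` that fix a root of `F`. -/
theorem density_rootPrimes (M : Type*) [Field M] [NumberField M] [IsGalois ℚ M] (F : ℚ[X])
    (hF : F ≠ 0) (hs : (F.map (algebraMap ℚ M)).Splits) :
    HasDirichletDensity (rootPrimes F)
      (Nat.card {σ : Gal(M/ℚ) | ∃ r : M, aeval r F = 0 ∧ σ r = r} / Nat.card Gal(M/ℚ)) := by
  classical
  apply hasDirichletDensity_of_DD
  have h1 := frobenius_density (M := M) {σ : Gal(M/ℚ) | ∃ r : M, aeval r F = 0 ∧ σ r = r} ?_ ?_
  · refine h1.congr ?_ ?_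
    · refine ⟨1, fun p => ?_⟩
      unfold ind
      beta_reduce
      split_ifs <;> simp
    · refine (finite_not_iff F hF hs).subset fun p hp => ?_
      intro h2
      apply hp
      unfold ind
      by_cases h3 : PadicRoot F p
      · have h4 := h2.mp h3
        simp only [Set.mem_ofPred_eq]
        rw [if_pos h4, if_pos h3]
      · have h4 := fun h => h3 (h2.mpr h)
        simp only [Set.mem_ofPred_eq]
        rw [if_neg h4, if_neg h3]
  · rintro x ⟨r, hr, hx⟩ y hy
    refine ⟨r, hr, ?_⟩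
    have h2 : y ∈ Subgroup.zpowers x := by
      rw [← hy]; exact Subgroup.mem_zpowers y
    have h3 : x ∈ MulAction.stabilizer Gal(M/ℚ) r := hx
    exact (Subgroup.zpowers_le.mpr h3) h2
  · rintro x ⟨r, hr, hx⟩ g
    refine ⟨g⁻¹ r, ?_, ?_⟩
    · have h2 := Polynomial.aeval_algHom_apply (g⁻¹ : Gal(M/ℚ)).toAlgHom r F
      rw [hr, map_zero] at h2
      exact h2
    · change g⁻¹ (x (g (g⁻¹ r))) = g⁻¹ r
      have h3 : g (g⁻¹ r) = r := by
        change (g * g⁻¹) r = r
        rw [mul_inv_cancel]; rfl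
      rw [h3, hx]

/-- an automorphism of a big field moving all the roots of `F` gives a density `< 1` -/
theorem exists_density_lt_one (C : Type*) [Field C] [Algebra ℚ C] [IsAlgClosed C] (F : ℚ[X])
    (hF : F ≠ 0) (τ : C ≃ₐ[ℚ] C) (hτ : ∀ x : C, aeval x F = 0 → τ x ≠ x) :
    ∃ δ : ℝ, δ < 1 ∧ HasDirichletDensity (rootPrimes F) δ := by
  have : NumberField F.SplittingField :=
    { to_charZero := charZero_of_injective_algebraMap (algebraMap ℚ F.SplittingField).injective
      to_finiteDimensional := inferInstance }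
  have hN : Normal ℚ F.SplittingField := SplittingField.instNormal F
  have : IsGalois ℚ F.SplittingField := {}
  have hsplits : (F.map (algebraMap ℚ F.SplittingField)).Splits := SplittingField.splits F
  let ι : F.SplittingField →ₐ[ℚ] C := IsAlgClosed.lift
  let _ : Algebra F.SplittingField C := ι.toRingHom.toAlgebra
  have : IsScalarTower ℚ F.SplittingField C := IsScalarTower.of_algebraMap_eq fun x =>
    (ι.commutes x).symm
  set σ : Gal(F.SplittingField/ℚ) := τ.restrictNormal F.SplittingField with hσ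
  have hmove : ∀ r : F.SplittingField, aeval r F = 0 → σ r ≠ r := by
    intro r hr h
    apply hτ (algebraMap F.SplittingField C r)
    · rw [aeval_algebraMap_apply, hr, map_zero]
    · rw [← AlgEquiv.restrictNormal_commutes, ← hσ, h]
  refine ⟨_, ?_, density_rootPrimes F.SplittingField F hF hsplits⟩
  have hpos : (0 : ℝ) < Nat.card Gal(F.SplittingField/ℚ) := by exact_mod_cast Nat.card_pos
  rw [div_lt_one hpos, Nat.cast_lt]
  have h1 : {σ : Gal(F.SplittingField/ℚ) | ∃ r : F.SplittingField, aeval r F = 0 ∧ σ r = r} ⊂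
      Set.univ := by
    rw [Set.ssubset_univ_iff]
    intro h
    have h2 : σ ∈ {σ : Gal(F.SplittingField/ℚ) | ∃ r : F.SplittingField, aeval r F = 0 ∧ σ r = r} :=
      h ▸ Set.mem_univ σ
    obtain ⟨r, hr, hr'⟩ := h2
    exact hmove r hr hr'
  have h2 := Set.ncard_lt_ncard h1 Set.finite_univ
  rw [Set.ncard_univ] at h2
  exact h2

end Pool.Agent.H9.Dyn
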