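import Mathlib
import Pool.Agent.H9.Dyn.Density
import Pool.Agent.H52.DynRoot

/-!
# Reduction of the density question to a derangement of the periodic points of `x^2 + c`
-/

open Polynomial NumberField Filter Topology

namespace Pool.Agent.H9.Dyn

/-- `Φ` is the `n`-th dynatomic polynomial of `f`:
`Φ = ∏_{d ∣ n} (f^d(x) - x)^{μ(n/d)}` in the field of rational functions. -/
def IsDynatomic (f : ℚ[X]) (n : ℕ) (Φ : ℚ[X]) : Prop :=
  algebraMap ℚ[X] (RatFunc ℚ) Φ =
    ∏ d ∈ n.divisors, (algebraMap ℚ[X] (RatFunc ℚ) ((f.comp)^[d] X - X)) ^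
      (ArithmeticFunction.moebius (n / d))

/-- `f` is linearly conjugate over `ℚ` to `x^2 + c` -/
def LinConj (f : ℚ[X]) (c : ℚ) : Prop :=
  ∃ l : ℚ[X], l.natDegree = 1 ∧ f.comp l = l.comp (X ^ 2 + C c)

theorem prod_zpow_moebius {L : Type*} [Field L] (n : ℕ) (a : ℕ → L) (h : ∀ d ∈ n.divisors, a d ≠ 0) :
    (∏ d ∈ n.divisors, a d ^ (ArithmeticFunction.moebius (n / d))) *
      ∏ d ∈ n.divisors with ArithmeticFunction.moebius (n / d) = -1, a d =
      ∏ d ∈ n.divisors with ArithmeticFunction.moebius (n / d) = 1, a d := by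
  classical
  rw [Finset.prod_filter, Finset.prod_filter, ← Finset.prod_mul_distrib]
  apply Finset.prod_congr rfl
  intro d hd
  rcases ArithmeticFunction.moebius_eq_or (n / d) with h1 | h1 | h1
  · simp [h1]
  · simp [h1]
  · simp [h1, h d hd]

theorem iterate_comp_eq_it (f : ℚ[X]) (d : ℕ) : (f.comp)^[d] X = DynRoot.it f d := rfl

theorem IsDynatomic.poly {f : ℚ[X]} {n : ℕ} {Φ : ℚ[X]} (hf : 2 ≤ f.natDegree)
    (h : IsDynatomic f n Φ) :
    Φ * ∏ d ∈ n.divisors with ArithmeticFunction.moebius (n / d) = -1, ((f.comp)^[d] X - X) =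
      ∏ d ∈ n.divisors with ArithmeticFunction.moebius (n / d) = 1, ((f.comp)^[d] X - X) := by
  apply RatFunc.algebraMap_injective ℚ
  rw [map_mul, map_prod, map_prod, h]
  apply prod_zpow_moebius
  intro d hd
  rw [Ne, map_eq_zero_iff _ (RatFunc.algebraMap_injective ℚ)]
  exact DynRoot.it_sub_ne_zero f hf (Nat.pos_of_mem_divisors hd)

theorem IsDynatomic.ne_zero {f : ℚ[X]} {n : ℕ} {Φ : ℚ[X]} (hf : 2 ≤ f.natDegree)
    (h : IsDynatomic f n Φ) : Φ ≠ 0 := by
  rintro rfl
  have h1 := h.poly hf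
  rw [zero_mul, eq_comm, Finset.prod_eq_zero_iff] at h1
  obtain ⟨d, hd, h2⟩ := h1
  exact DynRoot.it_sub_ne_zero f hf (Nat.pos_of_mem_divisors (Finset.mem_of_mem_filter d hd)) h2

theorem map_it {K L : Type*} [Field K] [Field L] (φ : K →+* L) (f : K[X]) (d : ℕ) :
    (DynRoot.it f d).map φ = DynRoot.it (f.map φ) d := by
  induction d with
  | zero => simp [DynRoot.it_zero]
  | succ d ih => rw [DynRoot.it_succ, Polynomial.map_comp, ih, DynRoot.it_succ]

/-- the map `y ↦ y^2 + c` -/
def q {K : Type*} [Field K] (c : K) (y : K) : K := y ^ 2 + c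

/-- `y` behaves like a root of the `n`-th dynatomic polynomial of `x^2 + c` -/
def DynPt {K : Type*} [Field K] (c : K) (n : ℕ) (y : K) : Prop :=
  Function.IsPeriodicPt (q c) n y ∧
    (Function.minimalPeriod (q c) y = n ∨
      IsPrimitiveRoot (∏ i ∈ Finset.range (Function.minimalPeriod (q c) y), 2 * (q c)^[i] y)
        (n / Function.minimalPeriod (q c) y))

theorem exists_density_of_move (C : Type*) [Field C] [Algebra ℚ C] [IsAlgClosed C] (f : ℚ[X])
    (c : ℚ) (hc : LinConj f c) (n : ℕ) (hn : 0 < n) (Φ : ℚ[X]) (hΦ : IsDynatomic f n Φ)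
    (τ : C ≃ₐ[ℚ] C) (hτ : ∀ y : C, DynPt (algebraMap ℚ C c) n y → τ y ≠ y) :
    ∃ δ : ℝ, δ < 1 ∧ HasDirichletDensity (rootPrimes Φ) δ := by
  have hchar : CharZero C := charZero_of_injective_algebraMap (algebraMap ℚ C).injective
  obtain ⟨l, hl, hconj⟩ := hc
  have hf : f.natDegree = 2 := by
    have h1 := congrArg natDegree hconj
    rw [natDegree_comp, natDegree_comp, hl, natDegree_X_pow_add_C] at h1
    omega
  have hf' : 2 ≤ f.natDegree := hf.ge
  refine exists_density_lt_one C Φ (hΦ.ne_zero hf') τ fun x hx => ?_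
  set φ := algebraMap ℚ C with hφ
  have hpoly := congrArg (Polynomial.map φ) (hΦ.poly hf')
  have hmapd : ∀ d, (((f.comp)^[d] X - X : ℚ[X])).map φ = ((f.map φ).comp)^[d] X - X := by
    intro d
    rw [Polynomial.map_sub, map_X, iterate_comp_eq_it, map_it]
    rfl
  simp only [Polynomial.map_mul, Polynomial.map_prod, hmapd] at hpoly
  have hdeg : 2 ≤ (f.map φ).natDegree := by rw [natDegree_map]; exact hf'
  have hroot : (Φ.map φ).IsRoot x := by rw [IsRoot.def, eval_map_algebraMap]; exact hx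
  obtain ⟨h1, h2⟩ := dynatomic_root (f.map φ) hdeg n hn (Φ.map φ) hpoly x hroot
  -- the conjugation
  obtain ⟨α, β, hα, rfl⟩ : ∃ α β : ℚ, α ≠ 0 ∧ l = Polynomial.C α * X + Polynomial.C β := by
    refine ⟨l.coeff 1, l.coeff 0, ?_, Polynomial.eq_X_add_C_of_natDegree_le_one hl.le⟩
    rw [← hl]
    exact leadingCoeff_ne_zero.mpr (ne_zero_of_natDegree_gt (n := 0) (by omega))
  have hα' : φ α ≠ 0 := (_root_.map_ne_zero φ).mpr hα
  have hder : (derivative f).comp (Polynomial.C α * X + Polynomial.C β) = 2 * X := by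
    have h3 := congrArg derivative hconj
    rw [derivative_comp, derivative_comp] at h3
    simp only [derivative_add, derivative_mul, derivative_C, zero_mul, derivative_X, mul_one,
      zero_add, add_zero, derivative_X_pow, C_comp, Nat.cast_ofNat, map_ofNat] at h3
    have h4 : (Polynomial.C α : ℚ[X]) ≠ 0 := by rwa [Ne, C_eq_zero]
    apply mul_left_cancel₀ h4
    rw [h3]
    ring
  set L : C → C := fun y => φ α * y + φ β with hL
  have hLinj : Function.Injective L := by
    intro y z h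
    simp only [hL, add_left_inj, mul_right_inj' hα'] at h
    exact h
  set g : C → C := fun y => (f.map φ).eval y with hg
  have hgL : ∀ y, g (L y) = L (q (φ c) y) := by
    intro y
    have h3 := congrArg (fun P : ℚ[X] => aeval y P) hconj
    simp only [aeval_comp, map_add, map_mul, aeval_C, aeval_X, map_pow] at h3
    rw [hg]
    simp only [eval_map_algebraMap, hφ]
    exact h3
  have hsem : ∀ (i : ℕ) (y : C), g^[i] (L y) = L ((q (φ c))^[i] y) := by
    intro i y
    exact (Function.Semiconj.iterate_right (f := L) (ga := q (φ c)) (gb := g)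
      (fun y => (hgL y).symm) i y).symm
  obtain ⟨y, rfl⟩ : ∃ y, L y = x := ⟨(x - φ β) / φ α, by simp only [hL]; field_simp; ring⟩
  have hper : ∀ m, Function.IsPeriodicPt g m (L y) ↔ Function.IsPeriodicPt (q (φ c)) m y := by
    intro m
    change g^[m] (L y) = L y ↔ (q (φ c))^[m] y = y
    rw [hsem, hLinj.eq_iff]
  have hmin : Function.minimalPeriod g (L y) = Function.minimalPeriod (q (φ c)) y :=
    Function.minimalPeriod_eq_minimalPeriod_iff.mpr hper
  have hd2 : ∀ i, (f.map φ).derivative.eval (g^[i] (L y)) = 2 * (q (φ c))^[i] y := by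
    intro i
    rw [hsem, derivative_map, eval_map_algebraMap]
    have h3 := congrArg (fun P : ℚ[X] => aeval ((q (φ c))^[i] y) P) hder
    simp only [aeval_comp, map_add, map_mul, aeval_C, aeval_X, map_ofNat] at h3
    exact h3
  have hdyn : DynPt (φ c) n y := by
    refine ⟨(hper n).mp h1, ?_⟩
    rw [← hmin]
    simp_rw [← hd2]
    exact h2
  intro h3
  apply hτ y hdyn
  simp only [hL, map_add, map_mul] at h3
  have h4 : ∀ r : ℚ, τ (φ r) = φ r := fun r => τ.commutes r
  rw [h4, h4, add_left_inj, mul_right_inj' hα'] at h3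
  exact h3

end Pool.Agent.H9.Dyn
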