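import Mathlib
import Pool.Agent.H9.Dyn.Comb
import Pool.Agent.H9.Dyn.Reduce
import Pool.Agent.H95.Dyn.Frob

/-!
# Local analysis at a prime of good reduction
-/

open Polynomial

namespace Pool.Agent.H9.Dyn

section red

variable {p : ℕ} [hp : Fact p.Prime]

theorem norm_intCast_lt_iff (k : ℤ) : ‖(k : PadicAlgCl p)‖ < 1 ↔ (p : ℤ) ∣ k := by
  have h1 : (k : PadicAlgCl p) = algebraMap ℚ_[p] (PadicAlgCl p) (k : ℚ_[p]) := by simp
  rw [h1]
  have h2 := PadicAlgCl.norm_extends p (k : ℚ_[p])
  rw [h2]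
  exact Padic.norm_intCast_lt_one_iff

/-- `z` reduces to `a` -/
def Red (z : PadicAlgCl p) (a : ZMod p) : Prop := ∃ k : ℤ, (k : ZMod p) = a ∧ ‖z - k‖ < 1

theorem norm_int_le (k : ℤ) : ‖(k : PadicAlgCl p)‖ ≤ 1 := IsUltrametricDist.norm_intCast_le_one _ k

theorem Red.norm_le {z : PadicAlgCl p} {a : ZMod p} (h : Red z a) : ‖z‖ ≤ 1 := by
  obtain ⟨k, -, hk⟩ := h
  have h1 : z = (z - k) + k := by ring
  rw [h1]
  exact (IsUltrametricDist.norm_add_le_max _ _).trans (max_le hk.le (norm_int_le k))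

theorem Red.add {z w : PadicAlgCl p} {a b : ZMod p} (hz : Red z a) (hw : Red w b) :
    Red (z + w) (a + b) := by
  obtain ⟨k, hk, hz⟩ := hz
  obtain ⟨l, hl, hw⟩ := hw
  refine ⟨k + l, by push_cast; rw [hk, hl], ?_⟩
  have h1 : z + w - ((k + l : ℤ) : PadicAlgCl p) = (z - k) + (w - l) := by push_cast; ring
  rw [h1]
  exact (IsUltrametricDist.norm_add_le_max _ _).trans_lt (max_lt hz hw)

theorem Red.mul {z w : PadicAlgCl p} {a b : ZMod p} (hz : Red z a) (hw : Red w b) :
    Red (z * w) (a * b) := by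
  have hw' := hw.norm_le
  obtain ⟨k, hk, hz⟩ := hz
  obtain ⟨l, hl, hw⟩ := hw
  refine ⟨k * l, by push_cast; rw [hk, hl], ?_⟩
  have h1 : z * w - ((k * l : ℤ) : PadicAlgCl p) = (z - k) * w + k * (w - l) := by push_cast; ring
  rw [h1]
  refine (IsUltrametricDist.norm_add_le_max _ _).trans_lt (max_lt ?_ ?_)
  · rw [norm_mul]
    exact mul_lt_one_of_nonneg_of_lt_one_left (norm_nonneg _) hz hw'
  · rw [norm_mul]
    exact mul_lt_one_of_nonneg_of_lt_one_right (norm_int_le k) (norm_nonneg _) hw

theorem red_intCast (k : ℤ) : Red (k : PadicAlgCl p) (k : ZMod p) := ⟨k, rfl, by simp⟩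

theorem red_zero : Red (0 : PadicAlgCl p) (0 : ZMod p) := by simpa using red_intCast (p := p) 0

theorem red_one : Red (1 : PadicAlgCl p) (1 : ZMod p) := by simpa using red_intCast (p := p) 1

theorem red_two : Red (2 : PadicAlgCl p) (2 : ZMod p) := by simpa using red_intCast (p := p) 2

theorem Red.unique {z : PadicAlgCl p} {a b : ZMod p} (ha : Red z a) (hb : Red z b) : a = b := by
  obtain ⟨k, rfl, hk⟩ := ha
  obtain ⟨l, rfl, hl⟩ := hb
  have h1 : ((k - l : ℤ) : PadicAlgCl p) = (z - l) + -(z - k) := by push_cast; ring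
  have h2 : ‖((k - l : ℤ) : PadicAlgCl p)‖ < 1 := by
    rw [h1]
    refine (IsUltrametricDist.norm_add_le_max _ _).trans_lt (max_lt hl ?_)
    rwa [norm_neg]
  rw [norm_intCast_lt_iff] at h2
  have h3 := (ZMod.intCast_zmod_eq_zero_iff_dvd (k - l) p).mpr h2
  push_cast at h3
  exact sub_eq_zero.mp h3

theorem Red.pow {z : PadicAlgCl p} {a : ZMod p} (h : Red z a) (i : ℕ) : Red (z ^ i) (a ^ i) := by
  induction i with
  | zero => simpa using red_one
  | succ i ih => rw [pow_succ, pow_succ]; exact ih.mul h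

theorem red_sum {ι : Type*} (t : Finset ι) (z : ι → PadicAlgCl p) (a : ι → ZMod p)
    (h : ∀ i ∈ t, Red (z i) (a i)) : Red (∑ i ∈ t, z i) (∑ i ∈ t, a i) := by
  classical
  induction t using Finset.induction_on with
  | empty => simpa using red_zero
  | insert i t hi ih =>
    rw [Finset.sum_insert hi, Finset.sum_insert hi]
    exact (h i (Finset.mem_insert_self i t)).add
      (ih fun j hj => h j (Finset.mem_insert_of_mem hj))

theorem red_prod {ι : Type*} (t : Finset ι) (z : ι → PadicAlgCl p) (a : ι → ZMod p)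
    (h : ∀ i ∈ t, Red (z i) (a i)) : Red (∏ i ∈ t, z i) (∏ i ∈ t, a i) := by
  classical
  induction t using Finset.induction_on with
  | empty => simpa using red_one
  | insert i t hi ih =>
    rw [Finset.prod_insert hi, Finset.prod_insert hi]
    exact (h i (Finset.mem_insert_self i t)).mul
      (ih fun j hj => h j (Finset.mem_insert_of_mem hj))

theorem red_iterate {c y : PadicAlgCl p} {c0 a : ZMod p} (hc : Red c c0) (hy : Red y a) (i : ℕ) :
    Red ((q c)^[i] y) ((q c0)^[i] a) := by
  induction i with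
  | zero => exact hy
  | succ i ih =>
    rw [Function.iterate_succ_apply', Function.iterate_succ_apply']
    exact (ih.pow 2).add hc

theorem iterate_sub {K : Type*} [Field K] (c u v : K) (M : ℕ) :
    (q c)^[M] u - (q c)^[M] v = (u - v) * ∏ i ∈ Finset.range M, ((q c)^[i] u + (q c)^[i] v) := by
  induction M with
  | zero => simp
  | succ M ih =>
    rw [Finset.prod_range_succ, ← mul_assoc, ← ih, Function.iterate_succ_apply',
      Function.iterate_succ_apply']
    unfold q
    ring

theorem prod_periodic {R : Type*} [CommMonoid R] (f : ℕ → R) (m : ℕ) (hf : ∀ i, f (i + m) = f i)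
    (k : ℕ) : ∏ i ∈ Finset.range (m * k), f i = (∏ i ∈ Finset.range m, f i) ^ k := by
  have hf' : ∀ j i, f (m * j + i) = f i := by
    intro j
    induction j with
    | zero => intro i; simp
    | succ j ih =>
      intro i
      rw [show m * (j + 1) + i = (m * j + i) + m by ring, hf, ih]
  induction k with
  | zero => simp
  | succ k ih =>
    rw [mul_add, mul_one, Finset.prod_range_add, ih, pow_succ]
    congr 1
    exact Finset.prod_congr rfl fun i _ => hf' k i

/-- the multiplier of the cycle of `a` under `x^2 + c0` -/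
noncomputable def mult {K : Type*} [Field K] (c0 a : K) : K :=
  ∏ i ∈ Finset.range (Function.minimalPeriod (q c0) a), 2 * (q c0)^[i] a

theorem key_sum {c y : PadicAlgCl p} {c0 a : ZMod p} (hc : Red c c0) (hy : Red y a) (k N : ℕ)
    (hper : Function.IsPeriodicPt (q c) (Function.minimalPeriod (q c0) a * k * N) y)
    (hne : (q c)^[Function.minimalPeriod (q c0) a * k] y ≠ y) :
    ∑ j ∈ Finset.range N, (mult c0 a ^ k) ^ j = 0 := by
  set m := Function.minimalPeriod (q c0) a with hm
  set M := m * k with hM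
  set Y : ℕ → PadicAlgCl p := fun j => (q c)^[M * j] y with hY
  set U : ℕ → PadicAlgCl p := fun j =>
    ∏ i ∈ Finset.range M, ((q c)^[i] (Y (j + 1)) + (q c)^[i] (Y j)) with hU
  have hstep : ∀ j, Y (j + 1) = (q c)^[M] (Y j) := by
    intro j
    simp only [hY]
    rw [← Function.iterate_add_apply, mul_add, mul_one, add_comm]
  have hD : ∀ j, Y (j + 1) - Y j = (Y 1 - Y 0) * ∏ i ∈ Finset.range j, U i := by
    intro j
    induction j with
    | zero => simp
    | succ j ih =>
      rw [Finset.prod_range_succ, ← mul_assoc, ← ih, hstep (j + 1)]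
      nth_rewrite 2 [hstep j]
      exact iterate_sub c _ _ M
  have hredY : ∀ j i, Red ((q c)^[i] (Y j)) ((q c0)^[i] a) := by
    intro j i
    have h1 := red_iterate hc hy (i + M * j)
    rw [Function.iterate_add_apply, Function.iterate_add_apply] at h1
    have h2 : (q c0)^[M * j] a = a := by
      have h3 : Function.IsPeriodicPt (q c0) (m * (k * j)) a :=
        (Function.isPeriodicPt_minimalPeriod (q c0) a).mul_const (k * j)
      rw [hM, mul_assoc]
      exact h3
    rw [h2] at h1
    exact h1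
  have hmul : ∏ i ∈ Finset.range M, (2 * (q c0)^[i] a) = mult c0 a ^ k := by
    rw [hM]
    refine prod_periodic _ m (fun i => ?_) k
    rw [Function.iterate_add_apply, (Function.isPeriodicPt_minimalPeriod (q c0) a).eq]
  have hredU : ∀ j, Red (U j) (mult c0 a ^ k) := by
    intro j
    rw [← hmul]
    refine red_prod _ _ _ fun i _ => ?_
    rw [two_mul]
    exact (hredY (j + 1) i).add (hredY j i)
  have hD0 : Y 1 - Y 0 ≠ 0 := by
    simp only [hY, mul_one, mul_zero, Function.iterate_zero, id]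
    exact sub_ne_zero.mpr hne
  have hsum : ∑ j ∈ Finset.range N, (Y (j + 1) - Y j) = 0 := by
    rw [Finset.sum_range_sub]
    simp only [hY, mul_zero, Function.iterate_zero, id]
    rw [hper.eq, sub_self]
  have hsum2 : ∑ j ∈ Finset.range N, ∏ i ∈ Finset.range j, U i = 0 := by
    rw [Finset.sum_congr rfl fun j _ => hD j, ← Finset.mul_sum] at hsum
    exact (mul_eq_zero.mp hsum).resolve_left hD0
  have hred : Red (∑ j ∈ Finset.range N, ∏ i ∈ Finset.range j, U i)
      (∑ j ∈ Finset.range N, (mult c0 a ^ k) ^ j) := by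
    refine red_sum _ _ _ fun j _ => ?_
    have h1 := red_prod (Finset.range j) U (fun _ => mult c0 a ^ k) fun i _ => hredU i
    rwa [Finset.prod_const, Finset.card_range] at h1
  rw [hsum2] at hred
  exact hred.unique red_zero

theorem prod_X_sub_C_zmod : ∏ a ∈ Finset.range p, (X - C ((a : ℕ) : ZMod p)) = X ^ p - X := by
  classical
  have h1 : ∏ a ∈ Finset.range p, (X - C ((a : ℕ) : ZMod p)) = ∏ x : ZMod p, (X - C x) := by
    refine Finset.prod_bij (fun a _ => ((a : ℕ) : ZMod p)) (fun a _ => Finset.mem_univ _) ?_ ?_ ?_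
    · intro a ha b hb hab
      rw [Finset.mem_range] at ha hb
      have h2 := congrArg ZMod.val hab
      rwa [ZMod.val_natCast_of_lt ha, ZMod.val_natCast_of_lt hb] at h2
    · intro x _
      exact ⟨x.val, Finset.mem_range.mpr (ZMod.val_lt x), ZMod.natCast_zmod_val x⟩
    · intro a _
      rfl
  have h2 : (X ^ p - X : (ZMod p)[X]).roots = (Finset.univ : Finset (ZMod p)).val := by
    have := FiniteField.roots_X_pow_card_sub_X (ZMod p)
    rwa [ZMod.card] at this
  have h3 : (X ^ p - X : (ZMod p)[X]).Monic := by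
    apply monic_X_pow_sub
    rw [degree_X]
    exact_mod_cast hp.out.one_lt
  have h4 := prod_multiset_X_sub_C_of_monic_of_roots_card_eq h3 (by
    rw [h2, FiniteField.X_pow_card_sub_X_natDegree_eq _ hp.out.one_lt]
    simp [ZMod.card])
  rw [h1, ← h4, h2]
  rfl

theorem exists_red {z : PadicAlgCl p} (hz : ‖z‖ ≤ 1) (h : ‖z - z ^ p‖ < 1) : ∃ a, Red z a := by
  classical
  set P : ℤ[X] := ∏ a ∈ Finset.range p, (X - C ((a : ℕ) : ℤ)) - (X ^ p - X) with hP
  have h1 : P.map (Int.castRingHom (ZMod p)) = 0 := by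
    rw [hP, Polynomial.map_sub, Polynomial.map_prod]
    simp only [Polynomial.map_sub, Polynomial.map_X, Polynomial.map_pow, map_natCast]
    have h2 := prod_X_sub_C_zmod (p := p)
    simp only [map_natCast] at h2
    simp only [Polynomial.map_natCast, h2, sub_self]
  have h2 : C (p : ℤ) ∣ P := by
    rw [C_dvd_iff_dvd_coeff]
    intro i
    have h3 := congrArg (fun Q => Q.coeff i) h1
    simp only [coeff_map, coeff_zero, eq_intCast] at h3
    exact (ZMod.intCast_zmod_eq_zero_iff_dvd _ p).mp h3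
  obtain ⟨G, hG⟩ := h2
  have h3 : ∀ G : ℤ[X], ‖aeval z G‖ ≤ 1 := by
    intro G
    have h4 : IsIntegral ℤ_[p] (aeval z G) := by
      have h5 := isIntegral_of_norm_le_one p z hz
      have h6 : aeval z G ∈ Algebra.adjoin ℤ {z} := aeval_mem_adjoin_singleton ℤ z
      have h7 : aeval z (G.map (algebraMap ℤ ℤ_[p])) ∈ integralClosure ℤ_[p] (PadicAlgCl p) :=
        Subalgebra.aeval_coe (integralClosure ℤ_[p] (PadicAlgCl p)) ⟨z, h5⟩ _ ▸ SetLike.coe_mem _
      rwa [aeval_map_algebraMap] at h7
    exact norm_le_one_of_isIntegral p _ h4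
  have h4 : aeval z P = ∏ a ∈ Finset.range p, (z - (a : ℕ)) - (z ^ p - z) := by
    rw [hP]
    simp [map_prod]
  have h5 : ‖∏ a ∈ Finset.range p, (z - (a : ℕ))‖ < 1 := by
    have h6 : ∏ a ∈ Finset.range p, (z - (a : ℕ)) = aeval z P + -(z - z ^ p) := by
      rw [h4]; ring
    rw [h6]
    refine (IsUltrametricDist.norm_add_le_max _ _).trans_lt (max_lt ?_ (by rwa [norm_neg]))
    rw [hG, map_mul, norm_mul]
    refine mul_lt_one_of_nonneg_of_lt_one_left (norm_nonneg _) ?_ (h3 G)
    have h7 : aeval z (C (p : ℤ)) = (((p : ℤ) : ℤ) : PadicAlgCl p) := by simp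
    rw [h7, norm_intCast_lt_iff]
  rw [norm_prod] at h5
  by_contra hcon
  push Not at hcon
  have h6 : ∀ a ∈ Finset.range p, ‖z - (a : ℕ)‖ = 1 := by
    intro a _
    refine le_antisymm ?_ (not_lt.mp fun h7 => hcon a ⟨a, by simp, by simpa using h7⟩)
    rw [sub_eq_add_neg]
    refine (IsUltrametricDist.norm_add_le_max _ _).trans (max_le hz ?_)
    rw [norm_neg]
    simpa using norm_int_le (p := p) (a : ℤ)
  rw [Finset.prod_congr rfl h6, Finset.prod_const_one] at h5
  exact lt_irrefl _ h5

theorem norm_periodic_le {c y : PadicAlgCl p} (hc : ‖c‖ ≤ 1) {n : ℕ} (hn : 0 < n)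
    (hy : Function.IsPeriodicPt (q c) n y) : ‖y‖ ≤ 1 := by
  by_contra hcon
  push Not at hcon
  have h1 : ∀ z : PadicAlgCl p, 1 < ‖z‖ → ‖z‖ < ‖q c z‖ := by
    intro z hz
    have h2 : ‖z ^ 2 + c‖ = ‖z‖ ^ 2 := by
      rw [IsUltrametricDist.norm_add_eq_max_of_norm_ne_norm]
      · rw [norm_pow]
        exact max_eq_left (by nlinarith)
      · rw [norm_pow]
        nlinarith
    unfold q
    rw [h2]
    nlinarith
  have h2 : ∀ i, 1 < ‖(q c)^[i] y‖ ∧ (0 < i → ‖y‖ < ‖(q c)^[i] y‖) := by
    intro i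
    induction i with
    | zero => exact ⟨hcon, fun h => absurd h (lt_irrefl 0)⟩
    | succ i ih =>
      rw [Function.iterate_succ_apply']
      have h3 := h1 _ ih.1
      refine ⟨ih.1.trans h3, fun _ => ?_⟩
      rcases Nat.eq_zero_or_pos i with rfl | hi
      · exact h3
      · exact (ih.2 hi).trans h3
  have h3 := (h2 n).2 hn
  rw [hy.eq] at h3
  exact lt_irrefl _ h3

/-- At a prime of good reduction, if `y` reduces into the prime field then the period is
`m` or `m r p^e`. -/
theorem good_period {c y : PadicAlgCl p} {c0 a : ZMod p} (hc : Red c c0) (hy : Red y a) {n : ℕ}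
    (hn : 0 < n) (h : DynPt c n y) :
    0 < Function.minimalPeriod (q c0) a ∧
      (n = Function.minimalPeriod (q c0) a ∨
        (mult c0 a ≠ 0 ∧ ∃ e, n = Function.minimalPeriod (q c0) a *
          (orderOf (mult c0 a) * p ^ e))) := by
  obtain ⟨hper, hor⟩ := h
  set m := Function.minimalPeriod (q c0) a with hm
  set n' := Function.minimalPeriod (q c) y with hn'
  have hn'0 : 0 < n' := hper.minimalPeriod_pos hn
  have hn'n : n' ∣ n := hper.minimalPeriod_dvd
  have hred : ∀ i, Red ((q c)^[i] y) ((q c0)^[i] a) := red_iterate hc hy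
  have hpera : Function.IsPeriodicPt (q c0) n' a := by
    have h1 := hred n'
    have h2 : (q c)^[n'] y = y := (Function.isPeriodicPt_minimalPeriod (q c) y).eq
    rw [h2] at h1
    exact h1.unique hy
  have hm0 : 0 < m := hpera.minimalPeriod_pos hn'0
  obtain ⟨N, hN⟩ : m ∣ n' := hpera.minimalPeriod_dvd
  obtain ⟨t, ht⟩ := hn'n
  have hN0 : 0 < N := Nat.pos_of_ne_zero fun h0 => by rw [h0, mul_zero] at hN; omega
  have ht0 : 0 < t := Nat.pos_of_ne_zero fun h0 => by rw [h0, mul_zero] at ht; omega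
  have key := geom_comb_two p (mult c0 a) N t hN0 ht0 ?_ ?_
  · refine ⟨hm0, ?_⟩
    rcases key with h1 | ⟨h1, e, h2⟩
    · left
      rw [ht, hN, mul_assoc, h1, mul_one]
    · right
      exact ⟨h1, e, by rw [ht, hN, mul_assoc, h2]⟩
  · intro M hMN hlt
    have hM0 : 0 < M := Nat.pos_of_dvd_of_pos hMN hN0
    apply key_sum hc hy M (N / M)
    · rw [← hm, mul_assoc, Nat.mul_div_cancel' hMN, ← hN]
      exact Function.isPeriodicPt_minimalPeriod (q c) y
    · intro h1
      have h2 : n' ≤ m * M := Function.IsPeriodicPt.minimalPeriod_le (Nat.mul_pos hm0 hM0) h1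
      rw [hN] at h2
      exact absurd (Nat.le_of_mul_le_mul_left h2 hm0) (not_le.mpr hlt)
  · intro M hMt hlt
    have hM0 : 0 < M := Nat.pos_of_dvd_of_pos hMt ht0
    have hn't : n / n' = t := by rw [ht]; exact Nat.mul_div_cancel_left t hn'0
    have hprim : IsPrimitiveRoot (∏ i ∈ Finset.range n', 2 * (q c)^[i] y) t := by
      rcases hor with h1 | h1
      · have : t = 1 := by
          rw [h1] at ht
          exact (Nat.mul_eq_left hn.ne').mp ht.symm
        omega
      · rwa [hn't] at h1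
    set Λ := ∏ i ∈ Finset.range n', 2 * (q c)^[i] y with hΛ
    have hΛred : Red Λ (mult c0 a ^ N) := by
      have h1 : ∏ i ∈ Finset.range n', (2 * (q c0)^[i] a) = mult c0 a ^ N := by
        rw [hN]
        refine prod_periodic _ m (fun i => ?_) N
        rw [Function.iterate_add_apply, (Function.isPeriodicPt_minimalPeriod (q c0) a).eq]
      rw [← h1]
      exact red_prod _ _ _ fun i _ => red_two.mul (hred i)
    have hne : Λ ^ M ≠ 1 := hprim.pow_ne_one_of_pos_of_lt hM0.ne' hlt
    have hsum : ∑ j ∈ Finset.range (t / M), (Λ ^ M) ^ j = 0 := by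
      have h1 := geom_sum_mul (Λ ^ M) (t / M)
      rw [← pow_mul, Nat.mul_div_cancel' hMt, hprim.pow_eq_one, sub_self] at h1
      exact (mul_eq_zero.mp h1).resolve_right (sub_ne_zero.mpr hne)
    have h2 : Red (∑ j ∈ Finset.range (t / M), (Λ ^ M) ^ j)
        (∑ j ∈ Finset.range (t / M), ((mult c0 a ^ N) ^ M) ^ j) :=
      red_sum _ _ _ fun j _ => (hΛred.pow M).pow j
    rw [hsum] at h2
    exact h2.unique red_zero

end red

end Pool.Agent.H9.Dyn
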