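import Mathlib
import Pool.Agent.H9.Dyn.Good

/-!
# Frobenius at a prime of good reduction
-/

open Polynomial

namespace Pool.Agent.H9.Dyn

theorem finite_periodic {K : Type*} [Field K] (c : K) {n : ℕ} (hn : 0 < n) :
    {y : K | Function.IsPeriodicPt (q c) n y}.Finite := by
  classical
  set f : K[X] := X ^ 2 + C c with hf
  have hdeg : f.natDegree = 2 := natDegree_X_pow_add_C
  have hne : DynRoot.it f n - X ≠ 0 := DynRoot.it_sub_ne_zero f hdeg.ge hn
  refine ((DynRoot.it f n - X).roots.toFinset.finite_toSet).subset fun y hy => ?_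
  rw [Finset.mem_coe, Multiset.mem_toFinset, mem_roots hne, IsRoot.def, eval_sub, eval_X,
    DynRoot.eval_it, sub_eq_zero]
  have h1 : (fun y => f.eval y) = q c := by
    funext z
    simp [hf, q]
  rw [h1]
  exact hy

theorem finite_dynPt {K : Type*} [Field K] (c : K) {n : ℕ} (hn : 0 < n) :
    {y : K | DynPt c n y}.Finite := (finite_periodic c hn).subset fun _ h => h.1

/-- an automorphism of `PadicAlgCl p` over `ℚ_p` as one over `ℚ` -/
noncomputable def toRat {p : ℕ} [Fact p.Prime] (τ : PadicAlgCl p ≃ₐ[ℚ_[p]] PadicAlgCl p) :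
    PadicAlgCl p ≃ₐ[ℚ] PadicAlgCl p :=
  AlgEquiv.ofRingEquiv (f := τ.toRingEquiv) fun r => by
    simp

@[simp] theorem toRat_apply {p : ℕ} [Fact p.Prime] (τ : PadicAlgCl p ≃ₐ[ℚ_[p]] PadicAlgCl p)
    (y : PadicAlgCl p) : toRat τ y = τ y := rfl

theorem red_rat {p : ℕ} [hp : Fact p.Prime] (c : ℚ) (hc : ¬ p ∣ c.den) :
    Red (p := p) (c : PadicAlgCl p) (c : ZMod p) := by
  have hden : (c.den : ZMod p) ≠ 0 := by
    rw [Ne, ZMod.natCast_eq_zero_iff]
    exact hc
  have hden1 : ‖(c.den : PadicAlgCl p)‖ = 1 := by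
    refine le_antisymm (by simpa using norm_int_le (p := p) (c.den : ℤ)) (not_lt.mp fun h => hc ?_)
    have h1 := norm_intCast_lt_iff (p := p) (c.den : ℤ)
    rw [Int.cast_natCast, Int.natCast_dvd_natCast] at h1
    exact h1.mp h
  obtain ⟨k, hk⟩ := ZMod.intCast_surjective (c : ZMod p)
  refine ⟨k, hk, ?_⟩
  have h1 : ((c.den * k - c.num : ℤ) : ZMod p) = 0 := by
    push_cast
    rw [hk, Rat.cast_def]
    field_simp
    ring
  have h2 : ‖((c.den * k - c.num : ℤ) : PadicAlgCl p)‖ < 1 := by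
    rw [norm_intCast_lt_iff]
    exact (ZMod.intCast_zmod_eq_zero_iff_dvd _ p).mp h1
  have hden0 : (c.den : PadicAlgCl p) ≠ 0 := by exact_mod_cast c.den_nz
  have h3 : (c.den : PadicAlgCl p) * ((c : PadicAlgCl p) - k) =
      -((c.den * k - c.num : ℤ) : PadicAlgCl p) := by
    push_cast
    rw [Rat.cast_def]
    field_simp
    ring
  have h4 : ‖(c : PadicAlgCl p) - k‖ = ‖((c.den * k - c.num : ℤ) : PadicAlgCl p)‖ := by
    rw [← norm_neg ((c.den * k - c.num : ℤ) : PadicAlgCl p), ← h3, norm_mul, hden1, one_mul]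
  rw [h4]
  exact h2

/-- At a prime `p` of good reduction: Frobenius moves all the roots of the dynatomic polynomial
unless `n` is the length of a cycle of `x^2 + c` in `F_p`, or `m r p^e` with `m` the length of a
cycle and `r` the order of its multiplier. -/
theorem good_move (p : ℕ) [hp : Fact p.Prime] (c : ℚ) (hc : ¬ p ∣ c.den) (n : ℕ) (hn : 0 < n) :
    (∃ τ : PadicAlgCl p ≃ₐ[ℚ] PadicAlgCl p, ∀ y, DynPt (algebraMap ℚ (PadicAlgCl p) c) n y →
      τ y ≠ y) ∨
    ∃ a : ZMod p, 0 < Function.minimalPeriod (q (c : ZMod p)) a ∧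
      (n = Function.minimalPeriod (q (c : ZMod p)) a ∨
        (mult (c : ZMod p) a ≠ 0 ∧ ∃ e, n = Function.minimalPeriod (q (c : ZMod p)) a *
          (orderOf (mult (c : ZMod p) a) * p ^ e))) := by
  rw [eq_ratCast]
  obtain ⟨τ, hτ⟩ := exists_frobenius p {y : PadicAlgCl p | DynPt (c : PadicAlgCl p) n y}
    (finite_dynPt _ hn)
  by_cases h : ∀ y, DynPt (c : PadicAlgCl p) n y → τ y ≠ y
  · exact Or.inl ⟨toRat τ, h⟩
  · right
    push Not at h
    obtain ⟨y, hy, hfix⟩ := h
    have hred := red_rat c hc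
    have hy1 : ‖y‖ ≤ 1 := norm_periodic_le hred.norm_le hn hy.1
    have h1 := hτ y (IntermediateField.subset_adjoin _ _ hy) hy1
    rw [hfix] at h1
    obtain ⟨a, ha⟩ := exists_red hy1 h1
    exact ⟨a, good_period hred ha hn hy⟩

end Pool.Agent.H9.Dyn
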