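import Mathlib
import Pool.Agent.H9.Dyn.GoodMove

/-!
# Arithmetic consequences at the primes of good reduction
-/

open Polynomial

namespace Pool.Agent.H9.Dyn

/-- some automorphism of `C` moves all the points `y` which behave like roots of the `n`-th
dynatomic polynomial of `x^2 + c` -/
def Move (C : Type*) [Field C] [Algebra ℚ C] (c : ℚ) (n : ℕ) : Prop :=
  ∃ τ : C ≃ₐ[ℚ] C, ∀ y : C, DynPt (algebraMap ℚ C c) n y → τ y ≠ y

theorem ord_dvd {p : ℕ} [hp : Fact p.Prime] {a : ZMod p} (ha : a ≠ 0) : orderOf a ∣ p - 1 :=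
  orderOf_dvd_of_pow_eq_one (ZMod.pow_card_sub_one_eq_one ha)

theorem good_bound (p : ℕ) [hp : Fact p.Prime] (c : ℚ) (hc : ¬ p ∣ c.den) (n : ℕ) (hn : 0 < n)
    (hM : ¬ Move (PadicAlgCl p) c n) : n ≤ p * (p - 1) * p ^ n.factorization p := by
  rcases good_move p c hc n hn with h | ⟨a, ha, h⟩
  · exact absurd h hM
  have hp2 := hp.out.two_le
  have hm : Function.minimalPeriod (q (c : ZMod p)) a ≤ p := by
    have h1 := Function.minimalPeriod_le_card (f := q (c : ZMod p)) (x := a)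
    rwa [ZMod.card] at h1
  have hp1 : 1 ≤ p - 1 := by omega
  rcases h with h | ⟨h0, e, he⟩
  · calc n ≤ p := by rw [h]; exact hm
      _ ≤ p * (p - 1) := Nat.le_mul_of_pos_right _ hp1
      _ ≤ p * (p - 1) * p ^ n.factorization p :=
        Nat.le_mul_of_pos_right _ (pow_pos (by omega) _)
  · have h1 : p ^ e ∣ n := by
      rw [he]
      exact (Dvd.intro_left _ rfl).mul_left _
    have h2 : e ≤ n.factorization p := (hp.out.pow_dvd_iff_le_factorization hn.ne').mp h1
    have h3 : orderOf (mult (c : ZMod p) a) ≤ p - 1 := Nat.le_of_dvd hp1 (ord_dvd h0)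
    calc n = Function.minimalPeriod (q (c : ZMod p)) a *
          (orderOf (mult (c : ZMod p) a) * p ^ e) := he
      _ ≤ p * ((p - 1) * p ^ n.factorization p) :=
        Nat.mul_le_mul hm (Nat.mul_le_mul h3 (Nat.pow_le_pow_right (by omega) h2))
      _ = p * (p - 1) * p ^ n.factorization p := by ring

theorem good_bound_two (p r : ℕ) (hp : p.Prime) (hr : r.Prime) (hpr : p ≠ r) (c : ℚ)
    (hpc : ¬ p ∣ c.den) (hrc : ¬ r ∣ c.den) (n : ℕ) (hn : p * (p - 1) * (r * (r - 1)) < n) :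
    (∃ _ : Fact p.Prime, Move (PadicAlgCl p) c n) ∨
      (∃ _ : Fact r.Prime, Move (PadicAlgCl r) c n) := by
  by_contra hcon
  push Not at hcon
  obtain ⟨h1, h2⟩ := hcon
  have hn0 : 0 < n := by omega
  have fp : Fact p.Prime := ⟨hp⟩
  have fr : Fact r.Prime := ⟨hr⟩
  have h3 := good_bound p c hpc n hn0 (h1 fp)
  have h4 := good_bound r c hrc n hn0 (h2 fr)
  have h5 : p ^ n.factorization p * r ^ n.factorization r ∣ n := by
    apply Nat.Coprime.mul_dvd_of_dvd_of_dvd
    · exact Nat.Coprime.pow _ _ ((Nat.coprime_primes hp hr).mpr hpr)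
    · exact Nat.ordProj_dvd n p
    · exact Nat.ordProj_dvd n r
  have h6 := Nat.le_of_dvd hn0 h5
  have h7 : n * n ≤ (p * (p - 1) * (r * (r - 1))) * n := by
    calc n * n ≤ (p * (p - 1) * p ^ n.factorization p) * (r * (r - 1) * r ^ n.factorization r) :=
          Nat.mul_le_mul h3 h4
      _ = (p * (p - 1) * (r * (r - 1))) * (p ^ n.factorization p * r ^ n.factorization r) := by
        ring
      _ ≤ _ := Nat.mul_le_mul_left _ h6
  have h8 := Nat.le_of_mul_le_mul_right h7 hn0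
  omega

theorem good_factors (p : ℕ) [hp : Fact p.Prime] (c : ℚ) (hc : ¬ p ∣ c.den) (n : ℕ) (hn : 0 < n)
    (hM : ¬ Move (PadicAlgCl p) c n) (l : ℕ) (hl : l.Prime) (hln : l ∣ n) : l ≤ p := by
  rcases good_move p c hc n hn with h | ⟨a, ha, h⟩
  · exact absurd h hM
  have hp2 := hp.out.two_le
  have hm : Function.minimalPeriod (q (c : ZMod p)) a ≤ p := by
    have h1 := Function.minimalPeriod_le_card (f := q (c : ZMod p)) (x := a)
    rwa [ZMod.card] at h1
  rcases h with h | ⟨h0, e, he⟩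
  · rw [h] at hln
    exact (Nat.le_of_dvd ha hln).trans hm
  · rw [he] at hln
    rcases (hl.dvd_mul).mp hln with h1 | h1
    · exact (Nat.le_of_dvd ha h1).trans hm
    · rcases (hl.dvd_mul).mp h1 with h2 | h2
      · have h3 := h2.trans (ord_dvd h0)
        have h4 := Nat.le_of_dvd (by omega) h3
        omega
      · have h3 := hl.dvd_of_dvd_pow h2
        exact Nat.le_of_dvd (by omega) h3

local instance fact_prime_five : Fact (Nat.Prime 5) := ⟨Nat.prime_five⟩

theorem small_three : ∀ c0 a : ZMod 3, ∀ m : Fin 4, 0 < m.val → (q c0)^[m.val] a = a →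
    (∀ j : Fin 4, 0 < j.val → j < m → (q c0)^[j.val] a ≠ a) →
    (∏ i ∈ Finset.range m.val, 2 * (q c0)^[i] a) ≠ 0 →
    m.val = 1 ∧ (∏ i ∈ Finset.range m.val, 2 * (q c0)^[i] a) ^ 2 = 1 := by
  decide

theorem small_five : ∀ c0 a : ZMod 5, ∀ m : Fin 6, 0 < m.val → (q c0)^[m.val] a = a →
    (∀ j : Fin 6, 0 < j.val → j < m → (q c0)^[j.val] a ≠ a) →
    m.val ≤ 3 ∧ ((∏ i ∈ Finset.range m.val, 2 * (q c0)^[i] a) ≠ 0 → m.val ≤ 2) := by
  decide

theorem good_three (c : ℚ) (hc : ¬ 3 ∣ c.den) (n : ℕ) (hn : 3 < n)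
    (hM : ¬ Move (PadicAlgCl 3) c n) : ∃ e, n = 3 ^ e ∨ n = 2 * 3 ^ e := by
  rcases good_move 3 c hc n (by omega) with h | ⟨a, ha, h⟩
  · exact absurd h hM
  have hm : Function.minimalPeriod (q (c : ZMod 3)) a ≤ 3 := by
    have h1 := Function.minimalPeriod_le_card (f := q (c : ZMod 3)) (x := a)
    rwa [ZMod.card] at h1
  rcases h with h | ⟨h0, e, he⟩
  · omega
  · have h1 := small_three (c : ZMod 3) a ⟨Function.minimalPeriod (q (c : ZMod 3)) a, by omega⟩
      ha (Function.isPeriodicPt_minimalPeriod _ _) (fun j hj hjm hper => ?_) h0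
    · obtain ⟨h2, h3⟩ := h1
      simp only at h2 h3
      have h4 : orderOf (mult (c : ZMod 3) a) ∣ 2 := orderOf_dvd_of_pow_eq_one h3
      refine ⟨e, ?_⟩
      rcases (Nat.dvd_prime Nat.prime_two).mp h4 with h5 | h5
      · left
        rw [he, h2, h5]
        ring
      · right
        rw [he, h2, h5]
        ring
    · have h5 := Function.IsPeriodicPt.minimalPeriod_le hj hper
      have h6 : j.val < Function.minimalPeriod (q (c : ZMod 3)) a := hjm
      omega

theorem good_five (c : ℚ) (hc : ¬ 5 ∣ c.den) (n : ℕ) (hn : 3 < n)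
    (hM : ¬ Move (PadicAlgCl 5) c n) : ∃ i e, i ≤ 3 ∧ n = 2 ^ i * 5 ^ e := by
  rcases good_move 5 c hc n (by omega) with h | ⟨a, ha, h⟩
  · exact absurd h hM
  have hm : Function.minimalPeriod (q (c : ZMod 5)) a ≤ 5 := by
    have h1 := Function.minimalPeriod_le_card (f := q (c : ZMod 5)) (x := a)
    rwa [ZMod.card] at h1
  have h1 := small_five (c : ZMod 5) a ⟨Function.minimalPeriod (q (c : ZMod 5)) a, by omega⟩
    ha (Function.isPeriodicPt_minimalPeriod _ _) (fun j hj hjm hper => by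
      have h5 := Function.IsPeriodicPt.minimalPeriod_le hj hper
      have h6 : j.val < Function.minimalPeriod (q (c : ZMod 5)) a := hjm
      omega)
  obtain ⟨h2, h3⟩ := h1
  simp only at h2 h3
  rcases h with h | ⟨h0, e, he⟩
  · omega
  · have h4 := h3 h0
    have h5 : orderOf (mult (c : ZMod 5) a) ∣ 2 ^ 2 := ord_dvd h0
    obtain ⟨k, hk, h6⟩ := (Nat.dvd_prime_pow Nat.prime_two).mp h5
    have h7 : Function.minimalPeriod (q (c : ZMod 5)) a = 1 ∨
        Function.minimalPeriod (q (c : ZMod 5)) a = 2 := by omega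
    rcases h7 with h7 | h7
    · refine ⟨k, e, by omega, ?_⟩
      rw [he, h7, h6]
      ring
    · refine ⟨k + 1, e, by omega, ?_⟩
      rw [he, h7, h6]
      ring

end Pool.Agent.H9.Dyn
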