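import Mathlib
import Pool.Agent.H9.Dyn.GoodMove

/-!
# Automorphisms of `PadicAlgCl p` moving a square root
-/

open Polynomial

namespace Pool.Agent.H9.Dyn

variable {p : ℕ} [hp : Fact p.Prime]

theorem exists_neg (K : IntermediateField ℚ_[p] (PadicAlgCl p)) (b : PadicAlgCl p) (hb : b ∉ K)
    (hb2 : b ^ 2 ∈ K) :
    ∃ τ : PadicAlgCl p ≃ₐ[ℚ_[p]] PadicAlgCl p, (∀ x ∈ K, τ x = x) ∧ τ b = -b := by
  have hnor : Normal K (PadicAlgCl p) := Normal.tower_top_of_normal ℚ_[p] K (PadicAlgCl p)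
  have h0 : b ∉ (⊥ : Subalgebra K (PadicAlgCl p)) := by
    rw [Algebra.mem_bot]
    rintro ⟨x, rfl⟩
    exact hb x.2
  have hsep : IsSeparable K b := Algebra.IsSeparable.isSeparable K b
  obtain ⟨y, hy1, hy2⟩ := (notMem_iff_exists_ne_and_isConjRoot hsep
    (Normal.splits hnor b)).mp h0
  obtain ⟨σ, hσ⟩ := (isConjRoot_iff_exists_algEquiv (K := K)).mp hy2.symm
  have h1 : σ b = y := hσ
  have h2 : y ^ 2 = b ^ 2 := by
    rw [← h1, ← map_pow]
    exact σ.commutes ⟨b ^ 2, hb2⟩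
  have h3 : y = -b := by
    rcases sq_eq_sq_iff_eq_or_eq_neg.mp h2 with h | h
    · exact absurd h.symm hy1
    · exact h
  refine ⟨σ.restrictScalars ℚ_[p], fun x hx => σ.commutes ⟨x, hx⟩, ?_⟩
  rw [← h3]
  exact h1

/-- elements of a quadratic extension -/
theorem mem_adjoin_sqrt (b : PadicAlgCl p) (r : ℚ_[p]) (hr : b ^ 2 = algebraMap _ _ r)
    (z : PadicAlgCl p) (hz : z ∈ IntermediateField.adjoin ℚ_[p] {b}) :
    ∃ u v : ℚ_[p], z = algebraMap _ _ u + algebraMap _ _ v * b := by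
  have hint : IsIntegral ℚ_[p] b := Algebra.IsIntegral.isIntegral b
  have h1 : z ∈ Algebra.adjoin ℚ_[p] {b} := by
    rw [← IntermediateField.adjoin_simple_toSubalgebra_of_isAlgebraic hint.isAlgebraic]
    exact hz
  rw [Algebra.adjoin_singleton_eq_range_aeval] at h1
  obtain ⟨P, hP⟩ := h1
  have hmon : (X ^ 2 - C r : ℚ_[p][X]).Monic := monic_X_pow_sub_C r two_ne_zero
  have h2 := modByMonic_add_div P (X ^ 2 - C r)
  have h3 : (P %ₘ (X ^ 2 - C r)).natDegree ≤ 1 := by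
    have h4 := natDegree_modByMonic_lt P hmon (by
      intro h
      have := congrArg natDegree h
      rw [natDegree_X_pow_sub_C, natDegree_one] at this
      omega)
    rw [natDegree_X_pow_sub_C] at h4
    omega
  refine ⟨(P %ₘ (X ^ 2 - C r)).coeff 0, (P %ₘ (X ^ 2 - C r)).coeff 1, ?_⟩
  have h4 := eq_X_add_C_of_natDegree_le_one h3
  have h5 : z = aeval b (P %ₘ (X ^ 2 - C r)) := by
    have h6 : aeval b P = z := hP
    rw [← h6]
    nth_rewrite 1 [← h2]
    rw [map_add, map_mul]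
    have h7 : aeval b (X ^ 2 - C r) = 0 := by simp [hr]
    rw [h7, zero_mul, add_zero]
  rw [h5]
  nth_rewrite 1 [h4]
  simp
  ring

end Pool.Agent.H9.Dyn
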