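import Mathlib
import Pool.Agent.H9.Dyn.Sqrt

/-!
# Primes of bad reduction
-/

open Polynomial

namespace Pool.Agent.H9.Dyn

variable {p : ℕ} [hp : Fact p.Prime]

/-- a strictly increasing norm is impossible along a periodic orbit -/
theorem not_escape {c y : PadicAlgCl p} {n : ℕ} (hn : 0 < n)
    (hy : Function.IsPeriodicPt (q c) n y) (N : PadicAlgCl p → ℝ) (B : ℝ)
    (hB : ∀ z, B < N z → N z < N (q c z)) : N y ≤ B := by
  by_contra hcon
  push Not at hcon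
  have h2 : ∀ i, B < N ((q c)^[i] y) ∧ (0 < i → N y < N ((q c)^[i] y)) := by
    intro i
    induction i with
    | zero => exact ⟨hcon, fun h => absurd h (lt_irrefl 0)⟩
    | succ i ih =>
      rw [Function.iterate_succ_apply']
      have h3 := hB _ ih.1
      refine ⟨ih.1.trans h3, fun _ => ?_⟩
      rcases Nat.eq_zero_or_pos i with rfl | hi
      · exact h3
      · exact (ih.2 hi).trans h3
  have h3 := (h2 n).2 hn
  rw [hy.eq] at h3
  exact lt_irrefl _ h3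

/-- version with an invariant property -/
theorem not_escape' {c y : PadicAlgCl p} {n : ℕ} (hn : 0 < n)
    (hy : Function.IsPeriodicPt (q c) n y) (P : PadicAlgCl p → Prop) (hPy : P y)
    (hP : ∀ z, P z → P (q c z)) (N : PadicAlgCl p → ℝ) (B : ℝ)
    (hB : ∀ z, P z → B < N z → N z < N (q c z)) : N y ≤ B := by
  by_contra hcon
  push Not at hcon
  have h2 : ∀ i, P ((q c)^[i] y) ∧ B < N ((q c)^[i] y) ∧ (0 < i → N y < N ((q c)^[i] y)) := by
    intro i
    induction i with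
    | zero => exact ⟨hPy, hcon, fun h => absurd h (lt_irrefl 0)⟩
    | succ i ih =>
      rw [Function.iterate_succ_apply']
      have h3 := hB _ ih.1 ih.2.1
      refine ⟨hP _ ih.1, ih.2.1.trans h3, fun _ => ?_⟩
      rcases Nat.eq_zero_or_pos i with rfl | hi
      · exact h3
      · exact (ih.2.2 hi).trans h3
  have h3 := (h2 n).2.2 hn
  rw [hy.eq] at h3
  exact lt_irrefl _ h3

theorem IsPeriodicPt_q {K : Type*} [Field K] {c y : K} {n : ℕ}
    (hy : Function.IsPeriodicPt (q c) n y) : Function.IsPeriodicPt (q c) n (q c y) := hy.map (fun _ => rfl)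

theorem norm_sq_periodic {c y : PadicAlgCl p} (hc : 1 < ‖c‖) {n : ℕ} (hn : 0 < n)
    (hy : Function.IsPeriodicPt (q c) n y) : ‖y‖ ^ 2 = ‖c‖ := by
  have hup : ∀ z : PadicAlgCl p, Function.IsPeriodicPt (q c) n z → ‖z‖ ≤ Real.sqrt ‖c‖ := by
    intro z hz
    refine not_escape hn hz (fun z => ‖z‖) (Real.sqrt ‖c‖) fun w hw => ?_
    have h1 : ‖c‖ < ‖w‖ ^ 2 := by
      have := Real.lt_sq_of_sqrt_lt hw
      exact this
    have h2 : ‖w ^ 2 + c‖ = ‖w‖ ^ 2 := by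
      rw [IsUltrametricDist.norm_add_eq_max_of_norm_ne_norm]
      · rw [norm_pow]; exact max_eq_left h1.le
      · rw [norm_pow]; exact h1.ne'
    change ‖w‖ < ‖w ^ 2 + c‖
    rw [h2]
    have h3 : 1 < ‖w‖ := by
      have : 1 < Real.sqrt ‖c‖ := by
        rw [Real.lt_sqrt zero_le_one]
        simpa using hc
      exact this.trans hw
    nlinarith
  have h1 := hup y hy
  have h2 : ‖y‖ ^ 2 ≤ ‖c‖ := by
    exact (Real.le_sqrt (norm_nonneg y) (norm_nonneg c)).mp h1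
  refine le_antisymm h2 (not_lt.mp fun h3 => ?_)
  have h4 : ‖q c y‖ = ‖c‖ := by
    change ‖y ^ 2 + c‖ = _
    rw [IsUltrametricDist.norm_add_eq_max_of_norm_ne_norm]
    · rw [norm_pow]; exact max_eq_right h3.le
    · rw [norm_pow]; exact h3.ne
  have h5 := hup _ (IsPeriodicPt_q hy)
  rw [h4] at h5
  have h6 := (Real.le_sqrt (norm_nonneg c) (norm_nonneg c)).mp h5
  nlinarith

/-- bad reduction, `-c` not a square: an automorphism changing the sign of `√(-c)` moves all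
the periodic points -/
theorem bad_move (c : ℚ) (hc : 1 < ‖(16 * c : ℚ_[p])‖) (hsq : ∀ r : ℚ_[p], r ^ 2 ≠ -c) (n : ℕ)
    (hn : 0 < n) :
    ∃ τ : PadicAlgCl p ≃ₐ[ℚ] PadicAlgCl p, ∀ y, DynPt (algebraMap ℚ (PadicAlgCl p) c) n y →
      τ y ≠ y := by
  rw [eq_ratCast]
  obtain ⟨b, hb⟩ := IsAlgClosed.exists_pow_nat_eq (-(c : PadicAlgCl p)) (n := 2) two_pos
  have hcc : (c : PadicAlgCl p) = algebraMap ℚ_[p] (PadicAlgCl p) (c : ℚ_[p]) := by simp
  have hbn : b ∉ (⊥ : IntermediateField ℚ_[p] (PadicAlgCl p)) := by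
    rw [IntermediateField.mem_bot]
    rintro ⟨r, rfl⟩
    apply hsq r
    apply (algebraMap ℚ_[p] (PadicAlgCl p)).injective
    rw [map_pow, hb, hcc, map_neg]
  obtain ⟨τ, -, hτ⟩ := exists_neg ⊥ b hbn (by
    rw [hb, hcc, ← map_neg]
    exact IntermediateField.algebraMap_mem _ _)
  refine ⟨toRat τ, fun y hy hfix => ?_⟩
  rw [toRat_apply] at hfix
  have h16 : ‖(16 : PadicAlgCl p)‖ ≤ 1 := by
    have := norm_int_le (p := p) 16
    simpa using this
  have hc16 : 1 < ‖(16 : PadicAlgCl p)‖ * ‖(c : PadicAlgCl p)‖ := by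
    rw [← norm_mul]
    have h1 : (16 * c : PadicAlgCl p) = algebraMap ℚ_[p] (PadicAlgCl p) (16 * c : ℚ_[p]) := by
      rw [map_mul, map_ofNat, hcc]
    rw [h1]
    have := PadicAlgCl.norm_extends p (16 * c : ℚ_[p])
    rw [this]
    exact hc
  have hc1 : 1 < ‖(c : PadicAlgCl p)‖ := by
    nlinarith [norm_nonneg (c : PadicAlgCl p)]
  have hb2 : ‖b‖ ^ 2 = ‖(c : PadicAlgCl p)‖ := by rw [← norm_pow, hb, norm_neg]
  have hqy := norm_sq_periodic hc1 hn (IsPeriodicPt_q hy.1)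
  have hprod : ‖y - b‖ * ‖y + b‖ = ‖q (c : PadicAlgCl p) y‖ := by
    rw [← norm_mul]
    congr 1
    unfold q
    have : (c : PadicAlgCl p) = -b ^ 2 := by rw [hb]; ring
    rw [this]; ring
  have heq : ‖y - b‖ = ‖y + b‖ := by
    have h1 := norm_algEquiv p τ (y - b)
    rw [map_sub, hfix, hτ, sub_neg_eq_add] at h1
    exact h1.symm
  have h2b : ‖(2 : PadicAlgCl p)‖ * ‖b‖ ≤ ‖y + b‖ := by
    rw [← norm_mul]
    have h1 : 2 * b = (y + b) + -(y - b) := by ring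
    rw [h1]
    refine (IsUltrametricDist.norm_add_le_max _ _).trans ?_
    rw [norm_neg, heq, max_self]
  have h4 : ‖(16 : PadicAlgCl p)‖ = ‖(2 : PadicAlgCl p)‖ ^ 4 := by
    rw [← norm_pow]; norm_num
  rw [heq] at hprod
  have hsq2 : (‖y + b‖ * ‖y + b‖) ^ 2 = ‖b‖ ^ 2 := by rw [hprod, hqy, hb2]
  have h5 : ‖y + b‖ * ‖y + b‖ = ‖b‖ :=
    (pow_left_inj₀ (by positivity) (norm_nonneg b) two_ne_zero).mp hsq2
  rw [h4, ← hb2] at hc16
  have h7 : ‖(2 : PadicAlgCl p)‖ ^ 2 * ‖b‖ ^ 2 ≤ ‖b‖ := by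
    calc ‖(2 : PadicAlgCl p)‖ ^ 2 * ‖b‖ ^ 2 = (‖(2 : PadicAlgCl p)‖ * ‖b‖) ^ 2 := by ring
      _ ≤ ‖y + b‖ ^ 2 := pow_le_pow_left₀ (by positivity) h2b 2
      _ = ‖b‖ := by rw [sq, h5]
  have hb0 : 0 < ‖b‖ := by
    rcases (norm_nonneg b).lt_or_eq with h | h
    · exact h
    · rw [← h] at hb2
      nlinarith
  have h8 : ‖(2 : PadicAlgCl p)‖ ^ 2 * ‖b‖ ≤ 1 := by
    by_contra h
    push Not at h
    nlinarith
  nlinarith [sq_nonneg (‖(2 : PadicAlgCl p)‖ ^ 2 * ‖b‖), norm_nonneg (2 : PadicAlgCl p)]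

end Pool.Agent.H9.Dyn
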