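import Mathlib
import Pool.Agent.H9.Dyn.Reduce

/-!
# The real place: for `c > -5/4` the only real periods of `x^2 + c` are one and two
-/

open Polynomial

namespace Pool.Agent.H9.Dyn

/-- A continuous map of the line with `x < g x → x < g (g x)` has no periodic points except fixed
points. -/
theorem periodic_eq_of_sign (g : ℝ → ℝ) (hg : Continuous g) (h : ∀ x, x < g x → x < g (g x))
    {x : ℝ} {n : ℕ} (hn : 0 < n) (hx : Function.IsPeriodicPt g n x) : g x = x := by
  classical
  by_contra hne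
  set O : Finset ℝ := (Finset.range n).image (fun i => g^[i] x) with hO
  have hmem : ∀ i, g^[i] x ∈ O := by
    intro i
    rw [hO, Finset.mem_image]
    exact ⟨i % n, Finset.mem_range.mpr (Nat.mod_lt _ hn), hx.iterate_mod_apply i⟩
  have hclosed : ∀ y ∈ O, g y ∈ O := by
    intro y hy
    rw [hO, Finset.mem_image] at hy
    obtain ⟨i, -, rfl⟩ := hy
    have h1 := hmem (i + 1)
    rwa [Function.iterate_succ_apply'] at h1
  have hfix : ∀ y ∈ O, g y ≠ y := by
    intro y hy hy1
    rw [hO, Finset.mem_image] at hy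
    obtain ⟨i, hi, rfl⟩ := hy
    rw [Finset.mem_range] at hi
    apply hne
    have h1 : g^[n - i] (g^[i] x) = x := by
      rw [← Function.iterate_add_apply, Nat.sub_add_cancel hi.le]
      exact hx
    have h2 : g^[n - i] (g^[i] x) = g^[i] x := Function.iterate_fixed hy1 _
    have h3 : x = g^[i] x := h1.symm.trans h2
    rw [← h3] at hy1
    exact hy1
  have hOne : O.Nonempty := ⟨x, hmem 0⟩
  set U := O.filter (fun y => y < g y) with hU
  have hUne : U.Nonempty := by
    refine ⟨O.min' hOne, Finset.mem_filter.mpr ⟨O.min'_mem hOne, ?_⟩⟩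
    exact lt_of_le_of_ne (O.min'_le _ (hclosed _ (O.min'_mem hOne)))
      (hfix _ (O.min'_mem hOne)).symm
  set a := U.max' hUne with ha
  have haU := U.max'_mem hUne
  rw [← ha, hU, Finset.mem_filter] at haU
  set V := O.filter (fun y => a < y) with hV
  have hVne : V.Nonempty := ⟨g a, Finset.mem_filter.mpr ⟨hclosed _ haU.1, haU.2⟩⟩
  set b := V.min' hVne with hb
  have hbV := V.min'_mem hVne
  rw [← hb, hV, Finset.mem_filter] at hbV
  have hba : b ≤ g a := V.min'_le _ (Finset.mem_filter.mpr ⟨hclosed _ haU.1, haU.2⟩)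
  have hgb : g b ≤ b := by
    by_contra hcon
    push Not at hcon
    have h1 := U.le_max' b (Finset.mem_filter.mpr ⟨hbV.1, hcon⟩)
    rw [← ha] at h1
    exact absurd h1 (not_le.mpr hbV.2)
  have hgb2 : g b < b := lt_of_le_of_ne hgb (hfix _ hbV.1)
  have hgba : g b ≤ a := by
    by_contra hcon
    push Not at hcon
    have h1 := V.min'_le (g b) (Finset.mem_filter.mpr ⟨hclosed _ hbV.1, hcon⟩)
    rw [← hb] at h1
    exact absurd h1 (not_le.mpr hgb2)
  obtain ⟨t, ht, hgt⟩ := intermediate_value_Icc' hbV.2.le hg.continuousOn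
    (show b ∈ Set.Icc (g b) (g a) from ⟨hgb, hba⟩)
  have htb : t < b := by
    refine lt_of_le_of_ne ht.2 ?_
    rintro rfl
    exact absurd hgt hgb2.ne
  have h1 := h t (by rw [hgt]; exact htb)
  rw [hgt] at h1
  linarith [ht.1]

/-- the algebra of real four-cycles -/
theorem four_cycle_algebra {A B E F c : ℝ} (hAB : A * B = -1) (hE : E = 2 * B - 4 * c - A ^ 2)
    (hF : F = 2 * A - 4 * c - B ^ 2) (hEF : F = A ^ 2 * E) (hE0 : 0 ≤ E) (hA : 0 < A)
    (hc : -5 / 4 < c) : False := by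
  have h1 : 4 * c * (A ^ 2 * (A ^ 2 - 1)) = -A ^ 6 - 4 * A ^ 3 + 1 := by
    have h2 : 2 * A - 4 * c - B ^ 2 = A ^ 2 * (2 * B - 4 * c - A ^ 2) := by rw [← hE, ← hF, hEF]
    linear_combination (A ^ 2) * h2 + (2 * A ^ 3 + A * B - 1) * hAB
  have hpos : 0 < A ^ 4 - 2 * A ^ 3 + 2 * A + 1 := by
    have : A ^ 4 - 2 * A ^ 3 + 2 * A + 1 = (A ^ 2 - 1 - A) ^ 2 + A ^ 2 := by ring
    rw [this]
    positivity
  have hfac : A ^ 6 - 5 * A ^ 4 + 4 * A ^ 3 + 5 * A ^ 2 - 1 =
      (A ^ 2 + 2 * A - 1) * (A ^ 4 - 2 * A ^ 3 + 2 * A + 1) := by ring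
  have hkey : (4 * c + 5) * (A ^ 2 * (1 - A ^ 2)) =
      (A ^ 2 + 2 * A - 1) * (A ^ 4 - 2 * A ^ 3 + 2 * A + 1) := by
    rw [← hfac]
    linear_combination (-1) * h1
  have hA2 : 0 < A ^ 2 := by positivity
  have h45 : 0 < 4 * c + 5 := by linarith
  rcases lt_trichotomy A 1 with h | h | h
  · -- `0 < A < 1`
    have h3 : 0 < A ^ 2 * (1 - A ^ 2) := by
      have : A ^ 2 < 1 := pow_lt_one₀ hA.le h two_ne_zero
      exact mul_pos hA2 (by linarith)
    have h4 : 0 < (A ^ 2 + 2 * A - 1) * (A ^ 4 - 2 * A ^ 3 + 2 * A + 1) := by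
      rw [← hkey]
      exact mul_pos h45 h3
    have h5 : 0 < A ^ 2 + 2 * A - 1 := (mul_pos_iff_of_pos_right hpos).mp h4
    have h6 : 4 * c ≤ 2 * B - A ^ 2 := by linarith
    have h7 : (2 * B - A ^ 2) * (A ^ 2 * (1 - A ^ 2)) = (-2 * A - A ^ 4) * (1 - A ^ 2) := by
      linear_combination (2 * A * (1 - A ^ 2)) * hAB
    have h8 : 4 * c * (A ^ 2 * (1 - A ^ 2)) ≤ (-2 * A - A ^ 4) * (1 - A ^ 2) := by
      rw [← h7]
      exact mul_le_mul_of_nonneg_right h6 h3.le
    have h9 : (A ^ 2 + 1) * (A ^ 2 + 2 * A - 1) =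
        4 * c * (A ^ 2 * (1 - A ^ 2)) - (-2 * A - A ^ 4) * (1 - A ^ 2) := by
      linear_combination h1
    have h10 : 0 < (A ^ 2 + 1) * (A ^ 2 + 2 * A - 1) := by positivity
    linarith
  · rw [h] at h1
    norm_num at h1
  · have h3 : A ^ 2 * (1 - A ^ 2) < 0 := by
      have : 1 < A ^ 2 := one_lt_pow₀ h two_ne_zero
      exact mul_neg_of_pos_of_neg hA2 (by linarith)
    have h4 : (A ^ 2 + 2 * A - 1) * (A ^ 4 - 2 * A ^ 3 + 2 * A + 1) < 0 := by
      rw [← hkey]
      exact mul_neg_of_pos_of_neg h45 h3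
    have h5 : 0 < A ^ 2 + 2 * A - 1 := by linarith
    have h6 : 0 < (A ^ 2 + 2 * A - 1) * (A ^ 4 - 2 * A ^ 3 + 2 * A + 1) := mul_pos h5 hpos
    linarith

/-- the quotient of `f^4(x) - x` by `f^2(x) - x` -/
noncomputable def quot (c x : ℝ) : ℝ :=
  1 + (q c (q c x) + x) * (q c (q c (q c x)) + q c x)

theorem quot_mul (c x : ℝ) :
    q c (q c (q c (q c x))) - x = (q c (q c x) - x) * quot c x := by
  unfold quot q
  ring

theorem quot_ne_zero {c : ℝ} (hc : -5 / 4 < c) (x : ℝ) : quot c x ≠ 0 := by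
  intro h0
  have h1 := quot_mul c x
  rw [h0, mul_zero, sub_eq_zero] at h1
  obtain ⟨y, hy⟩ : ∃ y, y = q c x := ⟨_, rfl⟩
  obtain ⟨z, hz⟩ : ∃ z, z = q c y := ⟨_, rfl⟩
  obtain ⟨w, hw⟩ : ∃ w, w = q c z := ⟨_, rfl⟩
  unfold quot at h0
  rw [← hy, ← hz, ← hw] at h0 h1
  unfold q at hy hz hw h1
  have hAB : (x + z) * (y + w) = -1 := by linear_combination h0
  have hE : (x - z) ^ 2 = 2 * (y + w) - 4 * c - (x + z) ^ 2 := by
    linear_combination (-2) * hy + (-2) * hw
  have hF : (y - w) ^ 2 = 2 * (x + z) - 4 * c - (y + w) ^ 2 := by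
    linear_combination (-2) * hz + 2 * h1
  have hyw : y - w = (x - z) * (x + z) := by linear_combination hy - hw
  have hxz : z - x = (y - w) * (y + w) := by linear_combination hz + h1
  rcases lt_trichotomy (x + z) 0 with h | h | h
  · have hB : 0 < y + w := by
      by_contra hcon
      have := mul_nonneg_of_nonpos_of_nonpos h.le (not_lt.mp hcon)
      linarith
    refine four_cycle_algebra (A := y + w) (B := x + z) (E := (y - w) ^ 2) (F := (x - z) ^ 2)
      (by linarith [mul_comm (x + z) (y + w)]) hF hE ?_ (sq_nonneg _) hB hc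
    have : (x - z) ^ 2 = (z - x) ^ 2 := by ring
    rw [this, hxz]
    ring
  · rw [h, zero_mul] at hAB
    norm_num at hAB
  · refine four_cycle_algebra (A := x + z) (B := y + w) (E := (x - z) ^ 2) (F := (y - w) ^ 2)
      hAB hE hF ?_ (sq_nonneg _) h hc
    rw [hyw]
    ring

theorem continuous_q (c : ℝ) : Continuous (q c) := by
  unfold q
  fun_prop

theorem quot_pos {c : ℝ} (hc : -5 / 4 < c) (x : ℝ) : 0 < quot c x := by
  by_contra hcon
  push Not at hcon
  have hcont : Continuous (quot c) := by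
    unfold quot
    have := continuous_q c
    fun_prop
  set X := |x| + |c| + 2 with hX
  have hstep : ∀ t, X ≤ t → X ≤ q c t := by
    intro t ht
    unfold q
    have h1 : 0 ≤ |x| := abs_nonneg x
    have h2 : 0 ≤ |c| := abs_nonneg c
    have h3 : -|c| ≤ c := neg_abs_le c
    have h4 : X * 2 ≤ t * t := mul_le_mul ht (by linarith) (by norm_num) (by linarith)
    rw [pow_two]
    linarith
  have hX0 : 0 < X := by positivity
  have h1 : X ≤ q c X := hstep _ le_rfl
  have h2 := hstep _ h1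
  have h3 := hstep _ h2
  have hpos : 0 < quot c X := by
    unfold quot
    have h4 : 0 < q c (q c X) + X := by linarith
    have h5 : 0 < q c (q c (q c X)) + q c X := by linarith
    positivity
  have hxX : x ≤ X := by
    have := le_abs_self x
    have := abs_nonneg c
    linarith
  obtain ⟨t, -, ht⟩ := intermediate_value_Icc hxX hcont.continuousOn
    (show (0 : ℝ) ∈ Set.Icc (quot c x) (quot c X) from ⟨hcon, hpos.le⟩)
  exact quot_ne_zero hc t ht

theorem real_periodic {c : ℝ} (hc : -5 / 4 < c) {x : ℝ} {n : ℕ} (hn : 0 < n)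
    (hx : Function.IsPeriodicPt (q c) n x) : q c (q c x) = x := by
  have hcont : Continuous (fun x => q c (q c x)) := by
    have := continuous_q c
    fun_prop
  refine periodic_eq_of_sign (fun x => q c (q c x)) hcont ?_ hn ?_
  · intro t ht
    have h1 := quot_mul c t
    have h2 : 0 < (q c (q c t) - t) * quot c t := mul_pos (by linarith) (quot_pos hc t)
    rw [← h1] at h2
    linarith
  · have h1 : (fun x => q c (q c x)) = (q c)^[2] := by
      funext t
      rfl
    rw [h1]
    have h2 := hx.iterate 2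
    exact h2

theorem real_move (c : ℚ) (hc : -5 / 4 < c) (n : ℕ) (hn : 3 < n) :
    ∃ τ : ℂ ≃ₐ[ℚ] ℂ, ∀ y, DynPt (algebraMap ℚ ℂ c) n y → τ y ≠ y := by
  refine ⟨Complex.conjAe.restrictScalars ℚ, fun y hy hfix => ?_⟩
  rw [eq_ratCast] at hy
  have hfix' : (starRingEnd ℂ) y = y := hfix
  obtain ⟨x, rfl⟩ := Complex.conj_eq_iff_real.mp hfix'
  obtain ⟨hper, hor⟩ := hy
  have hcR : -5 / 4 < (c : ℝ) := by exact_mod_cast hc
  have hq : ∀ t : ℝ, q (c : ℂ) (t : ℂ) = ((q (c : ℝ) t : ℝ) : ℂ) := by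
    intro t
    unfold q
    push_cast
    rfl
  have hit : ∀ (i : ℕ) (t : ℝ), (q (c : ℂ))^[i] (t : ℂ) = (((q (c : ℝ))^[i] t : ℝ) : ℂ) := by
    intro i t
    induction i with
    | zero => rfl
    | succ i ih => rw [Function.iterate_succ_apply', ih, hq, Function.iterate_succ_apply']
  have hperR : ∀ m, Function.IsPeriodicPt (q (c : ℂ)) m (x : ℂ) ↔
      Function.IsPeriodicPt (q (c : ℝ)) m x := by
    intro m
    change (q (c : ℂ))^[m] (x : ℂ) = x ↔ (q (c : ℝ))^[m] x = x
    rw [hit, Complex.ofReal_inj]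
  have hn0 : 0 < n := by omega
  have h2 : q (c : ℝ) (q (c : ℝ) x) = x := real_periodic hcR hn0 ((hperR n).mp hper)
  have hper2 : Function.IsPeriodicPt (q (c : ℂ)) 2 (x : ℂ) := (hperR 2).mpr h2
  have hdvd : Function.minimalPeriod (q (c : ℂ)) (x : ℂ) ∣ 2 := hper2.minimalPeriod_dvd
  have hdn : Function.minimalPeriod (q (c : ℂ)) (x : ℂ) ∣ n := hper.minimalPeriod_dvd
  set m := Function.minimalPeriod (q (c : ℂ)) (x : ℂ) with hm
  have hm2 : m = 1 ∨ m = 2 := (Nat.dvd_prime Nat.prime_two).mp hdvd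
  rcases hor with h | h
  · omega
  · have hprodR : (∏ i ∈ Finset.range m, 2 * (q (c : ℂ))^[i] (x : ℂ)) =
        ((∏ i ∈ Finset.range m, 2 * (q (c : ℝ))^[i] x : ℝ) : ℂ) := by
      push_cast
      apply Finset.prod_congr rfl
      intro i _
      rw [hit]
    rw [hprodR] at h
    have h' : IsPrimitiveRoot (∏ i ∈ Finset.range m, 2 * (q (c : ℝ))^[i] x) (n / m) :=
      h.of_map_of_injective (f := Complex.ofRealHom) Complex.ofRealHom.injective
    set lam := ∏ i ∈ Finset.range m, 2 * (q (c : ℝ))^[i] x with hlam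
    have hmpos : 0 < m := by omega
    have hk : 0 < n / m := Nat.div_pos (Nat.le_of_dvd hn0 hdn) hmpos
    have habs : |lam| = 1 := by
      have h4 : |lam| ^ (n / m) = 1 := by rw [← abs_pow, h'.pow_eq_one, abs_one]
      exact (pow_eq_one_iff_of_nonneg (abs_nonneg _) hk.ne').mp h4
    have hsq : lam ^ 2 = 1 := by rw [← sq_abs, habs, one_pow]
    have hd2 : n / m ∣ 2 := h'.dvd_of_pow_eq_one 2 hsq
    have hle : n / m ≤ 2 := Nat.le_of_dvd (by norm_num) hd2
    have hnm : n = m * (n / m) := (Nat.mul_div_cancel' hdn).symm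
    rcases hm2 with h5 | h5
    · rw [h5, Nat.div_one] at hle
      omega
    · have hnm2 : n / m = 2 := by
        rw [h5] at hnm hle ⊢
        omega
      rw [hnm2] at h'
      have hlam1 : lam = -1 := by
        have h66 : (lam - 1) * (lam + 1) = 0 := by linear_combination hsq
        rcases mul_eq_zero.mp h66 with h6 | h6
        · exfalso
          replace h6 : lam = 1 := by linarith
          rw [h6] at h'
          have h7 := h'.dvd_of_pow_eq_one 1 (by norm_num)
          omega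
        · linarith
      have hq1 : lam = 4 * x * q (c : ℝ) x := by
        rw [hlam, h5]
        simp [Finset.prod_range_succ]
        ring
      have hpos := quot_pos hcR x
      have h8 : quot (c : ℝ) x = 1 + 4 * x * q (c : ℝ) x := by
        unfold quot
        rw [h2]
        ring
      rw [h8, ← hq1, hlam1] at hpos
      norm_num at hpos

end Pool.Agent.H9.Dyn
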