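import Mathlib
import Pool.Agent.H9.Dyn.Bad

/-!
# The prime two, `v_2(c) ≥ -1`
-/

open Polynomial

namespace Pool.Agent.H9.Dyn

theorem norm_two : ‖(2 : PadicAlgCl 2)‖ = 1 / 2 := by
  have h1 : (2 : PadicAlgCl 2) = algebraMap ℚ_[2] (PadicAlgCl 2) ((2 : ℕ) : ℚ_[2]) := by
    rw [map_natCast]; rfl
  rw [h1]
  have h2 := PadicAlgCl.norm_extends 2 ((2 : ℕ) : ℚ_[2])
  rw [h2, Padic.norm_p]
  norm_num

theorem norm_rat (p : ℕ) [Fact p.Prime] (c : ℚ) : ‖(c : PadicAlgCl p)‖ = ‖(c : ℚ_[p])‖ := by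
  have h1 : (c : PadicAlgCl p) = algebraMap ℚ_[p] (PadicAlgCl p) (c : ℚ_[p]) := by simp
  rw [h1]
  exact PadicAlgCl.norm_extends p (c : ℚ_[p])

section general

variable {K : Type*} [Field K]

theorem q_sub (c y z : K) : q c y - q c z = (y - z) * ((y - z) + 2 * z) := by
  unfold q; ring

theorem diff_step (c y : K) (k : ℕ) : (q c)^[k] (q c y) - q c y =
    ((q c)^[k] y - y) * (((q c)^[k] y - y) + 2 * y) := by
  rw [← Function.iterate_succ_apply, Function.iterate_succ_apply', q_sub]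

theorem iter_ne {c y : K} {n : ℕ} (hn : 0 < n) (k : ℕ) (hy : Function.IsPeriodicPt (q c) n y)
    (h : (q c)^[k] y ≠ y) : (q c)^[k] (q c y) ≠ q c y := by
  intro h1
  apply h
  have h2 : Function.IsPeriodicPt (q c) k (q c y) := h1
  have h3 := h2.apply_iterate (n - 1)
  rw [← Function.iterate_succ_apply, Nat.succ_eq_add_one, Nat.sub_add_cancel hn, hy.eq] at h3
  exact h3

end general

/-- `‖2y‖ < 1` for periodic `y` if `‖c‖ ≤ 2` -/
theorem norm_two_mul {c y : PadicAlgCl 2} (hc : ‖c‖ ≤ 2) {n : ℕ} (hn : 0 < n)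
    (hy : Function.IsPeriodicPt (q c) n y) : ‖2 * y‖ ≤ 3 / 4 := by
  refine not_escape hn hy (fun z => ‖2 * z‖) (3 / 4) fun z hz => ?_
  have h1 : 2 * (2 * q c z) = (2 * z) ^ 2 + 2 * (2 * c) := by unfold q; ring
  have h2 : ‖2 * (2 * c)‖ ≤ 1 / 2 := by
    rw [norm_mul, norm_mul, norm_two]
    linarith
  have h3 : 1 / 2 < ‖(2 * z) ^ 2‖ := by
    rw [norm_pow]
    nlinarith
  have h4 : ‖2 * (2 * q c z)‖ = ‖(2 * z) ^ 2‖ := by
    rw [h1, IsUltrametricDist.norm_add_eq_max_of_norm_ne_norm]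
    · exact max_eq_left (by linarith)
    · linarith
  rw [norm_mul, norm_two, norm_pow] at h4
  nlinarith

theorem norm_diff {c y : PadicAlgCl 2} (hc : ‖c‖ ≤ 2) {n : ℕ} (hn : 0 < n)
    (hy : Function.IsPeriodicPt (q c) n y) (k : ℕ) (hk : (q c)^[k] y ≠ y) :
    ‖(q c)^[k] y - y‖ = 1 := by
  have hinv : ∀ z, (Function.IsPeriodicPt (q c) n z ∧ (q c)^[k] z ≠ z) →
      (Function.IsPeriodicPt (q c) n (q c z) ∧ (q c)^[k] (q c z) ≠ q c z) :=
    fun z hz => ⟨IsPeriodicPt_q hz.1, iter_ne hn k hz.1 hz.2⟩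
  apply le_antisymm
  · refine not_escape' hn hy (fun z => Function.IsPeriodicPt (q c) n z ∧ (q c)^[k] z ≠ z)
      ⟨hy, hk⟩ hinv (fun z => ‖(q c)^[k] z - z‖) 1 fun z hz h1 => ?_
    have h2 := norm_two_mul hc hn hz.1
    rw [diff_step, norm_mul, IsUltrametricDist.norm_add_eq_max_of_norm_ne_norm (by linarith),
      max_eq_left (by linarith)]
    nlinarith
  · have h3 := not_escape' hn hy (fun z => Function.IsPeriodicPt (q c) n z ∧ (q c)^[k] z ≠ z)
      ⟨hy, hk⟩ hinv (fun z => -‖(q c)^[k] z - z‖) (-1) fun z hz h1 => ?_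
    · linarith
    · have h2 := norm_two_mul hc hn hz.1
      have h4 : 0 < ‖(q c)^[k] z - z‖ := norm_pos_iff.mpr (sub_ne_zero.mpr hz.2)
      have h5 : ‖(q c)^[k] z - z + 2 * z‖ < 1 :=
        (IsUltrametricDist.norm_add_le_max _ _).trans_lt (max_lt (by linarith) (by linarith))
      rw [diff_step, norm_mul]
      nlinarith

/-- For `‖c‖_2 ≤ 2` and `n ≥ 3`, Frobenius at two moves all the roots. -/
theorem two_move_A (c : ℚ) (hc : ‖(c : ℚ_[2])‖ ≤ 2) (n : ℕ) (hn : 3 ≤ n) :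
    ∃ τ : PadicAlgCl 2 ≃ₐ[ℚ] PadicAlgCl 2, ∀ y, DynPt (algebraMap ℚ (PadicAlgCl 2) c) n y →
      τ y ≠ y := by
  have hn0 : 0 < n := by omega
  rw [eq_ratCast]
  rw [← norm_rat] at hc
  obtain ⟨τ, hτ⟩ := exists_frobenius 2 {y : PadicAlgCl 2 | DynPt (c : PadicAlgCl 2) n y}
    (finite_dynPt _ hn0)
  refine ⟨toRat τ, fun y hy hfix => ?_⟩
  rw [toRat_apply] at hfix
  set M := IntermediateField.adjoin ℚ_[2] {y : PadicAlgCl 2 | DynPt (c : PadicAlgCl 2) n y} with hM
  have hcM : (c : PadicAlgCl 2) ∈ M := by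
    have h1 : (c : PadicAlgCl 2) = algebraMap ℚ_[2] (PadicAlgCl 2) (c : ℚ_[2]) := by simp
    rw [h1]
    exact IntermediateField.algebraMap_mem _ _
  have hcfix : τ (c : PadicAlgCl 2) = c := map_ratCast τ c
  have hiter : ∀ i, (q (c : PadicAlgCl 2))^[i] y ∈ M ∧
      τ ((q (c : PadicAlgCl 2))^[i] y) = (q (c : PadicAlgCl 2))^[i] y := by
    intro i
    induction i with
    | zero => exact ⟨IntermediateField.subset_adjoin _ _ hy, hfix⟩
    | succ i ih =>
      rw [Function.iterate_succ_apply']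
      refine ⟨add_mem (pow_mem ih.1 2) hcM, ?_⟩
      unfold q at ih ⊢
      rw [map_add, map_pow, ih.2, hcfix]
  have hper := hy.1
  -- the period is at most two
  have h2 : (q (c : PadicAlgCl 2))^[2] y = y := by
    by_contra hne
    have h1ne : (q (c : PadicAlgCl 2))^[1] y ≠ y := by
      intro h1
      apply hne
      have h2 : Function.IsPeriodicPt (q (c : PadicAlgCl 2)) (1 * 2) y :=
        Function.IsPeriodicPt.mul_const h1 2
      exact h2
    have hone : ∀ z, Function.IsPeriodicPt (q (c : PadicAlgCl 2)) n z → z ∈ M → τ z = z →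
        (q (c : PadicAlgCl 2))^[1] z ≠ z → ‖((q (c : PadicAlgCl 2))^[1] z - z) - 1‖ < 1 := by
      intro z hz hzM hzfix hzne
      have h1 := norm_diff hc hn0 hz 1 hzne
      have h3 : (q (c : PadicAlgCl 2))^[1] z - z ∈ M :=
        sub_mem (add_mem (pow_mem hzM 2) hcM) hzM
      have h4 : τ ((q (c : PadicAlgCl 2))^[1] z - z) = (q (c : PadicAlgCl 2))^[1] z - z := by
        change τ ((z ^ 2 + (c : PadicAlgCl 2)) - z) = (z ^ 2 + (c : PadicAlgCl 2)) - z
        rw [map_sub, map_add, map_pow, hzfix, hcfix]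
      have h5 := hτ _ h3 h1.le
      rw [h4] at h5
      have h6 : ((q (c : PadicAlgCl 2))^[1] z - z) - ((q (c : PadicAlgCl 2))^[1] z - z) ^ 2 =
          -(((q (c : PadicAlgCl 2))^[1] z - z) * (((q (c : PadicAlgCl 2))^[1] z - z) - 1)) := by
        ring
      rw [h6, norm_neg, norm_mul, h1, one_mul] at h5
      exact h5
    have ha := hone y hper (hiter 0).1 hfix h1ne
    have hb := hone (q (c : PadicAlgCl 2) y) (IsPeriodicPt_q hper) (hiter 1).1 (hiter 1).2
      (iter_ne hn0 1 hper h1ne)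
    have hd := norm_diff hc hn0 hper 2 hne
    have he : (q (c : PadicAlgCl 2))^[2] y - y =
        (((q (c : PadicAlgCl 2))^[1] y - y) - 1) +
        ((((q (c : PadicAlgCl 2))^[1] (q (c : PadicAlgCl 2) y) - q (c : PadicAlgCl 2) y) - 1) + 2) := by
      simp only [Function.iterate_succ_apply, Function.iterate_zero, id]
      ring
    have h7 : ‖(q (c : PadicAlgCl 2))^[2] y - y‖ < 1 := by
      rw [he]
      refine (IsUltrametricDist.norm_add_le_max _ _).trans_lt (max_lt ha ?_)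
      refine (IsUltrametricDist.norm_add_le_max _ _).trans_lt (max_lt hb ?_)
      rw [norm_two]; norm_num
    rw [hd] at h7
    exact lt_irrefl _ h7
  have hle : Function.minimalPeriod (q (c : PadicAlgCl 2)) y ≤ 2 :=
    Function.IsPeriodicPt.minimalPeriod_le two_pos h2
  rcases hy.2 with h3 | h3
  · omega
  · set m := Function.minimalPeriod (q (c : PadicAlgCl 2)) y with hm
    have norm_eq_one_of_pow_eq_one : ∀ {ζ : PadicAlgCl 2} {k : ℕ}, ζ ^ k = 1 → k ≠ 0 → ‖ζ‖ = 1 := by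
      intro ζ k h hk
      have := congrArg norm h
      rw [norm_pow, norm_one] at this
      exact (pow_eq_one_iff_of_nonneg (norm_nonneg _) hk).mp this
    have hm0 : 0 < m := hper.minimalPeriod_pos hn0
    have hmn : m ∣ n := hper.minimalPeriod_dvd
    have hq0 : n / m ≠ 0 := (Nat.div_pos (Nat.le_of_dvd hn0 hmn) hm0).ne'
    have h4 : ‖∏ i ∈ Finset.range m, 2 * (q (c : PadicAlgCl 2))^[i] y‖ = 1 :=
      norm_eq_one_of_pow_eq_one h3.pow_eq_one hq0
    have hle1 : ∀ i, ‖2 * (q (c : PadicAlgCl 2))^[i] y‖ ≤ 3 / 4 := by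
      intro i
      apply norm_two_mul hc hn0
      have := hper.apply_iterate i
      exact this
    rw [norm_prod] at h4
    have h5 : ∏ i ∈ Finset.range m, ‖2 * (q (c : PadicAlgCl 2))^[i] y‖ ≤
        ∏ i ∈ Finset.range m, (3 / 4 : ℝ) :=
      Finset.prod_le_prod (fun _ _ => norm_nonneg _) fun i _ => hle1 i
    rw [h4, Finset.prod_const, Finset.card_range] at h5
    have h6 : (3 / 4 : ℝ) ^ m < 1 := pow_lt_one₀ (by norm_num) (by norm_num) hm0.ne'
    linarith

end Pool.Agent.H9.Dyn
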