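import Mathlib
import Pool.Agent.H9.Dyn.TwoA

/-!
# The prime two, `v_2(c) = -2`
-/

open Polynomial

namespace Pool.Agent.H9.Dyn

section general

variable {p : ℕ} [hp : Fact p.Prime]

theorem key_sum' {c y : PadicAlgCl p} (M N : ℕ) (u : ℕ → ZMod p)
    (hper : Function.IsPeriodicPt (q c) (M * N) y) (hne : (q c)^[M] y ≠ y)
    (hred : ∀ j, ∀ i < M, Red ((q c)^[i] ((q c)^[M * (j + 1)] y) + (q c)^[i] ((q c)^[M * j] y))
      (u i)) :
    ∑ j ∈ Finset.range N, (∏ i ∈ Finset.range M, u i) ^ j = 0 := by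
  set Y : ℕ → PadicAlgCl p := fun j => (q c)^[M * j] y with hY
  set U : ℕ → PadicAlgCl p := fun j =>
    ∏ i ∈ Finset.range M, ((q c)^[i] (Y (j + 1)) + (q c)^[i] (Y j)) with hU
  have hstep : ∀ j, Y (j + 1) = (q c)^[M] (Y j) := by
    intro j
    simp only [hY]
    rw [← Function.iterate_add_apply, mul_add, mul_one, add_comm]
  have hD : ∀ j, Y (j + 1) - Y j = (Y 1 - Y 0) * ∏ i ∈ Finset.range j, U i := by
    intro j
    induction j with
    | zero => simp
    | succ j ih =>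
      rw [Finset.prod_range_succ, ← mul_assoc, ← ih, hstep (j + 1)]
      nth_rewrite 2 [hstep j]
      exact iterate_sub c _ _ M
  have hredU : ∀ j, Red (U j) (∏ i ∈ Finset.range M, u i) := by
    intro j
    exact red_prod _ _ _ fun i hi => hred j i (Finset.mem_range.mp hi)
  have hD0 : Y 1 - Y 0 ≠ 0 := by
    simp only [hY, mul_one, mul_zero, Function.iterate_zero, id]
    exact sub_ne_zero.mpr hne
  have hsum : ∑ j ∈ Finset.range N, (Y (j + 1) - Y j) = 0 := by
    rw [Finset.sum_range_sub]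
    simp only [hY, mul_zero, Function.iterate_zero, id]
    rw [hper.eq, sub_self]
  have hsum2 : ∑ j ∈ Finset.range N, ∏ i ∈ Finset.range j, U i = 0 := by
    rw [Finset.sum_congr rfl fun j _ => hD j, ← Finset.mul_sum] at hsum
    exact (mul_eq_zero.mp hsum).resolve_left hD0
  have hred : Red (∑ j ∈ Finset.range N, ∏ i ∈ Finset.range j, U i)
      (∑ j ∈ Finset.range N, (∏ i ∈ Finset.range M, u i) ^ j) := by
    refine red_sum _ _ _ fun j _ => ?_
    have h1 := red_prod (Finset.range j) U (fun _ => ∏ i ∈ Finset.range M, u i)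
      fun i _ => hredU i
    rwa [Finset.prod_const, Finset.card_range] at h1
  rw [hsum2] at hred
  exact hred.unique red_zero

end general

theorem norm_two_mul_B {c y : PadicAlgCl 2} (hc : ‖c‖ = 4) {n : ℕ} (hn : 0 < n)
    (hy : Function.IsPeriodicPt (q c) n y) : ‖2 * y‖ ≤ 1 := by
  refine not_escape hn hy (fun z => ‖2 * z‖) 1 fun z hz => ?_
  have h1 : 2 * (2 * q c z) = (2 * z) ^ 2 + 2 * (2 * c) := by unfold q; ring
  have h2 : ‖2 * (2 * c)‖ = 1 := by
    rw [norm_mul, norm_mul, norm_two, hc]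
    norm_num
  have h3 : 1 < ‖(2 * z) ^ 2‖ := by
    rw [norm_pow]
    nlinarith
  have h4 : ‖2 * (2 * q c z)‖ = ‖(2 * z) ^ 2‖ := by
    rw [h1, IsUltrametricDist.norm_add_eq_max_of_norm_ne_norm]
    · exact max_eq_left (by linarith)
    · linarith
  rw [norm_mul, norm_two, norm_pow] at h4
  nlinarith

theorem red_zero_iff {p : ℕ} [hp : Fact p.Prime] (z : PadicAlgCl p) : Red z (0 : ZMod p) ↔ ‖z‖ < 1 := by
  constructor
  · rintro ⟨k, hk, hz⟩
    have h1 : ‖(k : PadicAlgCl p)‖ < 1 := by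
      rw [norm_intCast_lt_iff]
      exact (ZMod.intCast_zmod_eq_zero_iff_dvd _ p).mp hk
    have h2 : z = (z - k) + k := by ring
    rw [h2]
    exact (IsUltrametricDist.norm_add_le_max _ _).trans_lt (max_lt hz h1)
  · intro h
    exact ⟨0, by simp, by simpa using h⟩

theorem red_padic {p : ℕ} [hp : Fact p.Prime] (x : ℚ_[p]) (hx : ‖x‖ ≤ 1) :
    ∃ a, Red (algebraMap ℚ_[p] (PadicAlgCl p) x) a := by
  set z : ℤ_[p] := ⟨x, hx⟩ with hz
  obtain ⟨k, hk⟩ := ZMod.intCast_surjective (PadicInt.toZMod z)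
  refine ⟨PadicInt.toZMod z, k, hk, ?_⟩
  have h1 : ‖z - k‖ < 1 := by
    rw [← PadicInt.mem_nonunits, ← IsLocalRing.mem_maximalIdeal, ← PadicInt.ker_toZMod,
      RingHom.mem_ker, map_sub, map_intCast, hk, sub_self]
  have h2 : algebraMap ℚ_[p] (PadicAlgCl p) x - (k : PadicAlgCl p) =
      algebraMap ℚ_[p] (PadicAlgCl p) (x - k) := by simp
  rw [h2]
  have h3 := PadicAlgCl.norm_extends p (x - k)
  rw [h3]
  exact h1

theorem zmod_two_eq_one {a : ZMod 2} (h : a ≠ 0) : a = 1 := by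
  revert h; revert a; decide

theorem red_unit_two (x : ℚ_[2]) (hx : ‖x‖ = 1) :
    Red (algebraMap ℚ_[2] (PadicAlgCl 2) x) (1 : ZMod 2) := by
  obtain ⟨a, ha⟩ := red_padic x hx.le
  have h1 : a ≠ 0 := by
    rintro rfl
    rw [red_zero_iff] at ha
    have h2 := PadicAlgCl.norm_extends 2 x
    rw [h2, hx] at ha
    exact lt_irrefl _ ha
  rwa [zmod_two_eq_one h1] at ha

/-- if `z² ≡ 1` then `z ≡ 1` (residue characteristic two) -/
theorem red_one_of_sq {z : PadicAlgCl 2} (hz : ‖z‖ ≤ 1) (h : Red (z ^ 2) (1 : ZMod 2)) :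
    Red z (1 : ZMod 2) := by
  have h1 : ‖z ^ 2 - 1‖ < 1 := by
    have h2 := h.add (red_intCast (p := 2) (-1))
    rw [show ((1 : ZMod 2) + ((-1 : ℤ) : ZMod 2)) = 0 by decide, red_zero_iff] at h2
    simpa [sub_eq_add_neg] using h2
  refine ⟨1, by simp, ?_⟩
  have h2 : (z - 1) ^ 2 = (z ^ 2 - 1) + 2 * (1 - z) := by ring
  have h3 : ‖1 - z‖ ≤ 1 := by
    rw [sub_eq_add_neg]
    refine (IsUltrametricDist.norm_add_le_max _ _).trans (max_le norm_one.le ?_)
    rwa [norm_neg]
  have h4 : ‖(z - 1) ^ 2‖ < 1 := by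
    rw [h2]
    refine (IsUltrametricDist.norm_add_le_max _ _).trans_lt (max_lt h1 ?_)
    rw [norm_mul, norm_two]
    linarith
  rw [norm_pow] at h4
  rw [Int.cast_one]
  exact (pow_lt_one_iff_of_nonneg (norm_nonneg _) two_ne_zero).mp h4

theorem red_two_mul_B {c : ℚ} (hc : ‖(c : PadicAlgCl 2)‖ = 4) {y : PadicAlgCl 2} {n : ℕ}
    (hn : 0 < n) (hy : Function.IsPeriodicPt (q (c : PadicAlgCl 2)) n y) :
    Red (2 * y) (1 : ZMod 2) := by
  have h1 := norm_two_mul_B hc hn hy
  have h2 := norm_two_mul_B hc hn (IsPeriodicPt_q hy)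
  have h3 : Red (4 * (c : PadicAlgCl 2)) (1 : ZMod 2) := by
    have h4 : (4 * (c : PadicAlgCl 2)) = algebraMap ℚ_[2] (PadicAlgCl 2) (4 * (c : ℚ_[2])) := by
      rw [map_mul, map_ofNat, map_ratCast]
    rw [h4]
    apply red_unit_two
    rw [norm_mul, ← norm_rat, hc]
    have h5 : (4 : ℚ_[2]) = (2 : ℕ) * (2 : ℕ) := by norm_num
    rw [h5, norm_mul, Padic.norm_p]
    norm_num
  apply red_one_of_sq h1
  have h4 : (2 * y) ^ 2 = 2 * (2 * q (c : PadicAlgCl 2) y) + ((-1 : ℤ) : PadicAlgCl 2) * (4 * c) := by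
    unfold q; push_cast; ring
  rw [h4]
  have h5 : Red (2 * (2 * q (c : PadicAlgCl 2) y)) (0 : ZMod 2) := by
    rw [red_zero_iff, norm_mul, norm_two]
    linarith
  have h6 := h5.add ((red_intCast (p := 2) (-1)).mul h3)
  rwa [show ((0 : ZMod 2) + ((-1 : ℤ) : ZMod 2) * 1) = 1 by decide] at h6

theorem norm_diff_B {c : ℚ} (hc : ‖(c : PadicAlgCl 2)‖ = 4) {y : PadicAlgCl 2} {n : ℕ}
    (hn : 0 < n) (hy : Function.IsPeriodicPt (q (c : PadicAlgCl 2)) n y) (k : ℕ) :
    ‖(q (c : PadicAlgCl 2))^[k] y - y‖ ≤ 1 := by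
  refine not_escape' hn hy (fun z => Function.IsPeriodicPt (q (c : PadicAlgCl 2)) n z)
    hy (fun z hz => IsPeriodicPt_q hz) (fun z => ‖(q (c : PadicAlgCl 2))^[k] z - z‖) 1
    fun z hz h1 => ?_
  have h2 := norm_two_mul_B hc hn hz
  rw [diff_step, norm_mul, IsUltrametricDist.norm_add_eq_max_of_norm_ne_norm (by linarith),
    max_eq_left (by linarith)]
  nlinarith

/-- For `‖c‖_2 = 4` and `n` not a power of two, Frobenius at two moves all the roots. -/
theorem two_move_B (c : ℚ) (hc : ‖(c : ℚ_[2])‖ = 4) (n : ℕ) (hn : 0 < n)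
    (hn2 : ∀ e, n ≠ 2 ^ e) :
    ∃ τ : PadicAlgCl 2 ≃ₐ[ℚ] PadicAlgCl 2, ∀ y, DynPt (algebraMap ℚ (PadicAlgCl 2) c) n y →
      τ y ≠ y := by
  rw [eq_ratCast]
  rw [← norm_rat] at hc
  obtain ⟨τ, hτ⟩ := exists_frobenius 2 {y : PadicAlgCl 2 | DynPt (c : PadicAlgCl 2) n y}
    (finite_dynPt _ hn)
  refine ⟨toRat τ, fun y hy hfix => ?_⟩
  rw [toRat_apply] at hfix
  set M := IntermediateField.adjoin ℚ_[2] {y : PadicAlgCl 2 | DynPt (c : PadicAlgCl 2) n y} with hM
  have hcM : (c : PadicAlgCl 2) ∈ M := by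
    have h1 : (c : PadicAlgCl 2) = algebraMap ℚ_[2] (PadicAlgCl 2) (c : ℚ_[2]) := by simp
    rw [h1]
    exact IntermediateField.algebraMap_mem _ _
  have hcfix : τ (c : PadicAlgCl 2) = c := map_ratCast τ c
  have hiter' : ∀ z, (z ∈ M ∧ τ z = z) → ∀ i, (q (c : PadicAlgCl 2))^[i] z ∈ M ∧
      τ ((q (c : PadicAlgCl 2))^[i] z) = (q (c : PadicAlgCl 2))^[i] z := by
    intro z hz i
    induction i with
    | zero => exact hz
    | succ i ih =>
      rw [Function.iterate_succ_apply']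
      refine ⟨add_mem (pow_mem ih.1 2) hcM, ?_⟩
      unfold q at ih ⊢
      rw [map_add, map_pow, ih.2, hcfix]
  have hyM : y ∈ M ∧ τ y = y := ⟨IntermediateField.subset_adjoin _ _ hy, hfix⟩
  have hper := hy.1
  -- differences reduce to zero
  have hE : ∀ z, Function.IsPeriodicPt (q (c : PadicAlgCl 2)) n z → (z ∈ M ∧ τ z = z) → ∀ k,
      Red ((q (c : PadicAlgCl 2))^[k] z - z) (0 : ZMod 2) := by
    have hex : ∀ z, Function.IsPeriodicPt (q (c : PadicAlgCl 2)) n z → (z ∈ M ∧ τ z = z) → ∀ k,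
        ∃ a, Red ((q (c : PadicAlgCl 2))^[k] z - z) (a : ZMod 2) := by
      intro z hz hzM k
      have h1 := norm_diff_B hc hn hz k
      have h2 := hiter' z hzM k
      have h3 := hτ _ (sub_mem h2.1 hzM.1) h1
      rw [map_sub, h2.2, hzM.2] at h3
      exact exists_red h1 h3
    intro z hz hzM k
    -- one step later
    have hstep : ∀ w, Function.IsPeriodicPt (q (c : PadicAlgCl 2)) n w → (w ∈ M ∧ τ w = w) →
        Red ((q (c : PadicAlgCl 2))^[k] (q (c : PadicAlgCl 2) w) - q (c : PadicAlgCl 2) w)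
          (0 : ZMod 2) := by
      intro w hw hwM
      obtain ⟨a, ha⟩ := hex w hw hwM k
      have h1 := ha.mul (ha.add (red_two_mul_B hc hn hw))
      rw [← diff_step] at h1
      have h2 : ∀ a : ZMod 2, a * (a + 1) = 0 := by decide
      rwa [h2 a] at h1
    have h1 := hstep ((q (c : PadicAlgCl 2))^[n - 1] z) (hz.apply_iterate (n - 1)) (hiter' z hzM _)
    rwa [← Function.iterate_succ_apply' (q (c : PadicAlgCl 2)), Nat.succ_eq_add_one,
      Nat.sub_add_cancel hn, hz.eq] at h1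
  set n' := Function.minimalPeriod (q (c : PadicAlgCl 2)) y with hn'
  have hn'0 : 0 < n' := hper.minimalPeriod_pos hn
  obtain ⟨t, ht⟩ : n' ∣ n := hper.minimalPeriod_dvd
  have ht0 : 0 < t := Nat.pos_of_ne_zero fun h0 => by rw [h0, mul_zero] at ht; omega
  have key := geom_comb_two 2 1 n' t hn'0 ht0 ?_ ?_
  · rw [← ht] at key
    rcases key with h1 | ⟨-, e, h1⟩
    · exact hn2 0 (by rw [h1, pow_zero])
    · exact hn2 e (by rw [h1, orderOf_one, one_mul])
  · intro M' hM'N hlt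
    have hM0 : 0 < M' := Nat.pos_of_dvd_of_pos hM'N hn'0
    have h1 := key_sum' (c := (c : PadicAlgCl 2)) (y := y) M' (n' / M') (fun _ => (1 : ZMod 2))
      (by rw [Nat.mul_div_cancel' hM'N]; exact Function.isPeriodicPt_minimalPeriod _ y)
      (fun h => absurd (Function.IsPeriodicPt.minimalPeriod_le hM0 h) (not_le.mpr hlt)) ?_
    · simpa using h1
    · intro j i _
      have h2 : (q (c : PadicAlgCl 2))^[i] ((q (c : PadicAlgCl 2))^[M' * (j + 1)] y) =
          (q (c : PadicAlgCl 2))^[M'] ((q (c : PadicAlgCl 2))^[i + M' * j] y) := by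
        rw [← Function.iterate_add_apply, ← Function.iterate_add_apply]
        congr 1
        ring
      have h3 : (q (c : PadicAlgCl 2))^[i] ((q (c : PadicAlgCl 2))^[M' * j] y) =
          (q (c : PadicAlgCl 2))^[i + M' * j] y := by
        rw [← Function.iterate_add_apply]
      rw [h2, h3]
      have hz := hper.apply_iterate (i + M' * j)
      have h4 := hE _ hz (hiter' y hyM _) M'
      have h5 := h4.add (red_two_mul_B hc hn hz)
      rw [zero_add] at h5
      convert h5 using 1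
      ring
  · intro M' hM't hlt
    have hM0 : 0 < M' := Nat.pos_of_dvd_of_pos hM't ht0
    have hn't : n / n' = t := by rw [ht]; exact Nat.mul_div_cancel_left t hn'0
    have hprim : IsPrimitiveRoot (∏ i ∈ Finset.range n', 2 * (q (c : PadicAlgCl 2))^[i] y) t := by
      rcases hy.2 with h1 | h1
      · have : t = 1 := by
          rw [← hn'] at h1
          rw [h1] at ht
          exact (Nat.mul_eq_left hn.ne').mp ht.symm
        omega
      · rwa [← hn', hn't] at h1
    set Λ := ∏ i ∈ Finset.range n', 2 * (q (c : PadicAlgCl 2))^[i] y with hΛ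
    have hΛred : Red Λ (1 : ZMod 2) := by
      have h1 := red_prod (Finset.range n') (fun i => 2 * (q (c : PadicAlgCl 2))^[i] y)
        (fun _ => (1 : ZMod 2)) fun i _ => red_two_mul_B hc hn (hper.apply_iterate i)
      simpa using h1
    have hne : Λ ^ M' ≠ 1 := hprim.pow_ne_one_of_pos_of_lt hM0.ne' hlt
    have hsum : ∑ j ∈ Finset.range (t / M'), (Λ ^ M') ^ j = 0 := by
      have h1 := geom_sum_mul (Λ ^ M') (t / M')
      rw [← pow_mul, Nat.mul_div_cancel' hM't, hprim.pow_eq_one, sub_self] at h1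
      exact (mul_eq_zero.mp h1).resolve_right (sub_ne_zero.mpr hne)
    have h2 : Red (∑ j ∈ Finset.range (t / M'), (Λ ^ M') ^ j)
        (∑ j ∈ Finset.range (t / M'), (((1 : ZMod 2) ^ n') ^ M') ^ j) := by
      refine red_sum _ _ _ fun j _ => ?_
      have := (hΛred.pow M').pow j
      simpa using this
    rw [hsum] at h2
    exact h2.unique red_zero

end Pool.Agent.H9.Dyn
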