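import Mathlib
import Pool.Agent.H9.Dyn.TwoB

/-!
# The prime two, `v_2(c) = -3`
-/

open Polynomial

namespace Pool.Agent.H9.Dyn

theorem padic_norm_zpow (x : ℚ_[2]) (hx : x ≠ 0) : ∃ k : ℤ, ‖x‖ = 2 ^ k := by
  refine ⟨-x.valuation, ?_⟩
  rw [Padic.norm_eq_zpow_neg_valuation hx]
  norm_num

theorem zpow_two_inj {a b : ℤ} (h : (2 : ℝ) ^ a = 2 ^ b) : a = b :=
  zpow_right_injective₀ two_pos (by norm_num) h

theorem norm_alg (x : ℚ_[2]) : ‖algebraMap ℚ_[2] (PadicAlgCl 2) x‖ = ‖x‖ :=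
  PadicAlgCl.norm_extends 2 x

/-- norms of elements of `ℚ_2(b)`, `‖b‖² = 8` -/
theorem norm_quadratic (b : PadicAlgCl 2) (hb : ‖b‖ ^ 2 = 8) (u v : ℚ_[2])
    (h : ‖algebraMap _ _ u + algebraMap _ _ v * b‖ ^ 4 = 1 / 8) : False := by
  have key : ∀ a : ℤ, (2 : ℝ) ^ (2 * a) ≠ 1 / 8 := by
    intro a ha
    have h1 : (2 : ℝ) ^ (2 * a) = 2 ^ (-3 : ℤ) := by rw [ha]; norm_num
    have := zpow_two_inj h1
    omega
  by_cases hu : u = 0
  · subst hu
    rw [map_zero, zero_add, norm_mul, mul_pow, norm_alg] at h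
    by_cases hv : v = 0
    · subst hv
      simp at h
    · obtain ⟨k, hk⟩ := padic_norm_zpow v hv
      apply key (2 * k + 3)
      rw [← h, hk]
      have h2 : ‖b‖ ^ 4 = 64 := by
        have : ‖b‖ ^ 4 = (‖b‖ ^ 2) ^ 2 := by ring
        rw [this, hb]; norm_num
      rw [h2, ← zpow_natCast, ← zpow_mul, mul_add, zpow_add₀ two_ne_zero]
      norm_num
      ring_nf
  · obtain ⟨k, hk⟩ := padic_norm_zpow u hu
    by_cases hv : v = 0
    · subst hv
      rw [map_zero, zero_mul, add_zero, norm_alg, hk] at h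
      apply key (2 * k)
      rw [← h, ← zpow_natCast, ← zpow_mul]
      congr 1
      push_cast
      ring
    · obtain ⟨l, hl⟩ := padic_norm_zpow v hv
      have h8 : ‖b‖ ^ 4 = 64 := by
        have : ‖b‖ ^ 4 = (‖b‖ ^ 2) ^ 2 := by ring
        rw [this, hb]; norm_num
      have hne : ‖algebraMap ℚ_[2] (PadicAlgCl 2) u‖ ≠ ‖algebraMap ℚ_[2] (PadicAlgCl 2) v * b‖ := by
        intro h1
        rw [norm_mul, norm_alg, norm_alg, hk, hl] at h1
        have h2 := congrArg (fun x => x ^ 2) h1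
        rw [mul_pow, hb, ← zpow_natCast, ← zpow_natCast, ← zpow_mul, ← zpow_mul] at h2
        have h3 : (2 : ℝ) ^ (k * ((2 : ℕ) : ℤ)) = 2 ^ (l * ((2 : ℕ) : ℤ) + 3) := by
          rw [h2, zpow_add₀ two_ne_zero]
          norm_num
        have := zpow_two_inj h3
        push_cast at this
        omega
      rw [IsUltrametricDist.norm_add_eq_max_of_norm_ne_norm hne] at h
      rcases max_choice ‖algebraMap ℚ_[2] (PadicAlgCl 2) u‖
        ‖algebraMap ℚ_[2] (PadicAlgCl 2) v * b‖ with h1 | h1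
      · rw [h1, norm_alg, hk] at h
        apply key (2 * k)
        rw [← h, ← zpow_natCast, ← zpow_mul]
        congr 1
        push_cast
        ring
      · rw [h1, norm_mul, mul_pow, norm_alg, hl, h8] at h
        apply key (2 * l + 3)
        rw [← h, ← zpow_natCast, ← zpow_mul, mul_add, zpow_add₀ two_ne_zero]
        norm_num
        ring_nf

theorem eq_of_ne_two {x y : PadicAlgCl 2} {r : PadicAlgCl 2} (h : y - x = 2 * r)
    (hne : ‖x‖ ≠ ‖y‖) : ‖x‖ * ‖y‖ ≤ (‖r‖ / 2) ^ 2 := by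
  have h1 : ‖2 * r‖ = max ‖y‖ ‖x‖ := by
    rw [← h, sub_eq_add_neg, IsUltrametricDist.norm_add_eq_max_of_norm_ne_norm, norm_neg]
    rw [norm_neg]
    exact hne.symm
  rw [norm_mul, norm_two] at h1
  have h2 : ‖y‖ ≤ ‖r‖ / 2 := by linarith [le_max_left ‖y‖ ‖x‖]
  have h3 : ‖x‖ ≤ ‖r‖ / 2 := by linarith [le_max_right ‖y‖ ‖x‖]
  nlinarith [norm_nonneg x, norm_nonneg y]

/-- `v_2(c) = -3`: a suitable element of the decomposition group at two moves all the periodic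
points. -/
theorem two_move_C (c : ℚ) (hc : ‖(c : ℚ_[2])‖ = 8) (n : ℕ) (hn : 0 < n) :
    ∃ τ : PadicAlgCl 2 ≃ₐ[ℚ] PadicAlgCl 2, ∀ y, DynPt (algebraMap ℚ (PadicAlgCl 2) c) n y →
      τ y ≠ y := by
  rw [eq_ratCast]
  rw [← norm_rat] at hc
  obtain ⟨b, hb⟩ := IsAlgClosed.exists_pow_nat_eq (-(c : PadicAlgCl 2)) (n := 2) two_pos
  obtain ⟨ρ, hρ⟩ := IsAlgClosed.exists_pow_nat_eq (b ^ 2 + b) (n := 2) two_pos
  have hb2 : ‖b‖ ^ 2 = 8 := by rw [← norm_pow, hb, norm_neg, hc]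
  have hb0 : b ≠ 0 := by
    rintro rfl
    simp at hb2
  have hbnn := norm_nonneg b
  have hb1 : 2.8 < ‖b‖ := by nlinarith
  have hb1' : ‖b‖ < 2.9 := by nlinarith
  have hcc : -(c : PadicAlgCl 2) = algebraMap ℚ_[2] (PadicAlgCl 2) (-(c : ℚ_[2])) := by simp
  set K := IntermediateField.adjoin ℚ_[2] {b} with hK
  have hbK : b ∈ K := IntermediateField.mem_adjoin_simple_self _ _
  have hρK : ρ ∉ K := by
    intro hρK
    have hs : ρ / b - 1 ∈ K := sub_mem (div_mem hρK hbK) (one_mem _)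
    obtain ⟨u, v, huv⟩ := mem_adjoin_sqrt b _ (hb.trans hcc) _ hs
    set s := ρ / b with hsdef
    have hs2 : (s - 1) * (s + 1) = 1 / b := by
      rw [hsdef]
      field_simp
      linear_combination hρ
    have hprod : ‖s - 1‖ * ‖s + 1‖ = 1 / ‖b‖ := by rw [← norm_mul, hs2, norm_div, norm_one]
    have heq : ‖s - 1‖ = ‖s + 1‖ := by
      by_contra hne
      have h1 := eq_of_ne_two (x := s - 1) (y := s + 1) (r := 1) (by ring) hne
      rw [hprod, norm_one, div_le_iff₀ (by linarith)] at h1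
      linarith
    have h4 : ‖s - 1‖ ^ 4 = 1 / 8 := by
      have : ‖s - 1‖ ^ 4 = (‖s - 1‖ * ‖s + 1‖) ^ 2 := by rw [← heq]; ring
      rw [this, hprod, div_pow, hb2]
      norm_num
    rw [huv] at h4
    exact norm_quadratic b hb2 u v h4
  obtain ⟨τ, hτK, hτ⟩ := exists_neg K ρ hρK (by
    rw [hρ]
    exact add_mem (pow_mem hbK 2) hbK)
  refine ⟨toRat τ, fun y hy hfix => ?_⟩
  rw [toRat_apply] at hfix
  have hc1 : 1 < ‖(c : PadicAlgCl 2)‖ := by rw [hc]; norm_num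
  have hcb : (c : PadicAlgCl 2) = -b ^ 2 := by rw [hb]; ring
  -- distance of periodic points to `b`
  have hdist : ∀ z, Function.IsPeriodicPt (q (c : PadicAlgCl 2)) n z → ‖z - b‖ ^ 2 = ‖b‖ := by
    intro z hz
    have h1 := norm_sq_periodic hc1 hn (IsPeriodicPt_q hz)
    rw [hc, ← hb2] at h1
    have h2 : ‖q (c : PadicAlgCl 2) z‖ = ‖b‖ :=
      (pow_left_inj₀ (norm_nonneg _) (norm_nonneg b) two_ne_zero).mp h1
    have hprod : ‖z - b‖ * ‖z + b‖ = ‖b‖ := by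
      rw [← norm_mul, ← h2]
      congr 1
      unfold q
      rw [hcb]; ring
    have heq : ‖z - b‖ = ‖z + b‖ := by
      by_contra hne
      have h3 := eq_of_ne_two (x := z - b) (y := z + b) (r := b) (by ring) hne
      rw [hprod] at h3
      nlinarith
    rw [sq]
    nth_rewrite 2 [heq]
    exact hprod
  have hρn : ‖ρ‖ ^ 2 = 8 := by
    rw [← norm_pow, hρ, IsUltrametricDist.norm_add_eq_max_of_norm_ne_norm]
    · rw [norm_pow, hb2]
      exact max_eq_left (by linarith)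
    · rw [norm_pow, hb2]
      linarith
  have heq : ‖y - ρ‖ = ‖y + ρ‖ := by
    have h1 := norm_algEquiv 2 τ (y - ρ)
    rw [map_sub, hfix, hτ, sub_neg_eq_add] at h1
    exact h1.symm
  have hprod : ‖y - ρ‖ * ‖y + ρ‖ = ‖q (c : PadicAlgCl 2) y - b‖ := by
    rw [← norm_mul]
    congr 1
    have : (y - ρ) * (y + ρ) = y ^ 2 - ρ ^ 2 := by ring
    rw [this, hρ]
    unfold q
    rw [hcb]
    ring
  have h2ρ : ‖ρ‖ / 2 ≤ ‖y - ρ‖ := by
    have h1 : 2 * ρ = (y + ρ) + -(y - ρ) := by ring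
    have h3 := IsUltrametricDist.norm_add_le_max (y + ρ) (-(y - ρ))
    rw [← h1, norm_neg, heq, max_self, norm_mul, norm_two] at h3
    rw [heq]
    linarith
  have h5 := hdist _ (IsPeriodicPt_q hy.1)
  rw [← hprod, ← heq] at h5
  have h6 : (‖ρ‖ / 2) ^ 4 ≤ ‖y - ρ‖ ^ 4 := pow_le_pow_left₀ (by positivity) h2ρ 4
  have h7 : (‖ρ‖ / 2) ^ 4 = 4 := by
    have : (‖ρ‖ / 2) ^ 4 = (‖ρ‖ ^ 2) ^ 2 / 16 := by ring
    rw [this, hρn]; norm_num
  have h8 : ‖y - ρ‖ ^ 4 = ‖b‖ := by rw [← h5]; ring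
  linarith

end Pool.Agent.H9.Dyn
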