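import Mathlib
import Pool.Agent.H9.Dyn.TwoC

/-!
# The prime two, `v_2(c) = -4`
-/

open Polynomial

namespace Pool.Agent.H9.Dyn

theorem norm_sq_sub_one (u : ℚ_[2]) (hu : ‖u‖ = 1) : ‖u ^ 2 - 1‖ ≤ 1 / 8 := by
  set z : ℤ_[2] := ⟨u, hu.le⟩ with hz
  have hunit : IsUnit z := PadicInt.isUnit_iff.mpr hu
  have h1 : PadicInt.toZModPow 3 (z ^ 2 - 1) = 0 := by
    rw [map_sub, map_pow, map_one]
    have h2 : IsUnit (PadicInt.toZModPow 3 z) := hunit.map _
    have h3 : ∀ a : ZMod (2 ^ 3), IsUnit a → a ^ 2 - 1 = 0 := by decide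
    exact h3 _ h2
  have h2 : z ^ 2 - 1 ∈ Ideal.span {((2 : ℕ) : ℤ_[2]) ^ 3} := by
    rw [← PadicInt.ker_toZModPow, RingHom.mem_ker]
    exact h1
  rw [← PadicInt.norm_le_pow_iff_mem_span_pow] at h2
  have h3 : ‖z ^ 2 - 1‖ = ‖u ^ 2 - 1‖ := rfl
  rw [h3] at h2
  refine h2.trans (le_of_eq ?_)
  norm_num [zpow_neg]

/-- `v_2(c) = -4`, `16 c ≡ 7 mod 8`: Frobenius moves all the periodic points. -/
theorem two_move_D (c : ℚ) (hc : ‖(16 * c - 7 : ℚ_[2])‖ ≤ 1 / 8) (n : ℕ) (hn : 0 < n) :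
    ∃ τ : PadicAlgCl 2 ≃ₐ[ℚ] PadicAlgCl 2, ∀ y, DynPt (algebraMap ℚ (PadicAlgCl 2) c) n y →
      τ y ≠ y := by
  rw [eq_ratCast]
  have hn2 : ‖(2 : PadicAlgCl 2)‖ = 1 / 2 := norm_two
  have h4 : ‖(4 : PadicAlgCl 2)‖ = 1 / 4 := by
    rw [show (4 : PadicAlgCl 2) = 2 * 2 by norm_num, norm_mul, norm_two]; norm_num
  have h8 : ‖(8 : PadicAlgCl 2)‖ = 1 / 8 := by
    rw [show (8 : PadicAlgCl 2) = 2 * 4 by norm_num, norm_mul, norm_two, h4]; norm_num
  have h16 : ‖(16 : PadicAlgCl 2)‖ = 1 / 16 := by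
    rw [show (16 : PadicAlgCl 2) = 4 * 4 by norm_num, norm_mul, h4]; norm_num
  have hc7 : ‖16 * (c : PadicAlgCl 2) - 7‖ ≤ 1 / 8 := by
    have h1 : 16 * (c : PadicAlgCl 2) - 7 =
        algebraMap ℚ_[2] (PadicAlgCl 2) (16 * (c : ℚ_[2]) - 7) := by
      rw [map_sub, map_mul, map_ofNat, map_ofNat, map_ratCast]
    rw [h1, norm_alg]
    exact hc
  have hc1 : ‖16 * (c : PadicAlgCl 2) + 1‖ ≤ 1 / 8 := by
    have h1 : 16 * (c : PadicAlgCl 2) + 1 = (16 * (c : PadicAlgCl 2) - 7) + 8 := by ring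
    rw [h1]
    exact (IsUltrametricDist.norm_add_le_max _ _).trans (max_le hc7 h8.le)
  have hcn : ‖(c : PadicAlgCl 2)‖ = 16 := by
    have h1 : 16 * (c : PadicAlgCl 2) = (16 * (c : PadicAlgCl 2) + 1) + (-1) := by ring
    have h2 : ‖16 * (c : PadicAlgCl 2)‖ = 1 := by
      rw [h1, IsUltrametricDist.norm_add_eq_max_of_norm_ne_norm]
      · rw [norm_neg, norm_one]
        exact max_eq_right (by linarith)
      · rw [norm_neg, norm_one]
        linarith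
    rw [norm_mul, h16] at h2
    linarith
  obtain ⟨τ, hτ⟩ := exists_frobenius 2 {y : PadicAlgCl 2 | DynPt (c : PadicAlgCl 2) n y}
    (finite_dynPt _ hn)
  refine ⟨toRat τ, fun y hy hfix => ?_⟩
  rw [toRat_apply] at hfix
  set M := IntermediateField.adjoin ℚ_[2] {y : PadicAlgCl 2 | DynPt (c : PadicAlgCl 2) n y} with hM
  have hyM : y ∈ M := IntermediateField.subset_adjoin _ _ hy
  have hcc1 : 1 < ‖(c : PadicAlgCl 2)‖ := by rw [hcn]; norm_num
  -- the coordinate `z = 2y - 1/2`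
  have hz1 : ∀ w, Function.IsPeriodicPt (q (c : PadicAlgCl 2)) n w → ‖2 * w - 1 / 2‖ ≤ 1 := by
    intro w hw
    have h1 := norm_sq_periodic hcc1 hn (IsPeriodicPt_q hw)
    rw [hcn] at h1
    have h2 : ‖q (c : PadicAlgCl 2) w‖ = 4 := by
      have : (16 : ℝ) = 4 ^ 2 := by norm_num
      rw [this] at h1
      exact (pow_left_inj₀ (norm_nonneg _) (by norm_num) two_ne_zero).mp h1
    have h3 : (2 * w - 1 / 2) ^ 2 + (2 * w - 1 / 2) =
        4 * q (c : PadicAlgCl 2) w + -((16 * (c : PadicAlgCl 2) + 1) / 4) := by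
      unfold q; ring
    have h5 : ‖(2 * w - 1 / 2) ^ 2 + (2 * w - 1 / 2)‖ ≤ 1 := by
      rw [h3]
      refine (IsUltrametricDist.norm_add_le_max _ _).trans (max_le ?_ ?_)
      · rw [norm_mul, h2, h4]; norm_num
      · rw [norm_neg, norm_div, h4]
        linarith
    by_contra h6
    push Not at h6
    have h7 : ‖(2 * w - 1 / 2) ^ 2 + (2 * w - 1 / 2)‖ = ‖2 * w - 1 / 2‖ ^ 2 := by
      rw [IsUltrametricDist.norm_add_eq_max_of_norm_ne_norm]
      · rw [norm_pow]; exact max_eq_left (by nlinarith)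
      · rw [norm_pow]; nlinarith
    rw [h7] at h5
    nlinarith
  have hz := hz1 y hy.1
  have hz' := hz1 _ (IsPeriodicPt_q hy.1)
  have h3 : (2 * y - 1 / 2) ^ 2 + (2 * y - 1 / 2) + 1 =
      2 * (2 * q (c : PadicAlgCl 2) y - 1 / 2) +
        (2 + -((16 * (c : PadicAlgCl 2) + 1) / 4)) := by
    unfold q; ring
  have h5 : ‖(2 * y - 1 / 2) ^ 2 + (2 * y - 1 / 2) + 1‖ < 1 := by
    rw [h3]
    refine (IsUltrametricDist.norm_add_le_max _ _).trans_lt (max_lt ?_ ?_)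
    · rw [norm_mul, norm_two]; linarith
    · refine (IsUltrametricDist.norm_add_le_max _ _).trans_lt (max_lt ?_ ?_)
      · rw [norm_two]; norm_num
      · rw [norm_neg, norm_div, h4]; linarith
  have h12 : (1 / 2 : PadicAlgCl 2) ∈ M := div_mem (one_mem _) (by
    have := natCast_mem M 2
    simpa using this)
  have h2M : (2 : PadicAlgCl 2) ∈ M := by
    have := natCast_mem M 2
    simpa using this
  have hzM : 2 * y - 1 / 2 ∈ M := sub_mem (mul_mem h2M hyM) h12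
  have hfz : τ (2 * y - 1 / 2) = 2 * y - 1 / 2 := by
    rw [map_sub, map_mul, hfix, map_ofNat, map_div₀, map_one, map_ofNat]
  have h6 := hτ _ hzM hz
  rw [hfz] at h6
  have h7 : (1 : PadicAlgCl 2) = ((2 * y - 1 / 2) ^ 2 + (2 * y - 1 / 2) + 1) +
      (((2 * y - 1 / 2) - (2 * y - 1 / 2) ^ 2) + 2 * -(2 * y - 1 / 2)) := by ring
  have h9 : ‖(1 : PadicAlgCl 2)‖ < 1 := by
    rw [h7]
    refine (IsUltrametricDist.norm_add_le_max _ _).trans_lt (max_lt h5 ?_)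
    refine (IsUltrametricDist.norm_add_le_max _ _).trans_lt (max_lt h6 ?_)
    rw [norm_mul, norm_two, norm_neg]
    linarith
  rw [norm_one] at h9
  exact lt_irrefl _ h9

end Pool.Agent.H9.Dyn
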