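import Mathlib
import Pool.Agent.H9.Dyn.TwoD

/-!
# The prime two, `v_2(c) = -4`, `16 c ≡ 1 mod 4`
-/

open Polynomial

namespace Pool.Agent.H9.Dyn

theorem norm_four_alg : ‖(4 : PadicAlgCl 2)‖ = 1 / 4 := by
  rw [show (4 : PadicAlgCl 2) = 2 * 2 by norm_num, norm_mul, norm_two]; norm_num

theorem norm_two_padic : ‖(2 : ℚ_[2])‖ = 1 / 2 := by
  have := Padic.norm_p (p := 2)
  norm_num at this ⊢
  exact this

theorem norm_unit_of_sub {x y : ℚ_[2]} (hy : ‖y‖ = 1) (h : ‖x - y‖ < 1) : ‖x‖ = 1 := by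
  have h1 : x = (x - y) + y := by ring
  rw [h1, IsUltrametricDist.norm_add_eq_max_of_norm_ne_norm (by rw [hy]; exact h.ne), hy]
  exact max_eq_right h.le

theorem norm_three_padic : ‖(3 : ℚ_[2])‖ = 1 := by
  apply norm_unit_of_sub (y := 1) norm_one
  rw [show (3 - 1 : ℚ_[2]) = 2 by norm_num, norm_two_padic]
  norm_num

/-- `-3` is not a square in `ℚ_2` -/
theorem not_sq_neg_three (u : ℚ_[2]) (hu : u ^ 2 = -3) : False := by
  have h1 : ‖u‖ = 1 := by
    have h2 : ‖u‖ ^ 2 = 1 := by rw [← norm_pow, hu, norm_neg, norm_three_padic]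
    exact (pow_eq_one_iff_of_nonneg (norm_nonneg _) two_ne_zero).mp h2
  have h2 := norm_sq_sub_one u h1
  rw [hu, show (-3 - 1 : ℚ_[2]) = -(2 * 2) by norm_num, norm_neg, norm_mul, norm_two_padic] at h2
  norm_num at h2

/-- `v_2(c) = -4`, `16 c ≡ 1 mod 4`: an element of the inertia group at two moves all the
periodic points. -/
theorem two_move_E (c : ℚ) (hc : ‖(16 * c - 1 : ℚ_[2])‖ ≤ 1 / 4) (n : ℕ) (hn : 0 < n) :
    ∃ τ : PadicAlgCl 2 ≃ₐ[ℚ] PadicAlgCl 2, ∀ y, DynPt (algebraMap ℚ (PadicAlgCl 2) c) n y →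
      τ y ≠ y := by
  rw [eq_ratCast]
  have h4 := norm_four_alg
  have ha1 : ‖(16 * c : ℚ_[2])‖ = 1 := norm_unit_of_sub norm_one (lt_of_le_of_lt hc (by norm_num))
  have hcc : -(16 * (c : PadicAlgCl 2)) = algebraMap ℚ_[2] (PadicAlgCl 2) (-(16 * (c : ℚ_[2]))) := by
    rw [map_neg, map_mul, map_ofNat, map_ratCast]
  obtain ⟨b, hb⟩ := IsAlgClosed.exists_pow_nat_eq (-(16 * (c : PadicAlgCl 2))) (n := 2) two_pos
  obtain ⟨s, hs⟩ := IsAlgClosed.exists_pow_nat_eq (-3 : PadicAlgCl 2) (n := 2) two_pos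
  have hs' : s ^ 2 = algebraMap ℚ_[2] (PadicAlgCl 2) (-3) := by
    rw [hs, map_neg, map_ofNat]
  have hinj := (algebraMap ℚ_[2] (PadicAlgCl 2)).injective
  set K := IntermediateField.adjoin ℚ_[2] {s} with hK
  have hsK : s ∈ K := IntermediateField.mem_adjoin_simple_self _ _
  have hbK : b ∉ K := by
    intro hbK
    obtain ⟨u, v, huv⟩ := mem_adjoin_sqrt s _ hs' _ hbK
    have h1 : algebraMap ℚ_[2] (PadicAlgCl 2) (u ^ 2 - 3 * v ^ 2 + 16 * c) +
        algebraMap ℚ_[2] (PadicAlgCl 2) (2 * u * v) * s = 0 := by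
      have h2 : b ^ 2 = (algebraMap ℚ_[2] (PadicAlgCl 2) u + algebraMap ℚ_[2] (PadicAlgCl 2) v * s) ^ 2 := by
        rw [huv]
      rw [hb] at h2
      simp only [map_add, map_sub, map_mul, map_pow, map_ofNat, map_ratCast]
      linear_combination -h2 + (algebraMap ℚ_[2] (PadicAlgCl 2) v) ^ 2 * (-hs)
    by_cases huv0 : 2 * u * v = 0
    · rw [huv0, map_zero, zero_mul, add_zero] at h1
      have h2 : u ^ 2 - 3 * v ^ 2 + 16 * c = 0 := hinj (by rw [h1, map_zero])
      rcases mul_eq_zero.mp huv0 with h3 | hv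
      · have hu : u = 0 := (mul_eq_zero.mp h3).resolve_left two_ne_zero
        rw [hu] at h2
        have h5 : (16 * c : ℚ_[2]) = 3 * v ^ 2 := by linear_combination h2
        have hvn : ‖v‖ = 1 := by
          rw [h5, norm_mul, norm_three_padic, one_mul, norm_pow] at ha1
          exact (pow_eq_one_iff_of_nonneg (norm_nonneg _) two_ne_zero).mp ha1
        have h6 := norm_sq_sub_one v hvn
        have h7 : (2 : ℚ_[2]) = (16 * c - 1) + -(3 * (v ^ 2 - 1)) := by rw [h5]; ring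
        have h8 : ‖(2 : ℚ_[2])‖ ≤ 1 / 4 := by
          rw [h7]
          refine (IsUltrametricDist.norm_add_le_max _ _).trans (max_le hc ?_)
          rw [norm_neg, norm_mul, norm_three_padic]
          linarith
        rw [norm_two_padic] at h8
        norm_num at h8
      · rw [hv] at h2
        have h5 : (16 * c : ℚ_[2]) = -u ^ 2 := by linear_combination h2
        have hun : ‖u‖ = 1 := by
          rw [h5, norm_neg, norm_pow] at ha1
          exact (pow_eq_one_iff_of_nonneg (norm_nonneg _) two_ne_zero).mp ha1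
        have h6 := norm_sq_sub_one u hun
        have h7 : (2 : ℚ_[2]) = -((16 * c - 1) + (u ^ 2 - 1)) := by rw [h5]; ring
        have h8 : ‖(2 : ℚ_[2])‖ ≤ 1 / 4 := by
          rw [h7, norm_neg]
          exact (IsUltrametricDist.norm_add_le_max _ _).trans (max_le hc (by linarith))
        rw [norm_two_padic] at h8
        norm_num at h8
    · have h2 : s = algebraMap ℚ_[2] (PadicAlgCl 2)
          (-(u ^ 2 - 3 * v ^ 2 + 16 * c) / (2 * u * v)) := by
        rw [map_div₀, map_neg, eq_div_iff (by rwa [Ne, map_eq_zero_iff _ hinj])]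
        linear_combination h1
      rw [h2, ← map_pow] at hs'
      exact not_sq_neg_three _ (hinj hs')
  obtain ⟨τ, hτK, hτ⟩ := exists_neg K b hbK (by
    rw [hb, hcc]
    exact IntermediateField.algebraMap_mem _ _)
  refine ⟨toRat τ, fun y hy hfix => ?_⟩
  rw [toRat_apply] at hfix
  have hcn : ‖(c : PadicAlgCl 2)‖ = 16 := by
    have h1 : ‖16 * (c : PadicAlgCl 2)‖ = 1 := by
      have : 16 * (c : PadicAlgCl 2) = algebraMap ℚ_[2] (PadicAlgCl 2) (16 * (c : ℚ_[2])) := by
        rw [map_mul, map_ofNat, map_ratCast]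
      rw [this, norm_alg, ha1]
    rw [norm_mul, show (16 : PadicAlgCl 2) = 4 * 4 by norm_num, norm_mul, h4] at h1
    linarith
  have hcc1 : 1 < ‖(c : PadicAlgCl 2)‖ := by rw [hcn]; norm_num
  have hbn : ‖b‖ = 1 := by
    have h1 : ‖b‖ ^ 2 = 1 := by
      rw [← norm_pow, hb, hcc, norm_alg, norm_neg, ha1]
    exact (pow_eq_one_iff_of_nonneg (norm_nonneg _) two_ne_zero).mp h1
  have hb0 : b ≠ 0 := by
    rintro rfl
    simp at hbn
  -- `X = 4 y` reduces to one
  have hyn : ∀ w, Function.IsPeriodicPt (q (c : PadicAlgCl 2)) n w → ‖4 * w‖ = 1 := by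
    intro w hw
    have h1 := norm_sq_periodic hcc1 hn hw
    rw [hcn] at h1
    have h2 : ‖w‖ = 4 := by
      have : (16 : ℝ) = 4 ^ 2 := by norm_num
      rw [this] at h1
      exact (pow_left_inj₀ (norm_nonneg _) (by norm_num) two_ne_zero).mp h1
    rw [norm_mul, h2, h4]
    norm_num
  have hred16 : Red (16 * (c : PadicAlgCl 2)) (1 : ZMod 2) := by
    have h1 := red_unit_two _ ha1
    rwa [map_mul, map_ofNat, map_ratCast] at h1
  have hX : ∀ w, Function.IsPeriodicPt (q (c : PadicAlgCl 2)) n w → Red (4 * w) (1 : ZMod 2) := by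
    intro w hw
    apply red_one_of_sq (hyn w hw).le
    have h1 : (4 * w) ^ 2 = 4 * (4 * q (c : PadicAlgCl 2) w) +
        ((-1 : ℤ) : PadicAlgCl 2) * (16 * c) := by
      unfold q; push_cast; ring
    rw [h1]
    have h5 : Red (4 * (4 * q (c : PadicAlgCl 2) w)) (0 : ZMod 2) := by
      rw [red_zero_iff, norm_mul, hyn _ (IsPeriodicPt_q hw), h4]
      norm_num
    have h6 := h5.add ((red_intCast (p := 2) (-1)).mul hred16)
    rwa [show ((0 : ZMod 2) + ((-1 : ℤ) : ZMod 2) * 1) = 1 by decide] at h6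
  set z := (4 * y - b) / (2 * b) with hz
  have hz1 : z ^ 2 + z + 1 = (4 * q (c : PadicAlgCl 2) y - 16 * c) / b ^ 2 := by
    rw [hz]
    unfold q
    field_simp
    linear_combination 3 * hb
  have hz2 : ‖z ^ 2 + z + 1‖ < 1 := by
    rw [hz1, norm_div, norm_pow, hbn, one_pow, div_one]
    have h1 := (hX _ (IsPeriodicPt_q hy.1)).add ((red_intCast (p := 2) (-1)).mul hred16)
    rw [show ((1 : ZMod 2) + ((-1 : ℤ) : ZMod 2) * 1) = 0 by decide, red_zero_iff] at h1
    push_cast at h1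
    rwa [neg_one_mul, ← sub_eq_add_neg] at h1
  have hs3 : ‖s‖ = 1 := by
    have h1 : ‖s‖ ^ 2 = 1 := by
      rw [← norm_pow, hs', norm_alg, norm_neg, norm_three_padic]
    exact (pow_eq_one_iff_of_nonneg (norm_nonneg _) two_ne_zero).mp h1
  have hfac : z ^ 2 + z + 1 = (z - (-1 + s) / 2) * (z - (-1 - s) / 2) := by
    linear_combination (1 / 4) * hs
  have hτs : τ s = s := hτK s hsK
  have hτz : τ z = -(z + 1) := by
    rw [hz, map_div₀, map_sub, map_mul, map_mul, hfix, hτ, map_ofNat, map_ofNat]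
    field_simp
    ring
  clear_value z
  -- the two cases
  have hcase : ∀ t : PadicAlgCl 2, τ t = t → ‖t‖ = 1 → ‖z - (-1 + t) / 2‖ < 1 → False := by
    intro t ht htn h1
    have h2 : ‖τ (z - (-1 + t) / 2)‖ < 1 := by rw [norm_algEquiv]; exact h1
    rw [map_sub, map_div₀, map_add, map_neg, map_one, ht, map_ofNat, hτz] at h2
    have h3 : -t = (z - (-1 + t) / 2) + (-(z + 1) - (-1 + t) / 2) := by ring
    have h5 : ‖-t‖ < 1 := by
      rw [h3]
      exact (IsUltrametricDist.norm_add_le_max _ _).trans_lt (max_lt h1 h2)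
    rw [norm_neg, htn] at h5
    exact lt_irrefl _ h5
  rw [hfac, norm_mul] at hz2
  by_cases h1 : ‖z - (-1 + s) / 2‖ < 1
  · exact hcase s hτs hs3 h1
  · by_cases h2 : ‖z - (-1 - s) / 2‖ < 1
    · refine hcase (-s) (by rw [map_neg, hτs]) (by rw [norm_neg, hs3]) ?_
      rwa [← sub_eq_add_neg]
    · push Not at h1 h2
      nlinarith

end Pool.Agent.H9.Dyn
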