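import Mathlib
import Pool.Agent.H9.Dyn.Arith
import Pool.Agent.H9.Dyn.Bad
import Pool.Agent.H9.Dyn.TwoA
import Pool.Agent.H9.Dyn.TwoB
import Pool.Agent.H9.Dyn.TwoC
import Pool.Agent.H9.Dyn.TwoD
import Pool.Agent.H9.Dyn.TwoE
import Pool.Agent.H9.Dyn.Real

/-!
# The shape of the exceptional parameters
-/

open Polynomial

namespace Pool.Agent.H9.Dyn

section

variable {p : ℕ} [hp : Fact p.Prime]

theorem norm_of_dvd_den (c : ℚ) (h : p ∣ c.den) :
    ‖(c : ℚ_[p])‖ = (p : ℝ) ^ (c.den.factorization p) := by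
  have hnum : ‖(c.num : ℚ_[p])‖ = 1 := by
    rw [Padic.norm_intCast_eq_one_iff]
    have h1 : IsCoprime c.num (c.den : ℤ) := Rat.isCoprime_num_den c
    exact IsCoprime.of_isCoprime_of_dvd_right h1 (Int.natCast_dvd_natCast.mpr h)
  have hden : ‖(c.den : ℚ_[p])‖ = ((p : ℝ) ^ (c.den.factorization p))⁻¹ := by
    obtain ⟨m, hm2⟩ : ∃ m, m = c.den / p ^ (c.den.factorization p) := ⟨_, rfl⟩
    have hm : p ^ (c.den.factorization p) * m = c.den := by
      rw [hm2]
      exact Nat.ordProj_mul_ordCompl_eq_self c.den p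
    have hmp : ‖(m : ℚ_[p])‖ = 1 := by
      rw [Padic.norm_natCast_eq_one_iff, hm2]
      exact Nat.coprime_ordCompl hp.out c.den_nz
    have h1 : (c.den : ℚ_[p]) = (p : ℚ_[p]) ^ (c.den.factorization p) * m := by
      exact_mod_cast congrArg (Nat.cast : ℕ → ℚ_[p]) hm.symm
    rw [h1, norm_mul, hmp, mul_one, norm_pow, Padic.norm_p, inv_pow]
  have h2 : (c : ℚ_[p]) = (c.num : ℚ_[p]) / (c.den : ℚ_[p]) := Rat.cast_def c
  rw [h2, norm_div, hnum, hden, one_div, inv_inv]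

theorem even_of_sq (c : ℚ) (h : p ∣ c.den) (x : ℚ_[p]) (hx : x ^ 2 = -c) :
    Even (c.den.factorization p) := by
  have h1 := norm_of_dvd_den c h
  have h2 : ‖x‖ ^ 2 = (p : ℝ) ^ (c.den.factorization p) := by
    rw [← norm_pow, hx, norm_neg, h1]
  have hp1 : 1 < (p : ℝ) := by exact_mod_cast hp.out.one_lt
  have hx0 : x ≠ 0 := by
    rintro rfl
    have h3 : (0 : ℝ) < (p : ℝ) ^ (c.den.factorization p) := by positivity
    rw [norm_zero, zero_pow two_ne_zero] at h2
    linarith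
  rw [Padic.norm_eq_zpow_neg_valuation hx0, ← zpow_natCast, ← zpow_mul, ← zpow_natCast] at h2
  have h3 := zpow_right_injective₀ (by positivity) hp1.ne' h2
  have h4 : (c.den.factorization p : ℤ) = 2 * (-x.valuation) := by
    rw [← h3]
    push_cast
    ring
  have h5 : Even ((c.den.factorization p : ℕ) : ℤ) := ⟨-x.valuation, by rw [h4]; ring⟩
  exact_mod_cast h5

theorem isSquare_zmod (r : ℕ) (u : ℚ_[p]) (hu : u ^ 2 = r) (k : ℕ) :
    ∃ a : ZMod (p ^ k), a ^ 2 = (r : ZMod (p ^ k)) := by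
  have h1 : ‖u‖ ≤ 1 := by
    have h2 : ‖u‖ ^ 2 ≤ 1 := by
      rw [← norm_pow, hu]
      exact_mod_cast Padic.norm_int_le_one (p := p) (r : ℤ)
    exact (pow_le_one_iff_of_nonneg (norm_nonneg _) two_ne_zero).mp h2
  obtain ⟨z, hz⟩ : ∃ z : ℤ_[p], (z : ℚ_[p]) = u := ⟨⟨u, h1⟩, rfl⟩
  refine ⟨PadicInt.toZModPow k z, ?_⟩
  rw [← map_pow]
  have h2 : z ^ 2 = (r : ℤ_[p]) := by
    apply Subtype.ext
    push_cast
    rw [hz]
    exact hu
  rw [h2, map_natCast]

end

theorem den_sq (c : ℚ)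
    (hodd : ∀ p : ℕ, ∀ _ : Fact p.Prime, p ≠ 2 → p ∣ c.den → ∃ x : ℚ_[p], x ^ 2 = -c)
    (h2A : ¬ ‖(c : ℚ_[2])‖ ≤ 2) (h2C : ‖(c : ℚ_[2])‖ ≠ 8)
    (h2 : 1 < ‖(16 * c : ℚ_[2])‖ → ∃ x : ℚ_[2], x ^ 2 = -c) :
    ∃ s, c.den = s ^ 2 ∧ 2 ∣ s ∧ 0 < s := by
  have hdvd2 : 2 ∣ c.den := by
    by_contra hcon
    apply h2A
    have h3 := Padic.norm_rat_le_one (p := 2) hcon
    linarith
  have hn2 := norm_of_dvd_den (p := 2) c hdvd2
  have hv2 : 2 ≤ c.den.factorization 2 := by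
    by_contra hcon
    apply h2A
    rw [hn2]
    calc ((2 : ℕ) : ℝ) ^ (c.den.factorization 2) ≤ ((2 : ℕ) : ℝ) ^ 1 :=
          pow_le_pow_right₀ (by norm_num) (by omega)
      _ = 2 := by norm_num
  have heven2 : Even (c.den.factorization 2) := by
    have h3 : c.den.factorization 2 ≠ 3 := by
      intro h
      apply h2C
      rw [hn2, h]
      norm_num
    have h4 : c.den.factorization 2 = 2 ∨ c.den.factorization 2 = 4 ∨
      5 ≤ c.den.factorization 2 := by omega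
    rcases h4 with h4 | h4 | h4
    · rw [h4]; decide
    · rw [h4]; decide
    · have h5 : 1 < ‖(16 * c : ℚ_[2])‖ := by
        have h16 : ‖(16 : ℚ_[2])‖ = 1 / 16 := by
          rw [show (16 : ℚ_[2]) = 2 ^ 4 by norm_num, norm_pow, norm_two_padic]
          norm_num
        rw [norm_mul, h16, hn2]
        have h6 : ((2 : ℕ) : ℝ) ^ 5 ≤ ((2 : ℕ) : ℝ) ^ (c.den.factorization 2) :=
          pow_le_pow_right₀ (by norm_num) h4
        norm_num at h6 ⊢
        linarith
      obtain ⟨x, hx⟩ := h2 h5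
      exact even_of_sq c hdvd2 x hx
  have heven : ∀ p : ℕ, p.Prime → Even (c.den.factorization p) := by
    intro p hp
    have fp : Fact p.Prime := ⟨hp⟩
    by_cases h : p ∣ c.den
    · by_cases h3 : p = 2
      · rw [h3]; exact heven2
      · obtain ⟨x, hx⟩ := hodd p fp h3 h
        exact even_of_sq c h x hx
    · rw [Nat.factorization_eq_zero_of_not_dvd h]
      exact Even.zero
  obtain ⟨a, b, ha, hb, hab, hsf⟩ := Nat.sq_mul_squarefree_of_pos c.den_pos
  have ha1 : a = 1 := by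
    by_contra hne
    obtain ⟨l, hl, hla⟩ := Nat.exists_prime_and_dvd hne
    have h3 := heven l hl
    have h4 : c.den.factorization l = 2 * b.factorization l + a.factorization l := by
      rw [← hab, Nat.factorization_mul (by positivity) ha.ne', Nat.factorization_pow]
      simp
    have h5 : a.factorization l = 1 := by
      have h6 := hsf.natFactorization_le_one l
      have h7 : 0 < a.factorization l := hl.factorization_pos_of_dvd ha.ne' hla
      omega
    rw [h4, h5] at h3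
    obtain ⟨k, hk⟩ := h3
    omega
  refine ⟨b, by rw [← hab, ha1, mul_one], ?_, hb⟩
  have h3 : 2 ∣ b ^ 2 := by rwa [← hab, ha1, mul_one] at hdvd2
  exact Nat.prime_two.dvd_of_dvd_pow h3

end Pool.Agent.H9.Dyn
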