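import Mathlib
import Pool.Agent.H9.Dyn.Shape

/-!
# The exceptional parameters
-/

open Polynomial

namespace Pool.Agent.H9.Dyn

theorem exists_linConj (f : ℚ[X]) (hf : f.natDegree = 2) : ∃ c, LinConj f c := by
  obtain ⟨a, b, d, ha, rfl⟩ : ∃ a b d : ℚ, a ≠ 0 ∧ f = C a * X ^ 2 + C b * X + C d := by
    refine ⟨f.coeff 2, f.coeff 1, f.coeff 0, ?_, ?_⟩
    · rw [← hf]
      exact leadingCoeff_ne_zero.mpr (ne_zero_of_natDegree_gt (n := 0) (by omega))
    · exact Polynomial.eq_quadratic_of_degree_le_two (natDegree_le_iff_degree_le.mp hf.le)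
  refine ⟨a * d + b / 2 - b ^ 2 / 4, C a⁻¹ * X + C (-(b / (2 * a))), ?_, ?_⟩
  · exact natDegree_linear (inv_ne_zero ha)
  · simp only [add_comp, mul_comp, pow_comp, X_comp, C_comp]
    have h1 : a * a⁻¹ = 1 := mul_inv_cancel₀ ha
    have e1 : C a * (C a⁻¹ * X + C (-(b / (2 * a)))) ^ 2 +
        C b * (C a⁻¹ * X + C (-(b / (2 * a)))) + C d =
        C (a * a⁻¹ ^ 2) * X ^ 2 + C (2 * a * a⁻¹ * (-(b / (2 * a))) + b * a⁻¹) * X +
          C (a * (-(b / (2 * a))) ^ 2 + b * (-(b / (2 * a))) + d) := by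
      simp only [map_add, map_mul, map_pow, map_neg, C_ofNat]
      ring
    have e2 : C a⁻¹ * (X ^ 2 + C (a * d + b / 2 - b ^ 2 / 4)) + C (-(b / (2 * a))) =
        C a⁻¹ * X ^ 2 + C (a⁻¹ * (a * d + b / 2 - b ^ 2 / 4) + -(b / (2 * a))) := by
      simp only [map_add, map_mul]
      ring
    rw [e1, e2]
    have h2 : a * a⁻¹ ^ 2 = a⁻¹ := by field_simp
    have h3 : 2 * a * a⁻¹ * (-(b / (2 * a))) + b * a⁻¹ = 0 := by field_simp; ring
    have h4 : a * (-(b / (2 * a))) ^ 2 + b * (-(b / (2 * a))) + d =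
        a⁻¹ * (a * d + b / 2 - b ^ 2 / 4) + -(b / (2 * a)) := by field_simp; ring
    rw [h2, h3, h4, map_zero, zero_mul, add_zero]

/-- The conditions on `c = -r/s^2` and on the period `n`. -/
structure Exceptional (r s n : ℕ) : Prop where
  /-- the fraction is in lowest terms -/
  coprime : r.Coprime s
  /-- `c ≤ -5/4` -/
  real : 5 * s ^ 2 ≤ 4 * r
  /-- `s` is even -/
  even : 2 ∣ s
  /-- if `s = 2 mod 4` then `n` is a power of two -/
  two : s % 4 = 2 → ∃ k, n = 2 ^ k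
  /-- if `s = 4 mod 8` then `r = 5 mod 8` -/
  four : s % 8 = 4 → r % 8 = 5
  /-- if `8 ∣ s` then `r = 1 mod 8` -/
  eight : 8 ∣ s → r % 8 = 1
  /-- `r` is a square modulo every odd prime factor of `s` -/
  odd : ∀ p : ℕ, p.Prime → p ≠ 2 → p ∣ s → IsSquare (r : ZMod p)
  /-- `3 ∣ s` unless `n = 3^e, 2 * 3^e` -/
  three : ¬ 3 ∣ s → ∃ e, n = 3 ^ e ∨ n = 2 * 3 ^ e
  /-- `5 ∣ s` unless `n = 2^i * 5^e` with `i ≤ 3` -/
  five : ¬ 5 ∣ s → ∃ i e, i ≤ 3 ∧ n = 2 ^ i * 5 ^ e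
  /-- every prime smaller than some prime factor of `n` divides `s` -/
  small : ∀ p l : ℕ, p.Prime → l.Prime → l ∣ n → p < l → p ∣ s

theorem norm_natCast_two {m : ℕ} (h : m % 2 = 1) : ‖(m : ℚ_[2])‖ = 1 := by
  rw [Padic.norm_natCast_eq_one_iff]
  exact Nat.coprime_two_left.mpr (Nat.odd_iff.mpr h)

theorem norm_natCast_le {m k : ℕ} (h : 2 ^ k ∣ m) : ‖(m : ℚ_[2])‖ ≤ (1 / 2) ^ k := by
  have h1 := (Padic.norm_int_le_pow_iff_dvd (p := 2) (m : ℤ) k).mpr (by exact_mod_cast h)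
  rw [Int.cast_natCast] at h1
  refine h1.trans (le_of_eq ?_)
  rw [zpow_neg, zpow_natCast]
  simp

theorem exceptional_of_not_move (c : ℚ) (n : ℕ) (hn : 3 < n) (hreal : ¬ Move ℂ c n)
    (hpad : ∀ (p : ℕ) (_ : Fact p.Prime), ¬ Move (PadicAlgCl p) c n) :
    ∃ r s : ℕ, 0 < s ∧ c = -((r : ℚ) / (s : ℚ) ^ 2) ∧ Exceptional r s n := by
  have hn0 : 0 < n := by omega
  have hc : c ≤ -5 / 4 := by
    by_contra hcon
    push Not at hcon
    exact hreal (real_move c hcon n hn)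
  have hodd : ∀ p : ℕ, ∀ _ : Fact p.Prime, p ≠ 2 → p ∣ c.den → ∃ x : ℚ_[p], x ^ 2 = -c := by
    intro p fp hp2 hpd
    by_contra hcon
    push Not at hcon
    have hpr : p.Prime := fp.out
    refine hpad p fp (bad_move c ?_ hcon n hn0)
    have h16 : ‖((16 : ℕ) : ℚ_[p])‖ = 1 := by
      rw [Padic.norm_natCast_eq_one_iff]
      have h1 : Nat.Coprime p (2 ^ 4) :=
        Nat.Coprime.pow_right 4 ((Nat.coprime_primes hpr Nat.prime_two).mpr hp2)
      exact h1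
    have h1 : (1 : ℝ) < p := by exact_mod_cast hpr.one_lt
    have h2 : (16 * c : ℚ_[p]) = ((16 : ℕ) : ℚ_[p]) * c := by norm_num
    rw [h2, norm_mul, h16, one_mul, norm_of_dvd_den c hpd]
    exact one_lt_pow₀ h1 (hpr.factorization_pos_of_dvd c.den_nz hpd).ne'
  have h2 : 1 < ‖(16 * c : ℚ_[2])‖ → ∃ x : ℚ_[2], x ^ 2 = -c := by
    intro h
    by_contra hcon
    push Not at hcon
    exact hpad 2 _ (bad_move c h hcon n hn0)
  obtain ⟨s, hs, h2s, hs0⟩ := den_sq c hodd (fun h => hpad 2 _ (two_move_A c h n (by omega)))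
    (fun h => hpad 2 _ (two_move_C c h n hn0)) h2
  obtain ⟨r, hr⟩ : ∃ r, r = c.num.natAbs := ⟨_, rfl⟩
  have hnum : c.num = -(r : ℤ) := by
    have h1 : c.num < 0 := Rat.num_neg.mpr (by linarith)
    rw [hr]
    omega
  have hcrs : c = -((r : ℚ) / (s : ℚ) ^ 2) := by
    conv_lhs => rw [← Rat.num_div_den c]
    rw [hnum, hs]
    push_cast
    ring
  have hcop : r.Coprime s := by
    have h1 := c.reduced
    rw [← hr, hs] at h1
    exact h1.coprime_dvd_right (Dvd.intro_left (s ^ 1) (by ring))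
  have hsden : ∀ p : ℕ, p.Prime → ¬ p ∣ s → ¬ p ∣ c.den := by
    intro p hp h h1
    rw [hs] at h1
    exact h (hp.dvd_of_dvd_pow h1)
  have hsden' : ∀ p : ℕ, p ∣ s → p ∣ c.den := by
    intro p h
    rw [hs]
    exact h.trans (Dvd.intro_left (s ^ 1) (by ring))
  have hrodd : r % 2 = 1 := by
    by_contra hcon
    have h1 : 2 ∣ r := by omega
    have h3 := Nat.dvd_gcd h1 h2s
    rw [hcop.gcd_eq_one] at h3
    omega
  have hr1 := norm_natCast_two hrodd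
  have hcp : ∀ (p : ℕ) (_ : Fact p.Prime), (c : ℚ_[p]) = -((r : ℚ_[p]) / (s : ℚ_[p]) ^ 2) := by
    intro p fp
    rw [hcrs]
    push_cast
    rfl
  have hsQ : ∀ (p : ℕ) (_ : Fact p.Prime), (s : ℚ_[p]) ≠ 0 := by
    intro p fp
    exact_mod_cast hs0.ne'
  have hsx : ∀ (p : ℕ) (_ : Fact p.Prime) (x : ℚ_[p]), x ^ 2 = -c →
      ((s : ℚ_[p]) * x) ^ 2 = (r : ℚ_[p]) := by
    intro p fp x hx
    have := hsQ p fp
    rw [mul_pow, hx, hcp p fp]
    field_simp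
  refine ⟨r, s, hs0, hcrs, ?_⟩
  refine ⟨hcop, ?_, h2s, ?_, ?_, ?_, ?_, ?_, ?_, ?_⟩
  · -- the real place
    have h1 : (5 : ℚ) * s ^ 2 ≤ 4 * r := by
      rw [hcrs] at hc
      have h3 : (0 : ℚ) < (s : ℚ) ^ 2 := by positivity
      have h4 : 5 / 4 ≤ (r : ℚ) / (s : ℚ) ^ 2 := by linarith
      rw [le_div_iff₀ h3] at h4
      linarith
    exact_mod_cast h1
  · intro h
    by_contra hcon
    push Not at hcon
    refine hpad 2 _ (two_move_B c ?_ n hn0 hcon)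
    obtain ⟨u, hu, hu2⟩ : ∃ u, s = 2 * u ∧ u % 2 = 1 := ⟨s / 2, by omega, by omega⟩
    rw [hcp 2 _, hu]
    push_cast
    rw [norm_neg, norm_div, norm_pow, norm_mul, hr1, norm_two_padic, norm_natCast_two hu2]
    norm_num
  · intro h
    obtain ⟨u, hu, hu2⟩ : ∃ u, s = 4 * u ∧ u % 2 = 1 := ⟨s / 4, by omega, by omega⟩
    have hun := norm_natCast_two hu2
    have hu0 : (u : ℚ_[2]) ≠ 0 := by
      intro h0
      rw [h0, norm_zero] at hun
      norm_num at hun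
    have husq : u ^ 2 % 8 = 1 := by
      have h3 : u % 8 = 1 ∨ u % 8 = 3 ∨ u % 8 = 5 ∨ u % 8 = 7 := by omega
      rcases h3 with h3 | h3 | h3 | h3 <;> rw [Nat.pow_mod, h3]
    have hc16 : (16 * c : ℚ_[2]) = -((r : ℚ_[2]) / (u : ℚ_[2]) ^ 2) := by
      rw [hcp 2 _, hu]
      push_cast
      field_simp
      norm_num
      ring
    have h41 : r % 4 ≠ 3 := by
      intro h3
      refine hpad 2 _ (two_move_E c ?_ n hn0)
      have h4 : (16 * c - 1 : ℚ_[2]) = -(((r + u ^ 2 : ℕ) : ℚ_[2]) / (u : ℚ_[2]) ^ 2) := by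
        rw [hc16]
        push_cast
        field_simp
        ring
      rw [h4, norm_neg, norm_div, norm_pow, hun]
      have h5 := norm_natCast_le (m := r + u ^ 2) (k := 2) (by norm_num; omega)
      norm_num at h5 ⊢
      exact h5
    have h81 : r % 8 ≠ 1 := by
      intro h3
      refine hpad 2 _ (two_move_D c ?_ n hn0)
      have h4 : (16 * c - 7 : ℚ_[2]) = -(((r + 7 * u ^ 2 : ℕ) : ℚ_[2]) / (u : ℚ_[2]) ^ 2) := by
        rw [hc16]
        push_cast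
        field_simp
        ring
      rw [h4, norm_neg, norm_div, norm_pow, hun]
      have h5 := norm_natCast_le (m := r + 7 * u ^ 2) (k := 3) (by norm_num; omega)
      norm_num at h5 ⊢
      exact h5
    omega
  · intro h
    have h16 : 1 < ‖(16 * c : ℚ_[2])‖ := by
      have h3 : ‖(s : ℚ_[2])‖ ≤ (1 / 2) ^ 3 := norm_natCast_le (k := 3) (by norm_num; exact h)
      have h4 : ‖(16 : ℚ_[2])‖ = 1 / 16 := by
        rw [show (16 : ℚ_[2]) = 2 ^ 4 by norm_num, norm_pow, norm_two_padic]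
        norm_num
      have h5 : 0 < ‖(s : ℚ_[2])‖ := norm_pos_iff.mpr (hsQ 2 _)
      rw [norm_mul, h4, hcp 2 _, norm_neg, norm_div, norm_pow, hr1]
      have h6 : ‖(s : ℚ_[2])‖ ^ 2 ≤ ((1 / 2) ^ 3) ^ 2 := pow_le_pow_left₀ h5.le h3 2
      have h7 : 64 ≤ 1 / ‖(s : ℚ_[2])‖ ^ 2 := by
        rw [le_div_iff₀ (by positivity)]
        norm_num at h6
        linarith
      linarith
    obtain ⟨x, hx⟩ := h2 h16
    obtain ⟨a, ha⟩ := isSquare_zmod (p := 2) r _ (hsx 2 _ x hx) 3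
    have key : ∀ a : ZMod (2 ^ 3), (a ^ 2).val % 2 = 1 → (a ^ 2).val = 1 := by decide
    have h3 := key a
    rw [ha, ZMod.val_natCast] at h3
    norm_num at h3
    exact h3 (by omega)
  · intro p hp hp2 hps
    have fp : Fact p.Prime := ⟨hp⟩
    obtain ⟨x, hx⟩ := hodd p fp hp2 (hsden' p hps)
    obtain ⟨a, ha⟩ := isSquare_zmod (p := p) r _ (hsx p _ x hx) 1
    have h3 : ∃ a : ZMod p, a ^ 2 = (r : ZMod p) := by
      have h4 : ∃ a : ZMod (p ^ 1), a ^ 2 = (r : ZMod (p ^ 1)) := ⟨a, ha⟩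
      rwa [pow_one] at h4
    obtain ⟨b, hb⟩ := h3
    exact ⟨b, by rw [← hb, pow_two]⟩
  · intro h
    exact good_three c (hsden 3 Nat.prime_three h) n hn (hpad 3 _)
  · intro h
    exact good_five c (hsden 5 Nat.prime_five h) n hn (hpad 5 _)
  · intro p l hp hl hln hpl
    by_contra h
    have fp : Fact p.Prime := ⟨hp⟩
    have h1 := good_factors p c (hsden p hp h) n hn0 (hpad p fp) l hl hln
    omega

end Pool.Agent.H9.Dyn
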